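import Pool.Agent.H460.CF.Sz2

/-!
# Pairs such that the value of the norm form is a given number times a `k`-th power, `k ≥ 2`
-/

set_option autoImplicit false

namespace Pool.Agent.H460.CF

open NumberField Finset Pool.Agent.W4.CF Pool.Agent.W4.CF.PB Pool.Agent.H460.ST

/-- the data attached to a pair -/
theorem corek (K : Type) [Field K] [NumberField K] (ρ : 𝓞 K) (A B : ℤ) (i : ℕ)
    (hC : Cub K ρ A B) (hI : Idx K ρ i) (k : ℕ) (hk : 1 ≤ k) :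
    ∃ (E : ℕ) (C1 C2 C3 : ℝ) (L : K →ₗ[ℚ] ℚ), 1 ≤ E ∧ 1 ≤ C1 ∧ 0 < C2 ∧
      1 ≤ C3 ∧ L ≠ 0 ∧
      ∀ (Y : ℝ) (u v : ℤ) (c z : ℕ), 1 ≤ Y → IsCoprime u v → |(u : ℝ)| ≤ Y → |(v : ℝ)| ≤ Y →
        1 ≤ c → 1 ≤ z → Nat.Coprime z (i * c) → (G A B u v).natAbs = c * z ^ k →
        ∃ (I : Ideal (𝓞 K)) (e : ℕ) (τ δ : 𝓞 K), Ideal.absNorm I = c ∧
          1 ≤ e ∧ e ≤ E ∧ τ ∈ I ∧ τ ≠ 0 ∧
          ((Algebra.norm ℤ τ).natAbs : ℝ) ≤ C2 * (Ideal.absNorm I : ℝ) ∧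
          (∀ σ : K →+* ℂ, ‖σ (τ : K)‖ ≤ C3 * Y) ∧ L ((τ : K) * (δ : K) ^ k) = 0 ∧ δ ≠ 0 ∧
          (e : K) ^ k * ((u : K) - v * (ρ : K)) = (δ : K) ^ k * (τ : K) ∧
          (∀ σ : K →+* ℂ, ‖σ (δ : K)‖ ≤ C1 * (z : ℝ) ^ ((1 : ℝ) / 3)) := by
  classical
  have hd : Module.finrank ℚ K = 3 := hC.1
  obtain ⟨C1, hC1, hmink⟩ := Pool.Agent.W721.CF.t_MINK K
  obtain ⟨L, hL0, hL⟩ := Pool.Agent.W721.CF.t_LIN K ρ A B hC
  let Mr : ℝ := ∑ σ : K →+* ℂ, ‖σ (ρ : K)‖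
  have hMr : ∀ σ : K →+* ℂ, ‖σ (ρ : K)‖ ≤ Mr := fun σ =>
    Finset.single_le_sum (f := fun σ : K →+* ℂ => ‖σ (ρ : K)‖) (fun _ _ => norm_nonneg _)
      (Finset.mem_univ σ)
  have hMr0 : 0 ≤ Mr := Finset.sum_nonneg fun _ _ => norm_nonneg _
  let E : ℕ := ⌊C1 ^ 3⌋₊
  have hE1 : 1 ≤ E := Nat.le_floor (by
    push_cast
    exact one_le_pow₀ hC1)
  have hE1' : (1 : ℝ) ≤ E := by exact_mod_cast hE1
  let C2 : ℝ := (E : ℝ) ^ (2 * k)
  have hC2 : 0 < C2 := by positivity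
  let C3 : ℝ := (E : ℝ) ^ k * (1 + Mr) * (C1 ^ 2) ^ k
  have hC3 : 1 ≤ C3 := by
    have a1 : (1 : ℝ) ≤ (E : ℝ) ^ k := one_le_pow₀ hE1'
    have a2 : (1 : ℝ) ≤ (C1 ^ 2) ^ k := one_le_pow₀ (one_le_pow₀ hC1)
    have a3 : (1 : ℝ) ≤ (E : ℝ) ^ k * (1 + Mr) := by nlinarith
    nlinarith
  refine ⟨E, C1, C2, C3, L, hE1, hC1, hC2, hC3, hL0, ?_⟩
  intro Y u v c z hY hcop hu hv hc hz hzc hG
  obtain ⟨I, J, hI', hJ, hIJ⟩ := Pool.Agent.W762.CF.t_IDEAL K ρ A B i hC hI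
    (Pool.Agent.W721.CF.t_NRM K ρ A B hC) u v c z k hcop hc hz hk hzc hG
  have hJ0 : J ≠ ⊥ := by
    rintro rfl
    rw [Ideal.absNorm_bot] at hJ
    omega
  obtain ⟨δ, hδ, hδ0, hδσ⟩ := hmink J hJ0
  rw [hJ, hd] at hδσ
  obtain ⟨e, τ, he, hNδ, hτ, hτ0, hNτ, hrel⟩ := alg hd hc I J hI' hJ hIJ δ hδ hδ0
  obtain ⟨he3, hlow⟩ := size hd hC1 hz he δ hNδ (by exact_mod_cast hδσ)
  have heE : e ≤ E := Nat.le_floor he3
  have heE' : (e : ℝ) ≤ E := by exact_mod_cast heE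
  have he' : (1 : ℝ) ≤ e := by exact_mod_cast he
  have hrelK : (e : K) ^ k * ((u : K) - v * (ρ : K)) = (δ : K) ^ k * (τ : K) := by
    have := congrArg (fun x : 𝓞 K => (x : K)) hrel
    simpa using this
  refine ⟨I, e, τ, δ, hI', he, heE, hτ, hτ0, ?_, ?_, ?_, hδ0, hrelK, by exact_mod_cast hδσ⟩
  · rw [hNτ, hI']
    push_cast
    exact mul_le_mul_of_nonneg_right (pow_le_pow_left₀ (by positivity) heE' _) (by positivity)
  · intro σ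
    have g1 := congrArg (fun x => ‖σ x‖) hrelK
    simp only [map_mul, map_pow, norm_mul, norm_pow, map_natCast, Complex.norm_natCast] at g1
    have g2 : ‖σ ((u : K) - v * (ρ : K))‖ ≤ (1 + Mr) * Y := by
      rw [map_sub, map_mul, map_intCast, map_intCast]
      refine (norm_sub_le _ _).trans ?_
      rw [norm_mul, Complex.norm_intCast, Complex.norm_intCast]
      have := mul_le_mul hv (hMr σ) (norm_nonneg _) (by linarith)
      nlinarith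
    have g3 : (1 : ℝ) ≤ (C1 ^ 2) ^ k * ‖σ (δ : K)‖ ^ k := by
      rw [← mul_pow]
      exact one_le_pow₀ (hlow σ)
    calc ‖σ (τ : K)‖ ≤ ‖σ (τ : K)‖ * ((C1 ^ 2) ^ k * ‖σ (δ : K)‖ ^ k) :=
          le_mul_of_one_le_right (norm_nonneg _) g3
      _ = (C1 ^ 2) ^ k * (‖σ (δ : K)‖ ^ k * ‖σ (τ : K)‖) := by ring
      _ = (C1 ^ 2) ^ k * ((e : ℝ) ^ k * ‖σ ((u : K) - v * (ρ : K))‖) := by rw [g1]
      _ ≤ (C1 ^ 2) ^ k * ((E : ℝ) ^ k * ((1 + Mr) * Y)) := by gcongr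
      _ = C3 * Y := by
        simp only [C3]
        ring
  · rw [mul_comm, ← hrelK]
    have : (e : K) ^ k * ((u : K) - v * (ρ : K)) = ((e : ℚ) ^ k) • ((u : K) - v * (ρ : K)) := by
      rw [Algebra.smul_def]
      push_cast
      simp
    rw [this, map_smul, hL, smul_zero]

/-- pairs such that the value is a given number times a `k`-th power, in one half plane -/
theorem b2_half (K : Type) [Field K] [NumberField K] (ρ : 𝓞 K) (A B : ℤ) (i : ℕ)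
    (hC : Cub K ρ A B) (hI : Idx K ρ i) (k : ℕ) (hk : 2 ≤ k) (ε : ℝ) (hε : 0 < ε) :
    ∃ C : ℝ, 0 < C ∧ ∀ Y Z : ℝ, 1 ≤ Y → 1 ≤ Z → ∀ c : ℕ, 1 ≤ c → ∀ s : Finset (ℤ × ℤ),
      (∀ p ∈ s, ∀ p' ∈ s, Hf p ↔ Hf p') →
      (∀ p ∈ s, IsCoprime p.1 p.2 ∧ |(p.1 : ℝ)| ≤ Y ∧ |(p.2 : ℝ)| ≤ Y ∧
        ∃ z : ℕ, 1 ≤ z ∧ (z : ℝ) ≤ Z ∧ Nat.Coprime z (i * c) ∧
          (G A B p.1 p.2).natAbs = c * z ^ k) →
      (s.card : ℝ) ≤ C * (Y * c) ^ ε * Z ^ ((1 : ℝ) / 2) := by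
  classical
  have hd : Module.finrank ℚ K = 3 := hC.1
  obtain ⟨E, C1, C2, C3, L, hE1, hC1, hC2, hC3, hL0, hcore⟩ := corek K ρ A B i hC hI k (by omega)
  have hE1' : (1 : ℝ) ≤ E := by exact_mod_cast hE1
  obtain ⟨D1, hD1, hdivs⟩ := Pool.Agent.W578.CF.t_DIVS K ε hε
  obtain ⟨D2, hD2, htau⟩ := Pool.Agent.W230.CF.t_TAU K C2 ε hC2 hε
  obtain ⟨D4, hD4, hsz⟩ := sz2 K hd k hk
  refine ⟨D1 * (E * (D2 * C3 ^ ε * (D4 * C1 ^ ((3 : ℝ) / 2)))), by positivity, ?_⟩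
  intro Y Z hY hZ c hc s hhalf hs
  have core : ∀ p : ℤ × ℤ, p ∈ s → ∃ (I : Ideal (𝓞 K)) (e : ℕ) (τ δ : 𝓞 K),
      Ideal.absNorm I = c ∧ 1 ≤ e ∧ e ≤ E ∧ τ ∈ I ∧ τ ≠ 0 ∧
      ((Algebra.norm ℤ τ).natAbs : ℝ) ≤ C2 * (Ideal.absNorm I : ℝ) ∧
      (∀ σ : K →+* ℂ, ‖σ (τ : K)‖ ≤ C3 * Y) ∧
      (∀ σ : K →+* ℂ, ‖σ (δ : K)‖ ≤ C1 * Z ^ ((1 : ℝ) / 3)) ∧ L ((τ : K) * (δ : K) ^ k) = 0 ∧
      (e : K) ^ k * ((p.1 : K) - p.2 * (ρ : K)) = (δ : K) ^ k * (τ : K) ∧ δ ≠ 0 := by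
    rintro ⟨u, v⟩ hp
    obtain ⟨hcop, hu, hv, z, hz, hzZ, hzc, hG⟩ := hs _ hp
    obtain ⟨I, e, τ, δ, h1, h2, h3, h4, h5, h6, h7, h8, h9, h10, h11⟩ :=
      hcore Y u v c z hY hcop hu hv hc hz hzc hG
    refine ⟨I, e, τ, δ, h1, h2, h3, h4, h5, h6, h7, fun σ => (h11 σ).trans ?_, h8, h10, h9⟩
    have : (z : ℝ) ^ ((1 : ℝ) / 3) ≤ Z ^ ((1 : ℝ) / 3) :=
      Real.rpow_le_rpow (by positivity) hzZ (by norm_num)
    have h0 : 0 ≤ C1 := by linarith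
    exact mul_le_mul_of_nonneg_left this h0
  choose! I e τ δ hcore using core
  have hinj : ∀ p ∈ s, ∀ p' ∈ s, e p = e p' → τ p = τ p' →
      (∃ q : ℚ, (δ p' : K) = q • (δ p : K)) → p = p' := by
    intro p hp p' hp' he hτ hδ
    obtain ⟨q, hq⟩ := hδ
    have a1 := (hcore _ hp).2.2.2.2.2.2.2.2.2.1
    have a2 := (hcore _ hp').2.2.2.2.2.2.2.2.2.1
    rw [← he, ← hτ, hq] at a2
    have h0 : ((e p : ℕ) : K) ^ k ≠ 0 := by
      have := (hcore _ hp).2.1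
      exact pow_ne_zero _ (by exact_mod_cast (by omega : e p ≠ 0))
    apply pair_eq hC.2.1 (hs p hp).1 (hs p' hp').1 (q ^ k) _ (hhalf p hp p' hp')
    apply mul_left_cancel₀ h0
    rw [a2, mul_smul_comm, a1, smul_pow, smul_mul_assoc]
  have hT : 1 ≤ C3 * Y := by nlinarith
  have hB : 1 ≤ C1 * Z ^ ((1 : ℝ) / 3) := by
    have := Real.one_le_rpow hZ (by norm_num : (0 : ℝ) ≤ 1 / 3)
    nlinarith
  have hb4 : 0 ≤ D4 * (C1 * Z ^ ((1 : ℝ) / 3)) ^ ((3 : ℝ) / 2) := by positivity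
  have hb3 : 0 ≤ D2 * (C3 * Y) ^ ε * (D4 * (C1 * Z ^ ((1 : ℝ) / 3)) ^ ((3 : ℝ) / 2)) := by
    positivity
  have hb2 : 0 ≤ (E : ℝ) *
      (D2 * (C3 * Y) ^ ε * (D4 * (C1 * Z ^ ((1 : ℝ) / 3)) ^ ((3 : ℝ) / 2))) := by
    positivity
  have key : (s.card : ℝ) ≤ D1 * (c : ℝ) ^ ε *
      ((E : ℝ) * (D2 * (C3 * Y) ^ ε * (D4 * (C1 * Z ^ ((1 : ℝ) / 3)) ^ ((3 : ℝ) / 2)))) := by
    apply card_le_real I s _ _ hb2
    · intro J hJ
      obtain ⟨p0, hp0, rfl⟩ := Finset.mem_image.1 hJ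
      apply card_le_real e _ _ _ hb3
      · intro e0 _
        apply card_le_real τ _ _ _ hb4
        · intro τ0 hτ0
          obtain ⟨p1, hp1, rfl⟩ := Finset.mem_image.1 hτ0
          have hp1s : p1 ∈ s := (Finset.mem_filter.1 (Finset.mem_filter.1 hp1).1).1
          set s3 := {x ∈ {x ∈ {x ∈ s | I x = I p0} | e x = e0} | τ x = τ p1} with hs3
          have hmem : ∀ p ∈ s3, p ∈ s ∧ e p = e0 ∧ τ p = τ p1 := by
            intro p hp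
            simp only [hs3, Finset.mem_filter] at hp
            exact ⟨hp.1.1.1, hp.1.2, hp.2⟩
          have hcard : (s3.image δ).card = s3.card := by
            apply Finset.card_image_of_injOn
            intro p hp p' hp' hδ
            obtain ⟨b1, b2, b3⟩ := hmem p hp
            obtain ⟨b1', b2', b3'⟩ := hmem p' hp'
            apply hinj p b1 p' b1' (b2.trans b2'.symm) (b3.trans b3'.symm)
            exact ⟨1, by rw [one_smul, hδ]⟩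
          rw [← hcard]
          have hτ1 : ((τ p1 : 𝓞 K) : K) ≠ 0 := by
            have := (hcore _ hp1s).2.2.2.2.1
            exact_mod_cast this
          refine hsz L (τ p1 : K) hL0 hτ1 (C1 * Z ^ ((1 : ℝ) / 3)) hB (s3.image δ) ?_ ?_
          · intro δ0 hδ0
            obtain ⟨p, hp, rfl⟩ := Finset.mem_image.1 hδ0
            obtain ⟨b1, b2, b3⟩ := hmem p hp
            have := hcore p b1
            rw [← b3]
            exact ⟨this.2.2.2.2.2.2.2.2.2.2, this.2.2.2.2.2.2.2.2.1, this.2.2.2.2.2.2.2.1⟩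
          · intro δ0 hδ0 δ1 hδ1 hq
            obtain ⟨p, hp, rfl⟩ := Finset.mem_image.1 hδ0
            obtain ⟨p', hp', rfl⟩ := Finset.mem_image.1 hδ1
            obtain ⟨b1, b2, b3⟩ := hmem p hp
            obtain ⟨b1', b2', b3'⟩ := hmem p' hp'
            rw [hinj p b1 p' b1' (b2.trans b2'.symm) (b3.trans b3'.symm) hq]
        · have hc0 := (hcore _ hp0).1
          apply htau (I p0) ?_ (C3 * Y) hT
          · intro τ0 hτ0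
            obtain ⟨p, hp, rfl⟩ := Finset.mem_image.1 hτ0
            simp only [Finset.mem_filter] at hp
            have := hcore p hp.1.1
            rw [← hp.1.2]
            exact ⟨this.2.2.2.1, this.2.2.2.2.1, this.2.2.2.2.2.1, this.2.2.2.2.2.2.1⟩
          · intro h0
            rw [h0, Ideal.absNorm_bot] at hc0
            omega
      · have hsub : ({x ∈ s | I x = I p0}.image e) ⊆ Finset.Icc 1 E := by
          intro e0 he0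
          obtain ⟨p, hp, rfl⟩ := Finset.mem_image.1 he0
          have := hcore p (Finset.mem_filter.1 hp).1
          exact Finset.mem_Icc.2 ⟨this.2.1, this.2.2.1⟩
        have := Finset.card_le_card hsub
        rw [Nat.card_Icc, Nat.add_sub_cancel] at this
        exact_mod_cast this
    · apply hdivs c hc
      intro J hJ
      obtain ⟨p, hp, rfl⟩ := Finset.mem_image.1 hJ
      rw [Ideal.dvd_span_singleton, ← (hcore p hp).1]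
      exact Ideal.absNorm_mem _
  refine key.trans (le_of_eq ?_)
  have hc0 : (0 : ℝ) ≤ c := by positivity
  have hY0 : 0 ≤ Y := by linarith
  have e1 : (Y * (c : ℝ)) ^ ε = Y ^ ε * (c : ℝ) ^ ε := Real.mul_rpow hY0 hc0
  have e2 : (C3 * Y) ^ ε = C3 ^ ε * Y ^ ε := Real.mul_rpow (by linarith) hY0
  have e3 : (C1 * Z ^ ((1 : ℝ) / 3)) ^ ((3 : ℝ) / 2) = C1 ^ ((3 : ℝ) / 2) * Z ^ ((1 : ℝ) / 2) := by
    rw [Real.mul_rpow (by linarith) (by positivity), ← Real.rpow_mul (by linarith)]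
    norm_num
  rw [e1, e2, e3]
  ring

/-- **Pairs such that the value is a given number times a `k`-th power, `k ≥ 2`.** -/
theorem b2 (K : Type) [Field K] [NumberField K] (ρ : 𝓞 K) (A B : ℤ) (i : ℕ)
    (hC : Cub K ρ A B) (hI : Idx K ρ i) (k : ℕ) (hk : 2 ≤ k) (ε : ℝ) (hε : 0 < ε) :
    ∃ C : ℝ, 0 < C ∧ ∀ Y Z : ℝ, 1 ≤ Y → 1 ≤ Z → ∀ c : ℕ, 1 ≤ c → ∀ s : Finset (ℤ × ℤ),
      (∀ p ∈ s, IsCoprime p.1 p.2 ∧ |(p.1 : ℝ)| ≤ Y ∧ |(p.2 : ℝ)| ≤ Y ∧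
        ∃ z : ℕ, 1 ≤ z ∧ (z : ℝ) ≤ Z ∧ Nat.Coprime z (i * c) ∧
          (G A B p.1 p.2).natAbs = c * z ^ k) →
      (s.card : ℝ) ≤ C * (Y * c) ^ ε * Z ^ ((1 : ℝ) / 2) := by
  classical
  obtain ⟨C, hC0, h⟩ := b2_half K ρ A B i hC hI k hk ε hε
  refine ⟨2 * C, by positivity, fun Y Z hY hZ c hc s hs => ?_⟩
  have h1 := h Y Z hY hZ c hc (s.filter Hf) (fun p hp p' hp' => by
    rw [mem_filter] at hp hp'
    exact ⟨fun _ => hp'.2, fun _ => hp.2⟩) (fun p hp => hs p (mem_filter.mp hp).1)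
  have h2 := h Y Z hY hZ c hc (s.filter (fun p => ¬ Hf p)) (fun p hp p' hp' => by
    rw [mem_filter] at hp hp'
    exact ⟨fun h => absurd h hp.2, fun h => absurd h hp'.2⟩) (fun p hp => hs p (mem_filter.mp hp).1)
  have h3 : (s.card : ℝ) = (s.filter Hf).card + (s.filter (fun p => ¬ Hf p)).card := by
    exact_mod_cast (card_filter_add_card_filter_not (s := s) Hf).symm
  rw [h3]
  linarith

end Pool.Agent.H460.CF
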