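import Pool.Graph.R_seed8.W4.CF.All
import Pool.Agent.H460.ST.Proj

/-!
# Coordinates, proportionality and the number of ideals with a small radical
-/

set_option autoImplicit false

namespace Pool.Agent.H460.CF

open NumberField Finset Pool.Agent.W4.CF Pool.Agent.H460.ST

variable {K : Type} [Field K] [NumberField K]

theorem coord3 (hd : Module.finrank ℚ K = 3) :
    ∃ (b : Module.Basis (Fin 3) ℤ (𝓞 K)) (c : ℝ), 0 ≤ c ∧
      ∀ (α : 𝓞 K) (B : ℝ), (∀ σ : K →+* ℂ, ‖σ (α : K)‖ ≤ B) →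
        ∀ i, |((b.repr α i : ℤ) : ℝ)| ≤ c * B := by
  obtain ⟨d, hdd, b, c, hc, h⟩ := Pool.Agent.W347.CF.coord K
  have : d = 3 := by rw [hdd, hd]
  subst this
  exact ⟨b, c, hc, h⟩

/-- the coordinates of an integer -/
noncomputable def xv (b : Module.Basis (Fin 3) ℤ (𝓞 K)) (δ : 𝓞 K) : ℚ × ℚ × ℚ :=
  ((b.repr δ 0 : ℚ), (b.repr δ 1 : ℚ), (b.repr δ 2 : ℚ))

/-- the coordinates of the functional `x ↦ L (τ x)` -/
noncomputable def yv (b : Module.Basis (Fin 3) ℤ (𝓞 K)) (L : K →ₗ[ℚ] ℚ) (τ : K) : ℚ × ℚ × ℚ :=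
  (L (τ * ((b 0 : 𝓞 K) : K)), L (τ * ((b 1 : 𝓞 K) : K)), L (τ * ((b 2 : 𝓞 K) : K)))

theorem repr_sum (b : Module.Basis (Fin 3) ℤ (𝓞 K)) (δ : 𝓞 K) :
    (δ : K) = (b.repr δ 0 : ℚ) • ((b 0 : 𝓞 K) : K) + (b.repr δ 1 : ℚ) • ((b 1 : 𝓞 K) : K) +
      (b.repr δ 2 : ℚ) • ((b 2 : 𝓞 K) : K) := by
  conv_lhs => rw [← b.sum_repr δ]
  rw [Fin.sum_univ_three, RingOfIntegers.coe_eq_algebraMap, map_add, map_add]
  rw [zsmul_eq_mul, zsmul_eq_mul, zsmul_eq_mul]
  simp only [map_mul, map_intCast, Algebra.smul_def]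

theorem dt_xy (b : Module.Basis (Fin 3) ℤ (𝓞 K)) (L : K →ₗ[ℚ] ℚ) (τ : K) (δ : 𝓞 K) :
    dt (xv b δ) (yv b L τ) = L (τ * (δ : K)) := by
  rw [repr_sum b δ, mul_add, mul_add, map_add, map_add]
  simp only [mul_smul_comm, map_smul, smul_eq_mul]
  unfold dt xv yv
  ring

theorem xv_ne (b : Module.Basis (Fin 3) ℤ (𝓞 K)) {δ : 𝓞 K} (h : δ ≠ 0) : xv b δ ≠ 0 := by
  intro h0
  unfold xv at h0
  simp only [Prod.mk_eq_zero] at h0
  apply h
  have := repr_sum b δ
  rw [h0.1, h0.2.1, h0.2.2] at this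
  simp only [zero_smul, add_zero] at this
  exact_mod_cast this

theorem par_exists {y y' : ℚ × ℚ × ℚ} (h : Par y y') (hy : y ≠ 0) :
    ∃ q : ℚ, y' = (q * y.1, q * y.2.1, q * y.2.2) := by
  obtain ⟨h1, h2, h3⟩ := h
  by_cases a1 : y.1 = 0
  · by_cases a2 : y.2.1 = 0
    · have a3 : y.2.2 ≠ 0 := fun a3 => hy (Prod.ext a1 (Prod.ext a2 a3))
      refine ⟨y'.2.2 / y.2.2, ?_⟩
      have e1 : y'.1 = 0 := by
        have : y.2.2 * y'.1 = 0 := by rw [a1] at h2; linear_combination -h2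
        exact (mul_eq_zero.mp this).resolve_left a3
      have e2 : y'.2.1 = 0 := by
        have : y.2.2 * y'.2.1 = 0 := by rw [a2] at h3; linear_combination -h3
        exact (mul_eq_zero.mp this).resolve_left a3
      apply Prod.ext
      · rw [e1, a1]; ring
      · apply Prod.ext
        · simp only; rw [e2, a2]; ring
        · simp only; field_simp
    · refine ⟨y'.2.1 / y.2.1, ?_⟩
      apply Prod.ext
      · simp only
        field_simp
        linear_combination -h1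
      · apply Prod.ext
        · simp only; field_simp
        · simp only
          field_simp
          linear_combination h3
  · refine ⟨y'.1 / y.1, ?_⟩
    apply Prod.ext
    · simp only; field_simp
    · apply Prod.ext
      · simp only
        field_simp
        linear_combination h1
      · simp only
        field_simp
        linear_combination h2

theorem xv_par (b : Module.Basis (Fin 3) ℤ (𝓞 K)) {δ δ' : 𝓞 K} (h : δ ≠ 0)
    (hp : Par (xv b δ) (xv b δ')) : ∃ q : ℚ, (δ' : K) = q • (δ : K) := by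
  obtain ⟨q, hq⟩ := par_exists hp (xv_ne b h)
  refine ⟨q, ?_⟩
  unfold xv at hq
  simp only [Prod.mk.injEq] at hq
  rw [repr_sum b δ', repr_sum b δ, hq.1, hq.2.1, hq.2.2, smul_add, smul_add, smul_smul, smul_smul,
    smul_smul]

/-- a functional that kills `τ b_j` for all `j` is zero -/
theorem kill (L : K →ₗ[ℚ] ℚ) {τ : K} (hτ : τ ≠ 0)
    (h : ∀ δ : 𝓞 K, L (τ * (δ : K)) = 0) : L = 0 := by
  have hα : ∀ α : K, L (τ * α) = 0 := by
    intro α
    obtain ⟨m, hm, β, hβ⟩ : ∃ m : ℤ, m ≠ 0 ∧ ∃ β : 𝓞 K, (m : K) * α = β := by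
      obtain ⟨⟨β, ⟨m, hm⟩⟩, h⟩ :=
        IsLocalization.surj (Algebra.algebraMapSubmonoid (𝓞 K) (nonZeroDivisors ℤ)) α
      obtain ⟨n, hn, rfl⟩ := hm
      refine ⟨n, nonZeroDivisors.ne_zero hn, β, ?_⟩
      rw [mul_comm]
      simpa using h
    have h1 := h β
    have h2 : τ * (β : K) = (m : ℚ) • (τ * α) := by
      rw [← hβ, Algebra.smul_def]
      simp only [map_intCast]
      ring
    rw [h2, map_smul, smul_eq_mul] at h1
    exact (mul_eq_zero.mp h1).resolve_left (by exact_mod_cast hm)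
  apply LinearMap.ext
  intro γ
  have := hα (τ⁻¹ * γ)
  rwa [← mul_assoc, mul_inv_cancel₀ hτ, one_mul] at this

theorem yv_ne (b : Module.Basis (Fin 3) ℤ (𝓞 K)) (L : K →ₗ[ℚ] ℚ) (hL : L ≠ 0) {τ : K}
    (h : τ ≠ 0) : yv b L τ ≠ 0 := by
  intro h0
  apply hL
  apply kill L h
  intro δ
  rw [← dt_xy b, h0]
  unfold dt
  simp

theorem yv_par (b : Module.Basis (Fin 3) ℤ (𝓞 K)) (L : K →ₗ[ℚ] ℚ) (hL : L ≠ 0) {τ τ' : K}
    (h : τ ≠ 0) (hp : Par (yv b L τ) (yv b L τ')) : ∃ q : ℚ, τ' = q • τ := by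
  obtain ⟨q, hq⟩ := par_exists hp (yv_ne b L hL h)
  refine ⟨q, ?_⟩
  by_contra hne
  apply hL
  apply kill L (sub_ne_zero.mpr hne)
  intro δ
  have h1 := dt_xy b L τ' δ
  have h2 := dt_xy b L τ δ
  rw [hq] at h1
  rw [sub_mul, map_sub, ← h1, smul_mul_assoc, map_smul, ← h2, smul_eq_mul]
  unfold dt
  ring

/-- one of the two half planes -/
def Hf (p : ℤ × ℤ) : Prop := 0 < p.2 ∨ (p.2 = 0 ∧ 0 < p.1)

theorem prim_eq {p p' : ℤ × ℤ} (h : IsCoprime p.1 p.2) (h' : IsCoprime p'.1 p'.2) (q : ℚ)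
    (h1 : (p'.1 : ℚ) = q * p.1) (h2 : (p'.2 : ℚ) = q * p.2) (hh : Hf p ↔ Hf p') : p = p' := by
  obtain ⟨a, b, hab⟩ := h
  obtain ⟨a', b', hab'⟩ := h'
  set m : ℤ := a * p'.1 + b * p'.2 with hm
  have hq : q = m := by
    have : (a : ℚ) * p.1 + b * p.2 = 1 := by exact_mod_cast hab
    rw [hm]
    push_cast
    rw [h1, h2]
    linear_combination -q * this
  have e1 : p'.1 = m * p.1 := by rw [hq] at h1; exact_mod_cast h1
  have e2 : p'.2 = m * p.2 := by rw [hq] at h2; exact_mod_cast h2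
  have hu : m ∣ 1 := by
    rw [e1, e2] at hab'
    exact ⟨a' * p.1 + b' * p.2, by linear_combination -hab'⟩
  rcases Int.isUnit_iff.mp (isUnit_of_dvd_one hu) with h3 | h3
  · rw [h3, one_mul] at e1 e2
    exact Prod.ext e1.symm e2.symm
  · rw [h3] at e1 e2
    exfalso
    unfold Hf at hh
    rw [e1, e2] at hh
    rcases lt_trichotomy p.2 0 with h4 | h4 | h4
    · have := hh.mpr (Or.inl (by omega))
      omega
    · rcases lt_trichotomy p.1 0 with h5 | h5 | h5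
      · have := hh.mpr (Or.inr ⟨by omega, by omega⟩)
        omega
      · rw [h4, h5] at hab
        simp at hab
      · have := hh.mp (Or.inr ⟨h4, h5⟩)
        omega
    · have := hh.mp (Or.inl h4)
      omega

/-- the pair is determined by the number up to a rational factor -/
theorem pair_eq {ρ : 𝓞 K} (hρ : ∀ r : ℚ, (ρ : K) ≠ algebraMap ℚ K r) {p p' : ℤ × ℤ}
    (h : IsCoprime p.1 p.2) (h' : IsCoprime p'.1 p'.2) (q : ℚ)
    (h1 : (p'.1 : K) - p'.2 * (ρ : K) = q • ((p.1 : K) - p.2 * (ρ : K))) (hh : Hf p ↔ Hf p') :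
    p = p' := by
  rw [Algebra.smul_def] at h1
  have h2 : (p'.2 : ℚ) = q * p.2 := by
    by_contra hne
    have hne' : ((p'.2 : ℚ) - q * p.2) ≠ 0 := sub_ne_zero.mpr hne
    apply hρ (((p'.1 : ℚ) - q * p.1) / ((p'.2 : ℚ) - q * p.2))
    have hne2 : algebraMap ℚ K ((p'.2 : ℚ) - q * p.2) ≠ 0 := by
      rw [Ne, map_eq_zero]; exact hne'
    rw [map_div₀, eq_div_iff hne2]
    simp only [map_sub, map_mul, map_intCast]
    linear_combination -h1
  have h3 : (p'.1 : ℚ) = q * p.1 := by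
    have h4 : (p'.2 : K) = algebraMap ℚ K q * p.2 := by
      have := congrArg (algebraMap ℚ K) h2
      simpa using this
    have h5 : (p'.1 : K) = algebraMap ℚ K q * p.1 := by
      linear_combination h1 + (ρ : K) * h4
    have h6 : algebraMap ℚ K (p'.1 : ℚ) = algebraMap ℚ K (q * p.1) := by
      rw [map_mul, map_intCast, map_intCast]; exact h5
    exact (algebraMap ℚ K).injective h6
  exact prim_eq h h' q h3 h2 hh

/-- the number of ideals of bounded norm with a small radical -/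
theorem idl (K : Type) [Field K] [NumberField K] (ε : ℝ) (hε : 0 < ε) : ∃ C : ℝ, 0 < C ∧
    ∀ (m N : ℕ) (R : ℝ), 1 ≤ m → 1 ≤ N → 0 ≤ R → ∀ t : Finset (Ideal (𝓞 K)),
      (∀ J ∈ t, 1 ≤ Ideal.absNorm J ∧ Ideal.absNorm J ≤ N ∧ (radp m (Ideal.absNorm J) : ℝ) ≤ R) →
      (t.card : ℝ) ≤ C * ((m : ℝ) * N) ^ ε * R := by
  classical
  obtain ⟨D1, hD1, h1⟩ := Pool.Agent.W578.CF.t_DIVS K (ε / 2) (by linarith)
  obtain ⟨D2, hD2, h2⟩ := Pool.W335.CF.t_RAD (ε / 2) (by linarith)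
  refine ⟨D1 * D2, by positivity, fun m N R hm hN hR t ht => ?_⟩
  have hm' : (1 : ℝ) ≤ m := by exact_mod_cast hm
  have hN' : (1 : ℝ) ≤ N := by exact_mod_cast hN
  have hfib : ∀ n ∈ t.image Ideal.absNorm,
      ((t.filter (fun J => Ideal.absNorm J = n)).card : ℝ) ≤
        D1 * (N : ℝ) ^ (ε / 2) * (R * (1 / (radp m n : ℝ))) := by
    intro n hn
    obtain ⟨J, hJ, rfl⟩ := mem_image.mp hn
    obtain ⟨a1, a2, a3⟩ := ht J hJ
    have hr : (1 : ℝ) ≤ radp m (Ideal.absNorm J) := by exact_mod_cast radp_pos _ _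
    have h3 := h1 (Ideal.absNorm J) a1 (t.filter (fun J' => Ideal.absNorm J' = Ideal.absNorm J))
      (fun J' hJ' => by
        rw [mem_filter] at hJ'
        rw [Ideal.dvd_span_singleton, ← hJ'.2]
        exact Ideal.absNorm_mem _)
    have h4 : (1 : ℝ) ≤ R * (1 / (radp m (Ideal.absNorm J) : ℝ)) := by
      rw [mul_one_div, le_div_iff₀ (by linarith), one_mul]
      exact a3
    have h5 : ((Ideal.absNorm J : ℕ) : ℝ) ≤ N := by exact_mod_cast a2
    calc _ ≤ D1 * ((Ideal.absNorm J : ℕ) : ℝ) ^ (ε / 2) := h3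
      _ ≤ D1 * (N : ℝ) ^ (ε / 2) := by gcongr
      _ ≤ _ := le_mul_of_one_le_right (by positivity) h4
  have hsub : t.image Ideal.absNorm ⊆ Icc 1 N := by
    intro n hn
    obtain ⟨J, hJ, rfl⟩ := mem_image.mp hn
    obtain ⟨a1, a2, a3⟩ := ht J hJ
    exact mem_Icc.mpr ⟨a1, a2⟩
  have hcard : (t.card : ℝ) = ∑ n ∈ t.image Ideal.absNorm,
      ((t.filter (fun J => Ideal.absNorm J = n)).card : ℝ) := by
    rw [Finset.card_eq_sum_card_image Ideal.absNorm t]
    push_cast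
    rfl
  rw [hcard]
  calc ∑ n ∈ t.image Ideal.absNorm, ((t.filter (fun J => Ideal.absNorm J = n)).card : ℝ)
      ≤ ∑ n ∈ t.image Ideal.absNorm, D1 * (N : ℝ) ^ (ε / 2) * (R * (1 / (radp m n : ℝ))) :=
        sum_le_sum hfib
    _ ≤ ∑ n ∈ Icc 1 N, D1 * (N : ℝ) ^ (ε / 2) * (R * (1 / (radp m n : ℝ))) := by
        apply sum_le_sum_of_subset_of_nonneg hsub
        intro n _ _
        positivity
    _ = D1 * (N : ℝ) ^ (ε / 2) * R * ∑ n ∈ Icc 1 N, (1 : ℝ) / (radp m n : ℝ) := by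
        rw [mul_sum]
        refine sum_congr rfl fun n _ => ?_
        ring
    _ ≤ D1 * (N : ℝ) ^ (ε / 2) * R * (D2 * ((m : ℝ) * N) ^ (ε / 2)) := by
        have := h2 m N hm hN
        gcongr
    _ ≤ D1 * ((m : ℝ) * N) ^ (ε / 2) * R * (D2 * ((m : ℝ) * N) ^ (ε / 2)) := by
        have : (N : ℝ) ≤ m * N := le_mul_of_one_le_left (by linarith) hm'
        gcongr
    _ = D1 * D2 * (((m : ℝ) * N) ^ (ε / 2) * ((m : ℝ) * N) ^ (ε / 2)) * R := by ring
    _ = _ := by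
        rw [← Real.rpow_add (by positivity)]
        congr 3
        ring

end Pool.Agent.H460.CF
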