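import Pool.Agent.H460.CF.Lower

/-!
# Curves with a given cubic 2-division field, counted by conductor: the lower bound, assembly
-/

set_option autoImplicit false

namespace Pool.Agent.H460.CF

open NumberField Finset Pool.Agent.W4.CF Module

theorem indep3 {K : Type} [Field K] [NumberField K] (hd : finrank ℚ K = 3) (w : K)
    (hw : ∀ r : ℚ, w ≠ algebraMap ℚ K r) (x y z : ℚ)
    (h : x • (1 : K) + y • w + z • w ^ 2 = 0) : x = 0 ∧ y = 0 ∧ z = 0 := by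
  have hint : IsIntegral ℚ w := Algebra.IsIntegral.isIntegral w
  have hdeg : (minpoly ℚ w).natDegree = 3 := by
    have h3 : finrank ℚ (IntermediateField.adjoin ℚ {w}) = (minpoly ℚ w).natDegree :=
      IntermediateField.adjoin.finrank hint
    have h4 := Module.finrank_mul_finrank ℚ (IntermediateField.adjoin ℚ {w}) K
    rw [hd, h3] at h4
    have h5 : (minpoly ℚ w).natDegree ∣ 3 := ⟨_, h4.symm⟩
    rcases (Nat.dvd_prime Nat.prime_three).mp h5 with h6 | h6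
    · exfalso
      have h7 : w ∈ (algebraMap ℚ K).range := minpoly.natDegree_eq_one_iff.mp h6
      obtain ⟨r, hr⟩ := h7
      exact hw r hr.symm
    · exact h6
  set p : Polynomial ℚ := Polynomial.C x + Polynomial.C y * Polynomial.X +
    Polynomial.C z * Polynomial.X ^ 2 with hp
  have hev : Polynomial.aeval w p = 0 := by
    rw [hp]
    simp only [map_add, map_mul, Polynomial.aeval_C, Polynomial.aeval_X, map_pow]
    rw [Algebra.smul_def, Algebra.smul_def, Algebra.smul_def, mul_one] at h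
    exact h
  have hp0 : p = 0 := by
    by_contra hne
    have h1 := minpoly.degree_le_of_ne_zero ℚ w hne hev
    have h2 : p.degree ≤ 2 := by
      rw [hp]
      refine (Polynomial.degree_add_le _ _).trans (max_le ((Polynomial.degree_add_le _ _).trans
        (max_le ?_ ?_)) ?_)
      · exact Polynomial.degree_C_le.trans (by norm_num)
      · exact (Polynomial.degree_C_mul_X_le _).trans (by norm_num)
      · exact Polynomial.degree_C_mul_X_pow_le _ _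
    have h3 := h1.trans h2
    rw [Polynomial.degree_eq_natDegree (minpoly.ne_zero hint), hdeg] at h3
    exact absurd h3 (by norm_num)
  have c0 : p.coeff 0 = x := by simp [hp, Polynomial.coeff_X_pow, Polynomial.coeff_X]
  have c1 : p.coeff 1 = y := by simp [hp, Polynomial.coeff_X_pow, Polynomial.coeff_C]
  have c2 : p.coeff 2 = z := by
    simp [hp, Polynomial.coeff_C, Polynomial.coeff_X]
  rw [hp0, Polynomial.coeff_zero] at c0 c1 c2
  exact ⟨c0.symm, c1.symm, c2.symm⟩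

/-- **Curves with a given cubic 2-division field, counted by conductor: the lower bound.** -/
theorem lower (K : Type) [Field K] [NumberField K] (hd : finrank ℚ K = 3) :
    ∃ c C1 Z0 : ℝ, 0 < c ∧ 0 < C1 ∧ 0 < Z0 ∧ ∀ (Z : ℝ) (X : ℕ), Z0 ≤ Z →
      C1 * Z ^ ((1 : ℝ) / 3) ≤ X → c * Z ^ ((2 : ℝ) / 3) ≤ ((Cnt K Z X).ncard : ℝ) := by
  classical
  obtain ⟨a0, b0, θ0, hθ, h0⟩ := exists_theta K hd
  obtain ⟨ρ, hρ⟩ := rho K hd a0 b0 θ0 hθ h0
  obtain ⟨hD, -⟩ := hP K hd a0 b0 θ0 hθ h0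
  set D : ℤ := 4 * a0 ^ 3 - 27 * b0 ^ 2 with hDdef
  set G0 : ℝ := 1 + |((9 * a0 : ℤ) : ℝ)| + |((27 * b0 : ℤ) : ℝ)| with hG0
  have hG01 : 1 ≤ G0 := by
    have := abs_nonneg ((9 * a0 : ℤ) : ℝ)
    have := abs_nonneg ((27 * b0 : ℤ) : ℝ)
    rw [hG0]; linarith
  have hDn : (1 : ℝ) ≤ (D.natAbs : ℝ) := by
    have : 1 ≤ D.natAbs := Int.natAbs_pos.mpr hD
    exact_mod_cast this
  set E : ℝ := (D.natAbs : ℝ) ^ 2 * G0 with hE
  have hE1 : 1 ≤ E := by
    have : (1 : ℝ) ≤ (D.natAbs : ℝ) ^ 2 := one_le_pow₀ hDn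
    rw [hE]; nlinarith
  have hE0 : 0 < E := by linarith
  set A : ℝ := |(a0 : ℝ)| + 9 * |(b0 : ℝ)| + 3 * |(a0 : ℝ)| ^ 2 with hA
  set B : ℝ := |(b0 : ℝ)| + 2 * |(a0 : ℝ)| ^ 2 + 9 * |(a0 : ℝ)| * |(b0 : ℝ)| +
    (27 * |(b0 : ℝ)| ^ 2 + 2 * |(a0 : ℝ)| ^ 3) with hB
  have hA0 : 0 ≤ A := by positivity
  have hB0 : 0 ≤ B := by positivity
  refine ⟨1 / (24 * E ^ ((2 : ℝ) / 3)), 1 + A + B, E, by positivity, by positivity, hE0, ?_⟩
  intro Z X hZ hX
  have hZ1 : 1 ≤ Z := hE1.trans hZ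
  have hZ0 : 0 < Z := by linarith
  set t : ℝ := (Z / E) ^ ((1 : ℝ) / 3) with ht
  have ht1 : 1 ≤ t := Real.one_le_rpow (by rw [le_div_iff₀ hE0]; linarith) (by norm_num)
  have ht3 : t ^ 3 = Z / E := by
    rw [ht, ← Real.rpow_natCast, ← Real.rpow_mul (by positivity)]
    norm_num
  set U : ℕ := ⌊t⌋₊ with hU
  have hU1 : 1 ≤ U := Nat.le_floor (by exact_mod_cast ht1)
  have hUt : (U : ℝ) ≤ t := Nat.floor_le (by linarith)
  have hUlow : t / 2 ≤ U := by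
    have h1 : t < U + 1 := Nat.lt_floor_add_one t
    have h2 : (1 : ℝ) ≤ U := by exact_mod_cast hU1
    linarith
  have hU0 : (0 : ℝ) ≤ U := Nat.cast_nonneg _
  set S : Finset (ℕ × ℕ) := (Ioc 0 U ×ˢ Ioc 0 U).filter (fun p : ℕ × ℕ => Nat.Coprime p.1 p.2)
    with hS
  have hSm : ∀ p ∈ S, 0 < p.1 ∧ p.1 ≤ U ∧ 0 < p.2 ∧ p.2 ≤ U ∧ Nat.Coprime p.1 p.2 := by
    intro p hp
    rw [hS, mem_filter, mem_product, mem_Ioc, mem_Ioc] at hp
    exact ⟨hp.1.1.1, hp.1.1.2, hp.1.2.1, hp.1.2.2, hp.2⟩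
  have hcop : ∀ p ∈ S, IsCoprime (p.1 : ℤ) (p.2 : ℤ) := fun p hp =>
    Nat.isCoprime_iff_coprime.mpr (hSm p hp).2.2.2.2
  have hGn : ∀ p ∈ S, G (9 * a0) (27 * b0) p.1 p.2 ≠ 0 := by
    intro p hp h
    have := G_ne hρ (hcop p hp)
    rw [h] at this
    simp at this
  have hex : ∀ p : ℕ × ℕ, p ∈ S → ∃ (s : ℕ) (q : ℤ × ℤ), 1 ≤ s ∧
      Fa a0 b0 p.1 p.2 = (s : ℤ) ^ 4 * q.1 ∧ Fb a0 b0 p.1 p.2 = (s : ℤ) ^ 6 * q.2 ∧
      IsMinM q.1 q.2 := by
    intro p hp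
    obtain ⟨s, a', b', h1, h2, h3, h4⟩ := exists_minM (Fa a0 b0 p.1 p.2) (Fb a0 b0 p.1 p.2) (by
      rw [identD]
      exact mul_ne_zero hD (pow_ne_zero _ (hGn p hp)))
    exact ⟨s, (a', b'), h1, h2, h3, h4⟩
  choose! s q hsq using hex
  have hsK : ∀ p ∈ S, (s p : K) ≠ 0 := by
    intro p hp
    have := (hsq p hp).1
    have : s p ≠ 0 := by omega
    exact_mod_cast this
  -- the root
  let r : ℕ × ℕ → K := fun p => (p.1 * θ0 + p.2 * (3 * θ0 ^ 2 - 2 * a0)) / (s p : K) ^ 2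
  have hrel : ∀ p ∈ S, r p ^ 3 = (q p).1 * r p + (q p).2 := by
    intro p hp
    obtain ⟨h1, h2, h3, h4⟩ := hsq p hp
    have hs := hsK p hp
    have e1 : ((p.1 : K) * θ0 + p.2 * (3 * θ0 ^ 2 - 2 * a0)) ^ 3 =
        (Fa a0 b0 p.1 p.2 : ℤ) * ((p.1 : K) * θ0 + p.2 * (3 * θ0 ^ 2 - 2 * a0)) +
          (Fb a0 b0 p.1 p.2 : ℤ) := by
      have h5 : θ0 ^ 4 = a0 * θ0 ^ 2 + b0 * θ0 := by linear_combination θ0 * h0
      have h6 : θ0 ^ 5 = a0 * (a0 * θ0 + b0) + b0 * θ0 ^ 2 := by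
        linear_combination θ0 ^ 2 * h0 + a0 * h0
      have h7 : θ0 ^ 6 = (a0 * θ0 + b0) ^ 2 := by
        rw [← h0]; ring
      unfold Fa Fb
      push_cast
      ring_nf
      rw [h0, h5, h6, h7]
      ring
    rw [h2, h3] at e1
    show ((p.1 * θ0 + p.2 * (3 * θ0 ^ 2 - 2 * a0)) / (s p : K) ^ 2) ^ 3 = _ *
      ((p.1 * θ0 + p.2 * (3 * θ0 ^ 2 - 2 * a0)) / (s p : K) ^ 2) + _
    rw [div_pow, e1]
    push_cast
    field_simp
  have hindep : ∀ x y : ℚ, ∀ c : ℚ, x • θ0 + y • (3 * θ0 ^ 2 - 2 * (a0 : K)) = algebraMap ℚ K c →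
      x = 0 ∧ y = 0 := by
    intro x y c h
    have h1 := indep3 hd θ0 hθ (-(2 * a0 * y) - c) x (3 * y) (by
      rw [Algebra.smul_def, Algebra.smul_def] at h
      rw [Algebra.smul_def, Algebra.smul_def, Algebra.smul_def]
      simp only [map_sub, map_mul, map_neg, map_ofNat, map_intCast]
      linear_combination h)
    exact ⟨h1.2.1, by linarith [h1.2.2]⟩
  have hirr : ∀ p ∈ S, ∀ c : ℚ, r p ≠ algebraMap ℚ K c := by
    intro p hp c h
    have hs := hsK p hp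
    have h1 : (p.1 : K) * θ0 + p.2 * (3 * θ0 ^ 2 - 2 * a0) = algebraMap ℚ K (c * (s p) ^ 2) := by
      have h2 : ((p.1 : K) * θ0 + p.2 * (3 * θ0 ^ 2 - 2 * a0)) / (s p : K) ^ 2 =
        algebraMap ℚ K c := h
      rw [div_eq_iff (pow_ne_zero _ hs)] at h2
      rw [h2]
      simp
    have h2 := hindep (p.1 : ℚ) (p.2 : ℚ) (c * (s p : ℚ) ^ 2) (by
      rw [Algebra.smul_def, Algebra.smul_def, map_natCast, map_natCast]
      exact h1)
    have h3 := (hSm p hp).1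
    have h4 : p.1 = 0 := by exact_mod_cast h2.1
    omega
  -- the root determines the pair
  have hrinj : ∀ p ∈ S, ∀ p' ∈ S, r p = r p' → p = p' := by
    intro p hp p' hp' h
    have hs := hsK p hp
    have hs' := hsK p' hp'
    have h1 : ((p.1 : K) * θ0 + p.2 * (3 * θ0 ^ 2 - 2 * a0)) * (s p' : K) ^ 2 =
        ((p'.1 : K) * θ0 + p'.2 * (3 * θ0 ^ 2 - 2 * a0)) * (s p : K) ^ 2 := by
      have h2 : ((p.1 : K) * θ0 + p.2 * (3 * θ0 ^ 2 - 2 * a0)) / (s p : K) ^ 2 =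
        ((p'.1 : K) * θ0 + p'.2 * (3 * θ0 ^ 2 - 2 * a0)) / (s p' : K) ^ 2 := h
      rwa [div_eq_div_iff (pow_ne_zero _ hs) (pow_ne_zero _ hs')] at h2
    have h2 := hindep ((p.1 : ℚ) * (s p' : ℚ) ^ 2 - (p'.1 : ℚ) * (s p : ℚ) ^ 2)
      ((p.2 : ℚ) * (s p' : ℚ) ^ 2 - (p'.2 : ℚ) * (s p : ℚ) ^ 2) 0 (by
      rw [Algebra.smul_def, Algebra.smul_def]
      simp only [map_sub, map_mul, map_pow, map_natCast, map_zero]
      linear_combination h1)
    obtain ⟨e1, e2⟩ := h2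
    have f1 : p.1 * s p' ^ 2 = p'.1 * s p ^ 2 := by
      have : (p.1 : ℚ) * (s p' : ℚ) ^ 2 = (p'.1 : ℚ) * (s p : ℚ) ^ 2 := by linarith
      exact_mod_cast this
    have f2 : p.2 * s p' ^ 2 = p'.2 * s p ^ 2 := by
      have : (p.2 : ℚ) * (s p' : ℚ) ^ 2 = (p'.2 : ℚ) * (s p : ℚ) ^ 2 := by linarith
      exact_mod_cast this
    have hs1 : 0 < s p' ^ 2 := pow_pos (hsq p' hp').1 2
    have f3 : p.1 * p'.2 = p'.1 * p.2 := by
      have : s p' ^ 2 * (p.1 * p'.2) = s p' ^ 2 * (p'.1 * p.2) := by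
        calc s p' ^ 2 * (p.1 * p'.2) = (p.1 * s p' ^ 2) * p'.2 := by ring
          _ = p'.1 * (p'.2 * s p ^ 2) := by rw [f1]; ring
          _ = s p' ^ 2 * (p'.1 * p.2) := by rw [← f2]; ring
      exact Nat.eq_of_mul_eq_mul_left hs1 this
    obtain ⟨g1, -, g2, -, g3⟩ := hSm p hp
    obtain ⟨g1', -, g2', -, g3'⟩ := hSm p' hp'
    have d1 : p.1 ∣ p'.1 := g3.dvd_of_dvd_mul_right ⟨p'.2, by rw [← f3]⟩
    have d2 : p'.1 ∣ p.1 := g3'.dvd_of_dvd_mul_right ⟨p.2, by rw [f3]⟩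
    have k1 : p.1 = p'.1 := Nat.dvd_antisymm d1 d2
    have k2 : p.2 = p'.2 := by
      rw [k1] at f3
      exact (Nat.eq_of_mul_eq_mul_left g1' f3).symm
    exact Prod.ext k1 k2
  have hfib : ∀ y ∈ S.image q, (S.filter (fun p => q p = y)).card ≤ 3 := by
    intro y hy
    obtain ⟨p0, hp0, rfl⟩ := mem_image.mp hy
    let P : Polynomial K := Polynomial.X ^ 3 - (Polynomial.C ((q p0).1 : K) * Polynomial.X +
      Polynomial.C ((q p0).2 : K))
    have hPm : P.Monic := by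
      apply Polynomial.monic_X_pow_sub
      refine lt_of_le_of_lt (Polynomial.degree_linear_le) ?_
      norm_num
    have hPd : P.natDegree ≤ 3 := by
      refine (Polynomial.natDegree_sub_le _ _).trans (max_le ?_ ?_)
      · exact Polynomial.natDegree_X_pow_le 3
      · exact Polynomial.natDegree_linear_le.trans (by norm_num)
    calc (S.filter (fun p => q p = q p0)).card ≤ P.roots.toFinset.card := by
          apply card_le_card_of_injOn r
          · intro p hp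
            rw [Finset.mem_coe, mem_filter] at hp
            rw [Finset.mem_coe, Multiset.mem_toFinset, Polynomial.mem_roots hPm.ne_zero,
              Polynomial.IsRoot.def]
            have h1 := hrel p hp.1
            rw [hp.2] at h1
            simp only [P, Polynomial.eval_sub, Polynomial.eval_pow, Polynomial.eval_X,
              Polynomial.eval_add, Polynomial.eval_mul, Polynomial.eval_C]
            rw [h1]
            ring
          · intro p hp p' hp' h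
            rw [Finset.mem_coe, mem_filter] at hp hp'
            exact hrinj p hp.1 p' hp'.1 h
      _ ≤ P.roots.card := Multiset.toFinset_card_le _
      _ ≤ P.natDegree := Polynomial.card_roots' _
      _ ≤ 3 := hPd
  have hcard : S.card ≤ 3 * (S.image q).card := card_le_mul_card_image S 3 hfib
  have hsub : ((S.image q : Finset (ℤ × ℤ)) : Set (ℤ × ℤ)) ⊆ Cnt K Z X := by
    intro y hy
    rw [Finset.mem_coe] at hy
    obtain ⟨p, hp, rfl⟩ := mem_image.mp hy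
    obtain ⟨h1, h2, h3, h4⟩ := hsq p hp
    obtain ⟨g1, g1', g2, g2', g3⟩ := hSm p hp
    have hu : |((p.1 : ℤ) : ℝ)| ≤ U := by
      rw [abs_of_nonneg (by positivity)]
      exact_mod_cast g1'
    have hv : |((p.2 : ℤ) : ℝ)| ≤ U := by
      rw [abs_of_nonneg (by positivity)]
      exact_mod_cast g2'
    have hs1 : (1 : ℤ) ≤ s p := by exact_mod_cast h1
    have htZ : t ≤ Z ^ ((1 : ℝ) / 3) := by
      apply Real.rpow_le_rpow (by positivity) _ (by norm_num)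
      exact div_le_self hZ0.le hE1
    have hUX : (1 + A + B) * U ≤ X := by
      calc (1 + A + B) * U ≤ (1 + A + B) * Z ^ ((1 : ℝ) / 3) := by gcongr; linarith
        _ ≤ X := hX
    have hc1 : (1 : ℝ) ≤ 1 + A + B := by linarith
    refine ⟨h4, ⟨r p, hirr p hp, hrel p hp⟩, ?_, ?_, ?_⟩
    · -- the size of `a'`
      have e1 : |((q p).1 : ℝ)| ≤ |((Fa a0 b0 p.1 p.2 : ℤ) : ℝ)| := by
        have : |(q p).1| ≤ |Fa a0 b0 p.1 p.2| := by
          rw [h2, abs_mul]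
          apply le_mul_of_one_le_left (abs_nonneg _)
          exact Int.one_le_abs (pow_ne_zero _ (by omega))
        exact_mod_cast this
      have e2 : |((Fa a0 b0 p.1 p.2 : ℤ) : ℝ)| ≤ A * U ^ 2 := by
        unfold Fa
        push_cast
        have hu' : |(p.1 : ℝ)| ≤ U := by exact_mod_cast hu
        have hv' : |(p.2 : ℝ)| ≤ U := by exact_mod_cast hv
        calc |(a0 : ℝ) * p.1 ^ 2 + 9 * b0 * p.1 * p.2 + 3 * a0 ^ 2 * p.2 ^ 2|
            ≤ |(a0 : ℝ) * p.1 ^ 2| + |9 * (b0 : ℝ) * p.1 * p.2| + |3 * (a0 : ℝ) ^ 2 * p.2 ^ 2| :=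
              abs_add_three _ _ _
          _ = |(a0 : ℝ)| * |(p.1 : ℝ)| ^ 2 + 9 * |(b0 : ℝ)| * |(p.1 : ℝ)| * |(p.2 : ℝ)| +
              3 * |(a0 : ℝ)| ^ 2 * |(p.2 : ℝ)| ^ 2 := by
              simp only [abs_mul, abs_pow]
              norm_num
          _ ≤ |(a0 : ℝ)| * U ^ 2 + 9 * |(b0 : ℝ)| * U * U + 3 * |(a0 : ℝ)| ^ 2 * U ^ 2 := by gcongr
          _ = A * U ^ 2 := by rw [hA]; ring
      have e3 : A * (U : ℝ) ^ 2 ≤ (X : ℝ) ^ 2 := by
        calc A * (U : ℝ) ^ 2 ≤ (1 + A + B) ^ 2 * U ^ 2 := by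
              have : A ≤ (1 + A + B) ^ 2 := by nlinarith
              gcongr
          _ = ((1 + A + B) * U) ^ 2 := by ring
          _ ≤ (X : ℝ) ^ 2 := by gcongr
      have e4 := (e1.trans e2).trans e3
      exact_mod_cast e4
    · have e1 : |((q p).2 : ℝ)| ≤ |((Fb a0 b0 p.1 p.2 : ℤ) : ℝ)| := by
        have : |(q p).2| ≤ |Fb a0 b0 p.1 p.2| := by
          rw [h3, abs_mul]
          apply le_mul_of_one_le_left (abs_nonneg _)
          exact Int.one_le_abs (pow_ne_zero _ (by omega))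
        exact_mod_cast this
      have e2 : |((Fb a0 b0 p.1 p.2 : ℤ) : ℝ)| ≤ B * U ^ 3 := by
        unfold Fb
        push_cast
        have hu' : |(p.1 : ℝ)| ≤ U := by exact_mod_cast hu
        have hv' : |(p.2 : ℝ)| ≤ U := by exact_mod_cast hv
        calc |(b0 : ℝ) * p.1 ^ 3 + 2 * a0 ^ 2 * p.1 ^ 2 * p.2 + 9 * a0 * b0 * p.1 * p.2 ^ 2 +
              (27 * b0 ^ 2 - 2 * a0 ^ 3) * p.2 ^ 3|
            ≤ |(b0 : ℝ) * p.1 ^ 3 + 2 * a0 ^ 2 * p.1 ^ 2 * p.2 + 9 * a0 * b0 * p.1 * p.2 ^ 2| +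
              |(27 * (b0 : ℝ) ^ 2 - 2 * a0 ^ 3) * p.2 ^ 3| := abs_add_le _ _
          _ ≤ (|(b0 : ℝ) * p.1 ^ 3| + |2 * (a0 : ℝ) ^ 2 * p.1 ^ 2 * p.2| +
              |9 * (a0 : ℝ) * b0 * p.1 * p.2 ^ 2|) + |(27 * (b0 : ℝ) ^ 2 - 2 * a0 ^ 3) * p.2 ^ 3| := by
              gcongr
              exact abs_add_three _ _ _
          _ = (|(b0 : ℝ)| * |(p.1 : ℝ)| ^ 3 + 2 * |(a0 : ℝ)| ^ 2 * |(p.1 : ℝ)| ^ 2 * |(p.2 : ℝ)| +
              9 * |(a0 : ℝ)| * |(b0 : ℝ)| * |(p.1 : ℝ)| * |(p.2 : ℝ)| ^ 2) +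
              |27 * (b0 : ℝ) ^ 2 - 2 * a0 ^ 3| * |(p.2 : ℝ)| ^ 3 := by
              simp only [abs_mul, abs_pow]
              norm_num
          _ ≤ (|(b0 : ℝ)| * U ^ 3 + 2 * |(a0 : ℝ)| ^ 2 * U ^ 2 * U +
              9 * |(a0 : ℝ)| * |(b0 : ℝ)| * U * U ^ 2) +
              (27 * |(b0 : ℝ)| ^ 2 + 2 * |(a0 : ℝ)| ^ 3) * U ^ 3 := by
              have : |27 * (b0 : ℝ) ^ 2 - 2 * a0 ^ 3| ≤ 27 * |(b0 : ℝ)| ^ 2 + 2 * |(a0 : ℝ)| ^ 3 := by
                calc |27 * (b0 : ℝ) ^ 2 - 2 * a0 ^ 3| ≤ |27 * (b0 : ℝ) ^ 2| + |2 * (a0 : ℝ) ^ 3| :=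
                      abs_sub _ _
                  _ = _ := by
                      simp only [abs_mul, abs_pow]
                      norm_num
              gcongr
          _ = B * U ^ 3 := by rw [hB]; ring
      have e3 : B * (U : ℝ) ^ 3 ≤ (X : ℝ) ^ 3 := by
        calc B * (U : ℝ) ^ 3 ≤ (1 + A + B) ^ 3 * U ^ 3 := by
              have h5 : B ≤ (1 + A + B) ^ 3 := by
                have : (1 + A + B) ≤ (1 + A + B) ^ 3 := le_self_pow₀ hc1 (by norm_num)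
                linarith
              gcongr
          _ = ((1 + A + B) * U) ^ 3 := by ring
          _ ≤ (X : ℝ) ^ 3 := by gcongr
      have e4 := (e1.trans e2).trans e3
      exact_mod_cast e4
    · have e1 := cond_upper a0 b0 p.1 p.2 (q p).1 (q p).2 (s p) hD (hcop p hp) (hGn p hp) h2 h3
      have e2 := G_le (9 * a0) (27 * b0) p.1 p.2 U hU0 hu hv
      have e3 : (((G (9 * a0) (27 * b0) p.1 p.2).natAbs : ℕ) : ℝ) ≤ G0 * U ^ 3 := by
        rw [Nat.cast_natAbs, Int.cast_abs]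
        exact e2
      calc ((Pool.Agent.W4.CF.condM (q p).1 (q p).2 : ℕ) : ℝ) ≤
            (((4 * a0 ^ 3 - 27 * b0 ^ 2).natAbs ^ 2 * (G (9 * a0) (27 * b0) p.1 p.2).natAbs : ℕ) : ℝ) := by
            exact_mod_cast e1
        _ = (D.natAbs : ℝ) ^ 2 * ((G (9 * a0) (27 * b0) p.1 p.2).natAbs : ℝ) := by push_cast; rfl
        _ ≤ (D.natAbs : ℝ) ^ 2 * (G0 * U ^ 3) := by gcongr
        _ = E * U ^ 3 := by rw [hE]; ring
        _ ≤ E * t ^ 3 := by gcongr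
        _ = Z := by rw [ht3]; field_simp
  have h1 : ((S.image q).card : ℝ) ≤ ((Cnt K Z X).ncard : ℝ) := by
    have := Set.ncard_le_ncard hsub (cnt_finite K Z X)
    rw [Set.ncard_coe_finset] at this
    exact_mod_cast this
  have h2 : (U : ℝ) ^ 2 / 2 ≤ S.card := cop_count U
  have h3 : (S.card : ℝ) ≤ 3 * ((S.image q).card : ℝ) := by exact_mod_cast hcard
  have h4 : (t / 2) ^ 2 ≤ (U : ℝ) ^ 2 := by
    have : 0 ≤ t / 2 := by linarith
    gcongr
  have h5 : t ^ 2 = Z ^ ((2 : ℝ) / 3) / E ^ ((2 : ℝ) / 3) := by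
    rw [ht, ← Real.rpow_natCast, ← Real.rpow_mul (by positivity), Real.div_rpow hZ0.le hE0.le]
    norm_num
  calc 1 / (24 * E ^ ((2 : ℝ) / 3)) * Z ^ ((2 : ℝ) / 3) =
        (Z ^ ((2 : ℝ) / 3) / E ^ ((2 : ℝ) / 3)) / 24 := by field_simp
    _ = t ^ 2 / 24 := by rw [h5]
    _ ≤ ((S.image q).card : ℝ) := by nlinarith
    _ ≤ _ := h1

end Pool.Agent.H460.CF
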