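import Pool.Agent.H460.CF.Upper
import Pool.Agent.H460.CF.LowerMain
import Pool.Graph.R_seed8.W4.CF.Global

/-!
# Global minimal Weierstrass equations with a given cubic 2-division field, counted by conductor
-/

set_option autoImplicit false

namespace Pool.Agent.H460.CF

open NumberField Finset Pool.Agent.W4.CF
open Pool.Agent.H39R3 (GMin condW shortW shortW_Δ shortW_c4 shortW_c6 cond_le condW_pos back)
open Pool.Agent.H925R.Szpiro (D condS IsMin)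

/-- invariants of minimal equations with an irrational point of order two over `K` -/
def CntW (K : Type) [Field K] [NumberField K] (Z : ℝ) (X : ℕ) : Set (ℤ × ℤ) :=
  {q | ∃ W : WeierstrassCurve ℤ, GMin W ∧ TwoK K W ∧ q = (W.c₄, W.c₆) ∧
    |W.c₄| ^ 3 ≤ (X : ℤ) ^ 6 ∧ W.c₆ ^ 2 ≤ (X : ℤ) ^ 6 ∧ (condW W : ℝ) ≤ Z}

theorem cntW_sub (K : Type) [Field K] [NumberField K] (Z : ℝ) (X : ℕ) :
    CntW K Z X ⊆ back '' ((((range 7 ×ˢ range 7 : Finset (ℕ × ℕ)) : Set (ℕ × ℕ))) ×ˢ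
      Cnt K Z (6 * X)) := by
  rintro q ⟨W, hW, hF, rfl, h4, h6, hbig⟩
  obtain ⟨a, b, r, s, hmin, ⟨u, hu, hua, hub⟩, hs0, hsr, hr6, e4, e6, e12, hrs6⟩ :=
    Pool.Agent.W270.TM.intsR W hW
  have hfull : HasK K a b := twoK_root K W u a b hu hua hub hF
  have hr6' : r ≤ 6 := Nat.le_of_dvd (by norm_num) hr6
  have hr0 : 0 < r := by omega
  have hsZ : (1 : ℤ) ≤ s := by exact_mod_cast hs0
  have hrZ : (0 : ℤ) < r := by exact_mod_cast hr0
  have hrsZ : (r : ℤ) ≤ 6 * s := by exact_mod_cast hrs6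
  refine ⟨((r, s), (a, b)), ⟨?_, hmin, hfull, ?_, ?_, ?_⟩, ?_⟩
  · rw [Finset.mem_coe, mem_product, mem_range, mem_range]
    simp only
    omega
  · have h1 : 48 * |a| * (s : ℤ) ^ 4 = (r : ℤ) ^ 4 * |W.c₄| := by
      have := congrArg abs e4
      rw [abs_mul, abs_mul, abs_mul, abs_of_pos (by norm_num : (0 : ℤ) < 48),
        abs_of_nonneg (by positivity : (0 : ℤ) ≤ (s : ℤ) ^ 4),
        abs_of_nonneg (by positivity : (0 : ℤ) ≤ (r : ℤ) ^ 4)] at this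
      exact this
    have h2 : (r : ℤ) ^ 4 ≤ 1296 * (s : ℤ) ^ 4 := by
      calc (r : ℤ) ^ 4 ≤ (6 * s) ^ 4 := pow_le_pow_left₀ hrZ.le hrsZ 4
        _ = _ := by ring
    have h3 : |W.c₄| ≤ (X : ℤ) ^ 2 := by
      have : |W.c₄| ^ 3 ≤ ((X : ℤ) ^ 2) ^ 3 := by
        calc |W.c₄| ^ 3 ≤ (X : ℤ) ^ 6 := h4
          _ = _ := by ring
      exact le_of_pow_le_pow_left₀ (by norm_num) (by positivity) this
    have hs4 : (0 : ℤ) < (s : ℤ) ^ 4 := by positivity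
    have h5 : 48 * |a| * (s : ℤ) ^ 4 ≤ (1296 * (X : ℤ) ^ 2) * (s : ℤ) ^ 4 := by
      rw [h1]
      calc (r : ℤ) ^ 4 * |W.c₄| ≤ (1296 * (s : ℤ) ^ 4) * (X : ℤ) ^ 2 :=
            mul_le_mul h2 h3 (abs_nonneg _) (by positivity)
        _ = _ := by ring
    have h6 : 48 * |a| ≤ 1296 * (X : ℤ) ^ 2 := le_of_mul_le_mul_right h5 hs4
    have h7 : (((6 * X : ℕ) : ℤ)) ^ 2 = 36 * (X : ℤ) ^ 2 := by push_cast; ring
    show |a| ≤ (((6 * X : ℕ) : ℤ)) ^ 2
    rw [h7]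
    have : 0 ≤ (X : ℤ) ^ 2 := by positivity
    linarith
  · have h1 : 864 * |b| * (s : ℤ) ^ 6 = (r : ℤ) ^ 6 * |W.c₆| := by
      have := congrArg abs e6
      rw [abs_mul, abs_mul, abs_mul, abs_of_pos (by norm_num : (0 : ℤ) < 864),
        abs_of_nonneg (by positivity : (0 : ℤ) ≤ (s : ℤ) ^ 6),
        abs_of_nonneg (by positivity : (0 : ℤ) ≤ (r : ℤ) ^ 6)] at this
      exact this
    have h2 : (r : ℤ) ^ 6 ≤ 46656 * (s : ℤ) ^ 6 := by
      calc (r : ℤ) ^ 6 ≤ (6 * s) ^ 6 := pow_le_pow_left₀ hrZ.le hrsZ 6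
        _ = _ := by ring
    have h3 : |W.c₆| ≤ (X : ℤ) ^ 3 := by
      have : |W.c₆| ^ 2 ≤ ((X : ℤ) ^ 3) ^ 2 := by
        calc |W.c₆| ^ 2 = W.c₆ ^ 2 := sq_abs _
          _ ≤ (X : ℤ) ^ 6 := h6
          _ = _ := by ring
      exact le_of_pow_le_pow_left₀ (by norm_num) (by positivity) this
    have hs6 : (0 : ℤ) < (s : ℤ) ^ 6 := by positivity
    have h5 : 864 * |b| * (s : ℤ) ^ 6 ≤ (46656 * (X : ℤ) ^ 3) * (s : ℤ) ^ 6 := by
      rw [h1]
      calc (r : ℤ) ^ 6 * |W.c₆| ≤ (46656 * (s : ℤ) ^ 6) * (X : ℤ) ^ 3 :=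
            mul_le_mul h2 h3 (abs_nonneg _) (by positivity)
        _ = _ := by ring
    have h6 : 864 * |b| ≤ 46656 * (X : ℤ) ^ 3 := le_of_mul_le_mul_right h5 hs6
    have h7 : (((6 * X : ℕ) : ℤ)) ^ 3 = 216 * (X : ℤ) ^ 3 := by push_cast; ring
    show |b| ≤ (((6 * X : ℕ) : ℤ)) ^ 3
    rw [h7]
    have : 0 ≤ (X : ℤ) ^ 3 := by positivity
    linarith
  · have hcl : (condS a b : ℝ) ≤ (condW W : ℝ) := by
      exact_mod_cast cond_le W a b r s hr6 e4 e12 hW.1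
    exact le_trans hcl hbig
  · unfold back
    simp only
    rw [e4, e6, Int.mul_ediv_cancel_left _ (by positivity),
      Int.mul_ediv_cancel_left _ (by positivity)]

theorem upperW (K : Type) [Field K] [NumberField K] (hK : Module.finrank ℚ K = 3) (ε : ℝ)
    (hε : 0 < ε) : ∃ C : ℝ, 0 < C ∧ ∀ (X : ℕ) (Z : ℝ), 1 ≤ X → 0 ≤ Z → (CntW K Z X).Finite ∧
      ((CntW K Z X).ncard : ℝ) ≤ C * (X : ℝ) ^ ε * Z ^ ((2 : ℝ) / 3) := by
  obtain ⟨C, hC, h⟩ := upper K hK ε hε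
  refine ⟨49 * (C * 6 ^ ε), by positivity, fun X Z hX hZ => ?_⟩
  obtain ⟨hfin, hcard⟩ := h (6 * X) Z (by omega) hZ
  have hsub := cntW_sub K Z X
  have hfin1 : ((((range 7 ×ˢ range 7 : Finset (ℕ × ℕ)) : Set (ℕ × ℕ))) ×ˢ
      Cnt K Z (6 * X)).Finite := (Finset.finite_toSet _).prod hfin
  have hfin2 := hfin1.image back
  refine ⟨hfin2.subset hsub, ?_⟩
  have c1 : (CntW K Z X).ncard ≤ 49 * (Cnt K Z (6 * X)).ncard := by
    calc (CntW K Z X).ncard ≤ _ := Set.ncard_le_ncard hsub hfin2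
      _ ≤ _ := Set.ncard_image_le hfin1
      _ = _ := by
          rw [Set.ncard_prod, Set.ncard_coe_finset, card_product, card_range]
  calc ((CntW K Z X).ncard : ℝ) ≤ 49 * ((Cnt K Z (6 * X)).ncard : ℝ) := by exact_mod_cast c1
    _ ≤ 49 * (C * ((6 * X : ℕ) : ℝ) ^ ε * Z ^ ((2 : ℝ) / 3)) := by linarith
    _ = 49 * (C * 6 ^ ε) * (X : ℝ) ^ ε * Z ^ ((2 : ℝ) / 3) := by
        push_cast
        rw [Real.mul_rpow (by norm_num) (Nat.cast_nonneg _)]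
        ring

/-- a global minimal equation of the curve `y² = x³ - a x - b` -/
theorem exists_gmin (W₀ : WeierstrassCurve ℤ) (h0 : W₀.Δ ≠ 0) :
    ∃ W : WeierstrassCurve ℤ, GMin W ∧ ∃ C : WeierstrassCurve.VariableChange ℚ,
      C • W₀.map (Int.castRingHom ℚ) = W.map (Int.castRingHom ℚ) := by
  classical
  let P : ℕ → Prop := fun n => ∃ W : WeierstrassCurve ℤ,
    (∃ C : WeierstrassCurve.VariableChange ℚ,
      C • W₀.map (Int.castRingHom ℚ) = W.map (Int.castRingHom ℚ)) ∧ n = W.Δ.natAbs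
  have hex : ∃ n, P n := ⟨_, W₀, ⟨1, by rw [one_smul]⟩, rfl⟩
  obtain ⟨W, ⟨C, hC⟩, hn⟩ := Nat.find_spec hex
  refine ⟨W, ⟨?_, ?_⟩, C, hC⟩
  · intro hW
    have h1 := WeierstrassCurve.variableChange_Δ (W₀.map (Int.castRingHom ℚ)) C
    rw [hC, WeierstrassCurve.map_Δ, WeierstrassCurve.map_Δ, hW, map_zero] at h1
    have h2 : ((C.u⁻¹ : ℚˣ) : ℚ) ^ 12 ≠ 0 := pow_ne_zero _ (Units.ne_zero _)
    have h3 := (mul_eq_zero.mp h1.symm).resolve_left h2
    rw [eq_intCast] at h3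
    exact h0 (by exact_mod_cast h3)
  · rintro W' ⟨C', hC'⟩
    have h1 : P W'.Δ.natAbs := ⟨W', ⟨C' * C, by rw [mul_smul, hC, hC']⟩, rfl⟩
    have h2 := Nat.find_min' hex h1
    rw [hn] at h2
    rw [Int.abs_eq_natAbs, Int.abs_eq_natAbs]
    exact_mod_cast h2

theorem condW_le25 (W : WeierstrassCurve ℤ) (a b : ℤ) (r s : ℕ) (hs0 : 0 < s) (hs6 : s ≤ 6)
    (e4 : 48 * a * (s : ℤ) ^ 4 = (r : ℤ) ^ 4 * W.c₄)
    (e12 : (16 * D a b) * (s : ℤ) ^ 12 = (r : ℤ) ^ 12 * W.Δ) (hD : D a b ≠ 0) :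
    condW W ≤ 25 * condS a b := by
  classical
  have hpos : 0 < condS a b := by
    unfold condS
    refine Finset.prod_pos fun p hp => ?_
    have h5 : 5 ≤ p := (mem_filter.mp hp).2
    split_ifs
    · positivity
    · omega
  have hnd : ∀ p : ℕ, p.Prime → 7 ≤ p → ∀ x y : ℤ, ∀ n m : ℕ, (p : ℤ) ∣ y → m ≤ 48 → 0 < m →
      (m : ℤ) * x * (s : ℤ) ^ n = (r : ℤ) ^ n * y → (p : ℤ) ∣ (m : ℤ) * x := by
    intro p hp h7 x y n m hy _ _ he
    have hpZ : Prime (p : ℤ) := Nat.prime_iff_prime_int.mp hp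
    have h1 : (p : ℤ) ∣ (m : ℤ) * x * (s : ℤ) ^ n := by
      rw [he]
      exact hy.mul_left _
    rcases hpZ.dvd_or_dvd h1 with h | h
    · exact h
    · have h2 : p ∣ s := by exact_mod_cast hpZ.dvd_of_dvd_pow h
      have := Nat.le_of_dvd hs0 h2
      omega
  have hsm : ∀ p : ℕ, p.Prime → 7 ≤ p → ∀ x : ℤ, (p : ℤ) ∣ 48 * x → (p : ℤ) ∣ x := by
    intro p hp h7 x hx
    have hpZ : Prime (p : ℤ) := Nat.prime_iff_prime_int.mp hp
    rcases hpZ.dvd_or_dvd hx with h | h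
    · exfalso
      have h1 : p ∣ 48 := by exact_mod_cast h
      have h2 : p ∣ 2 ^ 4 * 3 := by norm_num; exact h1
      rcases (Nat.Prime.dvd_mul hp).mp h2 with h3 | h3
      · have := Nat.le_of_dvd (by norm_num) (hp.dvd_of_dvd_pow h3)
        omega
      · have := Nat.le_of_dvd (by norm_num) h3
        omega
    · exact h
  set S1 := W.Δ.natAbs.primeFactors.filter (fun p => 5 ≤ p) with hS1
  set S2 := (D a b).natAbs.primeFactors.filter (fun p => 5 ≤ p) with hS2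
  have e : condW W = (∏ p ∈ S1.filter (fun p => p < 7), if (p : ℤ) ∣ W.c₄ then p ^ 2 else p) *
      ∏ p ∈ S1.filter (fun p => ¬ p < 7), if (p : ℤ) ∣ W.c₄ then p ^ 2 else p :=
    (Finset.prod_filter_mul_prod_filter_not _ _ _).symm
  have h25 : (∏ p ∈ S1.filter (fun p => p < 7), if (p : ℤ) ∣ W.c₄ then p ^ 2 else p) ≤ 25 := by
    have hsub : S1.filter (fun p => p < 7) ⊆ {5} := by
      intro p hp
      rw [mem_filter, hS1, mem_filter] at hp
      obtain ⟨⟨h1, h2⟩, h3⟩ := hp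
      have hpp := Nat.prime_of_mem_primeFactors h1
      rw [mem_singleton]
      interval_cases p
      · rfl
      · exact absurd hpp (by norm_num)
    calc (∏ p ∈ S1.filter (fun p => p < 7), if (p : ℤ) ∣ W.c₄ then p ^ 2 else p)
        ≤ ∏ p ∈ ({5} : Finset ℕ), if (p : ℤ) ∣ W.c₄ then p ^ 2 else p := by
          refine Finset.prod_le_prod_of_subset_of_one_le' hsub ?_
          intro p hp _
          rw [mem_singleton] at hp
          subst hp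
          split_ifs <;> norm_num
      _ ≤ 25 := by
          rw [prod_singleton]
          split_ifs <;> norm_num
  have hbig : (∏ p ∈ S1.filter (fun p => ¬ p < 7), if (p : ℤ) ∣ W.c₄ then p ^ 2 else p) ≤
      condS a b := by
    refine Nat.le_of_dvd hpos ?_
    unfold condS
    have hsub : S1.filter (fun p => ¬ p < 7) ⊆ S2 := by
      intro p hp
      rw [mem_filter, hS1, mem_filter] at hp
      obtain ⟨⟨h1, h2⟩, h3⟩ := hp
      have hpp := Nat.prime_of_mem_primeFactors h1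
      have hd := Nat.dvd_of_mem_primeFactors h1
      rw [hS2, mem_filter]
      refine ⟨Nat.mem_primeFactors.mpr ⟨hpp, ?_, by simpa using hD⟩, h2⟩
      have h4 : (p : ℤ) ∣ ((16 : ℕ) : ℤ) * D a b := hnd p hpp (by omega) (D a b) W.Δ 12 16
        (Int.natCast_dvd.mpr hd) (by norm_num) (by norm_num) (by exact_mod_cast e12)
      have h5 : (p : ℤ) ∣ 48 * D a b := by
        have h6 : (48 : ℤ) * D a b = 3 * (((16 : ℕ) : ℤ) * D a b) := by push_cast; ring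
        rw [h6]
        exact h4.mul_left _
      exact Int.natCast_dvd.mp (hsm p hpp (by omega) _ h5)
    refine dvd_trans ?_ (Finset.prod_dvd_prod_of_subset _ _ _ hsub)
    refine Finset.prod_dvd_prod_of_dvd _ _ fun p hp => ?_
    rw [mem_filter, hS1, mem_filter] at hp
    obtain ⟨⟨h1, h2⟩, h3⟩ := hp
    have hpp := Nat.prime_of_mem_primeFactors h1
    by_cases hc : (p : ℤ) ∣ W.c₄
    · have ha : (p : ℤ) ∣ a := by
        apply hsm p hpp (by omega)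
        have := hnd p hpp (by omega) a W.c₄ 4 48 hc (by norm_num) (by norm_num)
          (by exact_mod_cast e4)
        exact_mod_cast this
      rw [if_pos ha, if_pos hc]
    · rw [if_neg hc]
      split_ifs
      · exact Dvd.intro_left (p ^ 1) (by ring)
      · exact dvd_rfl
  rw [e]
  exact Nat.mul_le_mul h25 hbig

theorem cnt_sub (K : Type) [Field K] [NumberField K] (Z : ℝ) (X : ℕ) :
    Cnt K (Z / 25) X ⊆ (fun x : (ℕ × ℕ) × (ℤ × ℤ) => ((x.1.1 : ℤ) ^ 4 * x.2.1 / (48 * (x.1.2 : ℤ) ^ 4),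
      (x.1.1 : ℤ) ^ 6 * x.2.2 / (864 * (x.1.2 : ℤ) ^ 6))) ''
      ((((range 7 ×ˢ range 7 : Finset (ℕ × ℕ)) : Set (ℕ × ℕ))) ×ˢ CntW K Z (10 * X)) := by
  rintro ⟨a, b⟩ ⟨hmin, hK, ha, hb, hcond⟩
  simp only at hmin hK ha hb hcond
  have hmin' : IsMin a b := hmin
  have hD : D a b ≠ 0 := hmin'.1
  obtain ⟨W, hW, C, hC⟩ := exists_gmin (shortW a b) (by
    rw [shortW_Δ]
    exact mul_ne_zero (by norm_num) hD)
  obtain ⟨a1, b1, r, s, hmin1, ⟨u, hu, hua, hub⟩, hs0, hsr, hr6, e4, e6, e12, hrs6⟩ :=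
    Pool.Agent.W270.TM.intsR W hW
  have hr6' : r ≤ 6 := Nat.le_of_dvd (by norm_num) hr6
  have hr0 : 0 < r := by omega
  have hsQ : (s : ℚ) ≠ 0 := by
    have : s ≠ 0 := by omega
    exact_mod_cast this
  have hrQ : (r : ℚ) ≠ 0 := by
    have : r ≠ 0 := by omega
    exact_mod_cast this
  -- the short model of `W` is the given one
  set w : ℚ := ((C.u⁻¹ : ℚˣ) : ℚ) with hw
  have hw0 : w ≠ 0 := Units.ne_zero _
  have k4 : ((W.c₄ : ℤ) : ℚ) = w ^ 4 * (48 * a) := by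
    have h1 := WeierstrassCurve.variableChange_c₄ ((shortW a b).map (Int.castRingHom ℚ)) C
    rw [hC, WeierstrassCurve.map_c₄, WeierstrassCurve.map_c₄, shortW_c4] at h1
    rw [hw]
    have h2 : (Int.castRingHom ℚ) W.c₄ = (W.c₄ : ℚ) := rfl
    rw [h2] at h1
    rw [h1]
    simp
  have k6 : ((W.c₆ : ℤ) : ℚ) = w ^ 6 * (864 * b) := by
    have h1 := WeierstrassCurve.variableChange_c₆ ((shortW a b).map (Int.castRingHom ℚ)) C
    rw [hC, WeierstrassCurve.map_c₆, WeierstrassCurve.map_c₆, shortW_c6] at h1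
    rw [hw]
    have h2 : (Int.castRingHom ℚ) W.c₆ = (W.c₆ : ℚ) := rfl
    rw [h2] at h1
    rw [h1]
    simp
  set t : ℚ := r * w / s with ht
  have ht0 : t ≠ 0 := div_ne_zero (mul_ne_zero hrQ hw0) hsQ
  have q4 : (a1 : ℚ) = t ^ 4 * a := by
    have h1 : 48 * (a1 : ℚ) * (s : ℚ) ^ 4 = (r : ℚ) ^ 4 * (W.c₄ : ℚ) := by exact_mod_cast e4
    rw [k4] at h1
    rw [ht, div_pow]
    field_simp
    linear_combination h1 / 48
  have q6 : (b1 : ℚ) = t ^ 6 * b := by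
    have h1 : 864 * (b1 : ℚ) * (s : ℚ) ^ 6 = (r : ℚ) ^ 6 * (W.c₆ : ℚ) := by exact_mod_cast e6
    rw [k6] at h1
    rw [ht, div_pow]
    field_simp
    linear_combination h1 / 864
  have hDs := Pool.Agent.H39R3.D_scale t a b a1 b1 q4 q6
  have l1 : |D a b| ≤ |D a1 b1| := hmin'.2 t a1 b1 ht0 q4 q6
  have l2 : |D a1 b1| ≤ |D a b| := hmin1.2 t⁻¹ a b (inv_ne_zero ht0)
    (by rw [q4]; field_simp) (by rw [q6]; field_simp)
  have l3 : |D a1 b1| = |D a b| := le_antisymm l2 l1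
  have ht12 : t ^ 12 = 1 := by
    have h1 : |((D a1 b1 : ℤ) : ℚ)| = |((D a b : ℤ) : ℚ)| := by exact_mod_cast l3
    rw [hDs, abs_mul, abs_of_pos (by positivity : (0 : ℚ) < t ^ 12)] at h1
    have h2 : |((D a b : ℤ) : ℚ)| ≠ 0 := abs_ne_zero.mpr (by exact_mod_cast hD)
    have h3 : t ^ 12 * |((D a b : ℤ) : ℚ)| = 1 * |((D a b : ℤ) : ℚ)| := by rw [h1, one_mul]
    exact mul_right_cancel₀ h2 h3
  have ht2 : t ^ 2 = 1 := by
    have h1 : (t ^ 2) ^ 6 = 1 := by rw [← pow_mul]; exact ht12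
    exact (pow_eq_one_iff_of_nonneg (by positivity) (by norm_num)).mp h1
  have ea : a1 = a := by
    have : (a1 : ℚ) = a := by
      rw [q4]
      have : t ^ 4 = (t ^ 2) ^ 2 := by ring
      rw [this, ht2]
      ring
    exact_mod_cast this
  have eb : b1 = b := by
    have : (b1 : ℚ) = b := by
      rw [q6]
      have : t ^ 6 = (t ^ 2) ^ 3 := by ring
      rw [this, ht2]
      ring
    exact_mod_cast this
  subst ea eb
  have hs6 : s ≤ 6 := by omega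
  refine ⟨((r, s), (W.c₄, W.c₆)), ⟨?_, W, hW, ?_, rfl, ?_, ?_, ?_⟩, ?_⟩
  · rw [Finset.mem_coe, mem_product, mem_range, mem_range]
    simp only
    omega
  · -- the point of order two
    obtain ⟨θ, hθ, hθ3⟩ := hK
    set v : K := algebraMap ℚ K u with hv
    have hv0 : v ≠ 0 := by
      rw [hv, Ne, map_eq_zero]
      exact hu
    refine ⟨(θ / v ^ 2 - 3 * (W.b₂ : K)) / 36, ?_, ?_⟩
    · intro x hx
      apply hθ (u ^ 2 * (36 * x + 3 * (W.b₂ : ℚ)))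
      rw [map_mul, map_pow, map_add, map_mul, map_mul, map_ofNat, map_ofNat, map_intCast, ← hx,
        ← hv]
      field_simp
      ring
    · have hc4 : ((W.c₄ : ℤ) : ℚ) = (W.b₂ : ℚ) ^ 2 - 24 * W.b₄ := by
        unfold WeierstrassCurve.c₄
        push_cast
        ring
      have hc6 : ((W.c₆ : ℤ) : ℚ) = -(W.b₂ : ℚ) ^ 3 + 36 * W.b₂ * W.b₄ - 216 * W.b₆ := by
        unfold WeierstrassCurve.c₆
        push_cast
        ring
      have ha' : (a1 : K) = v ^ 4 * (27 * ((W.b₂ : K) ^ 2 - 24 * W.b₄)) := by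
        have h1 := congrArg (algebraMap ℚ K) hua
        push_cast at h1
        rw [hc4] at h1
        simp only [map_mul, map_sub, map_pow, map_intCast, map_ofNat] at h1
        exact h1
      have hb' : (b1 : K) = v ^ 6 *
          (54 * (-(W.b₂ : K) ^ 3 + 36 * W.b₂ * W.b₄ - 216 * W.b₆)) := by
        have h1 := congrArg (algebraMap ℚ K) hub
        push_cast at h1
        rw [hc6] at h1
        simp only [map_mul, map_sub, map_add, map_neg, map_pow, map_intCast, map_ofNat] at h1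
        exact h1
      set η : K := (θ / v ^ 2 - 3 * (W.b₂ : K)) / 36 with hη
      have hθη : θ = v ^ 2 * (36 * η + 3 * (W.b₂ : K)) := by
        rw [hη]
        field_simp
        ring
      have h2 : (11664 * v ^ 6) * (4 * η ^ 3 + (W.b₂ : K) * η ^ 2 + 2 * (W.b₄ : K) * η +
          (W.b₆ : K)) = 0 := by
        rw [ha', hb', hθη] at hθ3
        linear_combination hθ3
      exact (mul_eq_zero.mp h2).resolve_left (mul_ne_zero (by norm_num) (pow_ne_zero _ hv0))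
  · -- `|c₄|³ ≤ (10 X)⁶`
    have h1 : 48 * |a1| * (s : ℤ) ^ 4 = (r : ℤ) ^ 4 * |W.c₄| := by
      have := congrArg abs e4
      rw [abs_mul, abs_mul, abs_mul, abs_of_pos (by norm_num : (0 : ℤ) < 48),
        abs_of_nonneg (by positivity : (0 : ℤ) ≤ (s : ℤ) ^ 4),
        abs_of_nonneg (by positivity : (0 : ℤ) ≤ (r : ℤ) ^ 4)] at this
      exact this
    have hsZ : (0 : ℤ) ≤ s := by positivity
    have hsrZ : (s : ℤ) ≤ r := by exact_mod_cast hsr
    have hrZ : (0 : ℤ) < (r : ℤ) ^ 4 := by positivity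
    have h2 : (s : ℤ) ^ 4 ≤ (r : ℤ) ^ 4 := pow_le_pow_left₀ hsZ hsrZ 4
    have h3 : (r : ℤ) ^ 4 * |W.c₄| ≤ (r : ℤ) ^ 4 * (48 * (X : ℤ) ^ 2) := by
      rw [← h1]
      calc 48 * |a1| * (s : ℤ) ^ 4 ≤ 48 * (X : ℤ) ^ 2 * (r : ℤ) ^ 4 := by gcongr
        _ = _ := by ring
    have h4 : |W.c₄| ≤ 48 * (X : ℤ) ^ 2 := le_of_mul_le_mul_left h3 hrZ
    calc |W.c₄| ^ 3 ≤ (48 * (X : ℤ) ^ 2) ^ 3 := pow_le_pow_left₀ (abs_nonneg _) h4 3
      _ = 110592 * (X : ℤ) ^ 6 := by ring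
      _ ≤ 1000000 * (X : ℤ) ^ 6 := by
          have : 0 ≤ (X : ℤ) ^ 6 := by positivity
          linarith
      _ = (((10 * X : ℕ) : ℤ)) ^ 6 := by push_cast; ring
  · have h1 : 864 * |b1| * (s : ℤ) ^ 6 = (r : ℤ) ^ 6 * |W.c₆| := by
      have := congrArg abs e6
      rw [abs_mul, abs_mul, abs_mul, abs_of_pos (by norm_num : (0 : ℤ) < 864),
        abs_of_nonneg (by positivity : (0 : ℤ) ≤ (s : ℤ) ^ 6),
        abs_of_nonneg (by positivity : (0 : ℤ) ≤ (r : ℤ) ^ 6)] at this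
      exact this
    have hsZ : (0 : ℤ) ≤ s := by positivity
    have hsrZ : (s : ℤ) ≤ r := by exact_mod_cast hsr
    have hrZ : (0 : ℤ) < (r : ℤ) ^ 6 := by positivity
    have h2 : (s : ℤ) ^ 6 ≤ (r : ℤ) ^ 6 := pow_le_pow_left₀ hsZ hsrZ 6
    have h3 : (r : ℤ) ^ 6 * |W.c₆| ≤ (r : ℤ) ^ 6 * (864 * (X : ℤ) ^ 3) := by
      rw [← h1]
      calc 864 * |b1| * (s : ℤ) ^ 6 ≤ 864 * (X : ℤ) ^ 3 * (r : ℤ) ^ 6 := by gcongr
        _ = _ := by ring
    have h4 : |W.c₆| ≤ 864 * (X : ℤ) ^ 3 := le_of_mul_le_mul_left h3 hrZ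
    calc W.c₆ ^ 2 = |W.c₆| ^ 2 := (sq_abs _).symm
      _ ≤ (864 * (X : ℤ) ^ 3) ^ 2 := pow_le_pow_left₀ (abs_nonneg _) h4 2
      _ = 746496 * (X : ℤ) ^ 6 := by ring
      _ ≤ 1000000 * (X : ℤ) ^ 6 := by
          have : 0 ≤ (X : ℤ) ^ 6 := by positivity
          linarith
      _ = (((10 * X : ℕ) : ℤ)) ^ 6 := by push_cast; ring
  · have h1 := condW_le25 W a1 b1 r s hs0 hs6 e4 e12 hD
    have h2 : (condW W : ℝ) ≤ 25 * (condS a1 b1 : ℝ) := by exact_mod_cast h1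
    have h3 : (condS a1 b1 : ℝ) ≤ Z / 25 := hcond
    linarith
  · simp only
    have hs4 : (48 * (s : ℤ) ^ 4) ≠ 0 := by positivity
    have hs66 : (864 * (s : ℤ) ^ 6) ≠ 0 := by positivity
    rw [← e4, ← e6]
    have e1 : 48 * a1 * (s : ℤ) ^ 4 = (48 * (s : ℤ) ^ 4) * a1 := by ring
    have e2 : 864 * b1 * (s : ℤ) ^ 6 = (864 * (s : ℤ) ^ 6) * b1 := by ring
    rw [e1, e2, Int.mul_ediv_cancel_left _ hs4, Int.mul_ediv_cancel_left _ hs66]

theorem lowerW (K : Type) [Field K] [NumberField K] (hK : Module.finrank ℚ K = 3) :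
    ∃ c C1 Z0 : ℝ, 0 < c ∧ 0 < C1 ∧ 0 < Z0 ∧ ∀ (Z : ℝ) (X : ℕ), Z0 ≤ Z →
      C1 * Z ^ ((1 : ℝ) / 3) ≤ X → c * Z ^ ((2 : ℝ) / 3) ≤ ((CntW K Z X).ncard : ℝ) := by
  obtain ⟨c, C1, Z0, hc, hC1, hZ0, h⟩ := lower K hK
  refine ⟨c / (49 * 25), 10 * C1 + 10, max 1 (25 * Z0), by positivity, by positivity,
    by positivity, fun Z X hZ hX => ?_⟩
  have hZ1 : 1 ≤ Z := (le_max_left _ _).trans hZ
  have hZ2 : 25 * Z0 ≤ Z := (le_max_right _ _).trans hZ
  have hZp : 0 < Z := by linarith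
  set X1 : ℕ := X / 10 with hX1
  have hT1 : 1 ≤ Z ^ ((1 : ℝ) / 3) := Real.one_le_rpow hZ1 (by norm_num)
  have hXX : (X : ℝ) ≤ 10 * X1 + 10 := by
    have : X ≤ 10 * X1 + 10 := by omega
    exact_mod_cast this
  have hX1' : C1 * (Z / 25) ^ ((1 : ℝ) / 3) ≤ X1 := by
    have h1 : (Z / 25) ^ ((1 : ℝ) / 3) ≤ Z ^ ((1 : ℝ) / 3) :=
      Real.rpow_le_rpow (by positivity) (by linarith) (by norm_num)
    have h2 : C1 * (Z / 25) ^ ((1 : ℝ) / 3) ≤ C1 * Z ^ ((1 : ℝ) / 3) :=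
      mul_le_mul_of_nonneg_left h1 hC1.le
    nlinarith
  have hlow := h (Z / 25) X1 (by linarith) hX1'
  have hsub := cnt_sub K Z X1
  obtain ⟨C, hC, hup⟩ := upperW K hK 1 one_pos
  have hmono : CntW K Z (10 * X1) ⊆ CntW K Z X := by
    rintro q ⟨W, w1, w2, w3, w4, w5, w6⟩
    have h1 : (((10 * X1 : ℕ) : ℤ)) ^ 6 ≤ (X : ℤ) ^ 6 := by
      apply pow_le_pow_left₀ (by positivity)
      have : 10 * X1 ≤ X := by omega
      exact_mod_cast this
    exact ⟨W, w1, w2, w3, w4.trans h1, w5.trans h1, w6⟩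
  have hXpos : 1 ≤ X := by
    have : (0 : ℝ) < X := by nlinarith
    exact_mod_cast this
  have hfinX : (CntW K Z X).Finite := (hup X Z hXpos hZp.le).1
  have hfin10 : (CntW K Z (10 * X1)).Finite := hfinX.subset hmono
  have hfin1 : ((((range 7 ×ˢ range 7 : Finset (ℕ × ℕ)) : Set (ℕ × ℕ))) ×ˢ
      CntW K Z (10 * X1)).Finite := (Finset.finite_toSet _).prod hfin10
  have c1 : (Cnt K (Z / 25) X1).ncard ≤ 49 * (CntW K Z (10 * X1)).ncard := by
    calc (Cnt K (Z / 25) X1).ncard ≤ _ := Set.ncard_le_ncard hsub (hfin1.image _)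
      _ ≤ _ := Set.ncard_image_le hfin1
      _ = _ := by
          rw [Set.ncard_prod, Set.ncard_coe_finset, card_product, card_range]
  have c2 : (CntW K Z (10 * X1)).ncard ≤ (CntW K Z X).ncard := Set.ncard_le_ncard hmono hfinX
  have c3 : ((Cnt K (Z / 25) X1).ncard : ℝ) ≤ 49 * ((CntW K Z X).ncard : ℝ) := by
    exact_mod_cast c1.trans (Nat.mul_le_mul_left _ c2)
  have h5 : Z ^ ((2 : ℝ) / 3) / 25 ≤ (Z / 25) ^ ((2 : ℝ) / 3) := by
    rw [Real.div_rpow hZp.le (by norm_num)]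
    apply div_le_div_of_nonneg_left (by positivity) (by positivity)
    calc (25 : ℝ) ^ ((2 : ℝ) / 3) ≤ (25 : ℝ) ^ (1 : ℝ) :=
          Real.rpow_le_rpow_of_exponent_le (by norm_num) (by norm_num)
      _ = 25 := Real.rpow_one _
  have h6 : c * (Z ^ ((2 : ℝ) / 3) / 25) ≤ c * (Z / 25) ^ ((2 : ℝ) / 3) :=
    mul_le_mul_of_nonneg_left h5 hc.le
  have h7 : c / (49 * 25) * Z ^ ((2 : ℝ) / 3) = c * (Z ^ ((2 : ℝ) / 3) / 25) / 49 := by ring
  rw [h7, div_le_iff₀ (by norm_num)]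
  linarith

end Pool.Agent.H460.CF
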