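import Pool.Agent.H460.CF.Upper

/-!
# Curves with a given cubic 2-division field, counted by conductor: the lower bound
-/

set_option autoImplicit false

namespace Pool.Agent.H460.CF

open NumberField Finset Pool.Agent.W4.CF Module

/-! ### Coprime pairs -/

theorem sum_odd (K : ℕ) :
    ∑ k ∈ Icc 1 K, (1 : ℝ) / (2 * (k : ℝ) + 1) ^ 2 ≤ 1 / 4 - 1 / (4 * ((K : ℝ) + 1)) := by
  induction K with
  | zero => simp
  | succ K ih =>
    rw [sum_Icc_succ_top (by omega)]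
    have h1 : (1 : ℝ) / (2 * ((K + 1 : ℕ) : ℝ) + 1) ^ 2 ≤ 1 / (4 * ((K : ℝ) + 1)) - 1 / (4 * ((K : ℝ) + 2)) := by
      rw [div_sub_div _ _ (by positivity) (by positivity), div_le_div_iff₀ (by positivity) (by positivity)]
      push_cast
      nlinarith
    push_cast at h1 ⊢
    have e : (K : ℝ) + 1 + 1 = K + 2 := by ring
    rw [e]
    linarith

theorem cop_count (U : ℕ) : (U : ℝ) ^ 2 / 2 ≤
    (((Ioc 0 U ×ˢ Ioc 0 U).filter (fun p : ℕ × ℕ => Nat.Coprime p.1 p.2)).card : ℝ) := by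
  classical
  set S := Ioc 0 U ×ˢ Ioc 0 U with hS
  have hmult : ∀ d : ℕ, 1 ≤ d → ((S.filter (fun p : ℕ × ℕ => d ∣ p.1 ∧ d ∣ p.2)).card : ℝ) ≤
      (U : ℝ) ^ 2 * (1 / (d : ℝ) ^ 2) := by
    intro d hd
    have h1 : S.filter (fun p : ℕ × ℕ => d ∣ p.1 ∧ d ∣ p.2) =
        (Ioc 0 U).filter (fun x => d ∣ x) ×ˢ (Ioc 0 U).filter (fun x => d ∣ x) := by
      ext p
      simp only [hS, mem_filter, mem_product]
      tauto
    rw [h1, card_product, Nat.Ioc_filter_dvd_card_eq_div]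
    have hd0 : (0 : ℝ) < d := by exact_mod_cast hd
    have h2 : ((U / d : ℕ) : ℝ) ≤ U / d := Nat.cast_div_le
    push_cast
    calc ((U / d : ℕ) : ℝ) * ((U / d : ℕ) : ℝ) ≤ (U / d) * (U / d) := by gcongr
      _ = _ := by field_simp
  have hcov : S.filter (fun p : ℕ × ℕ => ¬ Nat.Coprime p.1 p.2) ⊆
      S.filter (fun p : ℕ × ℕ => 2 ∣ p.1 ∧ 2 ∣ p.2) ∪
        (Icc 1 U).biUnion (fun k => S.filter (fun p : ℕ × ℕ => (2 * k + 1) ∣ p.1 ∧ (2 * k + 1) ∣ p.2)) := by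
    intro p hp
    rw [mem_filter] at hp
    obtain ⟨q, hq, hq1, hq2⟩ := Nat.Prime.not_coprime_iff_dvd.mp hp.2
    rw [mem_union, mem_filter, mem_biUnion]
    rcases hq.eq_two_or_odd' with h | h
    · left
      rw [h] at hq1 hq2
      exact ⟨hp.1, hq1, hq2⟩
    · right
      obtain ⟨k, hk⟩ := h
      have hp1 : 0 < p.1 ∧ p.1 ≤ U := by
        have := hp.1
        rw [hS, mem_product, mem_Ioc, mem_Ioc] at this
        exact this.1
      have hqU : q ≤ U := (Nat.le_of_dvd hp1.1 hq1).trans hp1.2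
      have := hq.two_le
      refine ⟨k, ?_, ?_⟩
      · rw [mem_Icc]
        omega
      · rw [mem_filter, ← hk]
        exact ⟨hp.1, hq1, hq2⟩
  have h1 : ((S.filter (fun p : ℕ × ℕ => ¬ Nat.Coprime p.1 p.2)).card : ℝ) ≤
      (U : ℝ) ^ 2 * (1 / 2 ^ 2) + ∑ k ∈ Icc 1 U, (U : ℝ) ^ 2 * (1 / (2 * (k : ℝ) + 1) ^ 2) := by
    have e1 := card_le_card hcov
    have e2 := card_union_le (S.filter (fun p : ℕ × ℕ => 2 ∣ p.1 ∧ 2 ∣ p.2))
        ((Icc 1 U).biUnion (fun k => S.filter (fun p : ℕ × ℕ => (2 * k + 1) ∣ p.1 ∧ (2 * k + 1) ∣ p.2)))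
    have e3 : ((Icc 1 U).biUnion (fun k => S.filter (fun p : ℕ × ℕ => (2 * k + 1) ∣ p.1 ∧
        (2 * k + 1) ∣ p.2))).card ≤
        ∑ k ∈ Icc 1 U, (S.filter (fun p : ℕ × ℕ => (2 * k + 1) ∣ p.1 ∧ (2 * k + 1) ∣ p.2)).card :=
      card_biUnion_le
    have e4 : ((S.filter (fun p : ℕ × ℕ => ¬ Nat.Coprime p.1 p.2)).card : ℝ) ≤
        (S.filter (fun p : ℕ × ℕ => 2 ∣ p.1 ∧ 2 ∣ p.2)).card +
        ∑ k ∈ Icc 1 U, ((S.filter (fun p : ℕ × ℕ => (2 * k + 1) ∣ p.1 ∧ (2 * k + 1) ∣ p.2)).card : ℝ) := by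
      exact_mod_cast e1.trans (e2.trans (by omega))
    refine e4.trans (add_le_add ?_ ?_)
    · have := hmult 2 (by norm_num)
      exact_mod_cast this
    · apply sum_le_sum
      intro k _
      have := hmult (2 * k + 1) (by omega)
      push_cast at this
      exact this
  have h2 : ∑ k ∈ Icc 1 U, (U : ℝ) ^ 2 * (1 / (2 * (k : ℝ) + 1) ^ 2) ≤ (U : ℝ) ^ 2 * (1 / 4) := by
    rw [← mul_sum]
    have := sum_odd U
    have h3 : (0 : ℝ) ≤ 1 / (4 * (U + 1)) := by positivity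
    apply mul_le_mul_of_nonneg_left _ (by positivity)
    linarith
  have h3 : (S.card : ℝ) = (S.filter (fun p : ℕ × ℕ => Nat.Coprime p.1 p.2)).card +
      (S.filter (fun p : ℕ × ℕ => ¬ Nat.Coprime p.1 p.2)).card := by
    exact_mod_cast (card_filter_add_card_filter_not (s := S) _).symm
  have h4 : (S.card : ℝ) = (U : ℝ) ^ 2 := by
    rw [hS, card_product, Nat.card_Ioc, Nat.sub_zero]
    push_cast
    ring
  linarith

/-! ### A trace zero integer -/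

theorem exists_theta (K : Type) [Field K] [NumberField K] (hd : finrank ℚ K = 3) :
    ∃ (a0 b0 : ℤ) (θ0 : K), (∀ r : ℚ, θ0 ≠ algebraMap ℚ K r) ∧ θ0 ^ 3 = a0 * θ0 + b0 := by
  classical
  obtain ⟨w, hw⟩ : ∃ w : K, ∀ r : ℚ, w ≠ algebraMap ℚ K r := by
    by_contra hcon
    push Not at hcon
    have h1 : (⊥ : Subalgebra ℚ K) = ⊤ := by
      rw [eq_top_iff]
      intro x _
      obtain ⟨r, hr⟩ := hcon x
      rw [hr]
      exact Subalgebra.algebraMap_mem _ _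
    have h2 := Subalgebra.bot_eq_top_iff_finrank_eq_one.mp h1
    omega
  have hint : IsIntegral ℚ w := Algebra.IsIntegral.isIntegral w
  have hdeg : (minpoly ℚ w).natDegree = 3 := by
    have h3 : finrank ℚ (IntermediateField.adjoin ℚ {w}) = (minpoly ℚ w).natDegree :=
      IntermediateField.adjoin.finrank hint
    have h4 := Module.finrank_mul_finrank ℚ (IntermediateField.adjoin ℚ {w}) K
    rw [hd, h3] at h4
    have h5 : (minpoly ℚ w).natDegree ∣ 3 := ⟨_, h4.symm⟩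
    rcases (Nat.dvd_prime Nat.prime_three).mp h5 with h6 | h6
    · exfalso
      have h7 : w ∈ (algebraMap ℚ K).range := minpoly.natDegree_eq_one_iff.mp h6
      obtain ⟨r, hr⟩ := h7
      exact hw r hr.symm
    · exact h6
  obtain ⟨c0, c1, c2, hc⟩ : ∃ c0 c1 c2 : ℚ, w ^ 3 = c2 • w ^ 2 + c1 • w + c0 • (1 : K) := by
    have h1 := minpoly.aeval ℚ w
    rw [Polynomial.aeval_eq_sum_range, hdeg] at h1
    have h2 : (minpoly ℚ w).coeff 3 = 1 := by
      have := (minpoly.monic hint).coeff_natDegree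
      rw [hdeg] at this
      exact this
    simp only [sum_range_succ, sum_range_zero, zero_add, h2, one_smul, pow_zero, pow_one] at h1
    refine ⟨-(minpoly ℚ w).coeff 0, -(minpoly ℚ w).coeff 1, -(minpoly ℚ w).coeff 2, ?_⟩
    rw [neg_smul, neg_smul, neg_smul]
    linear_combination h1
  -- a common denominator
  obtain ⟨N, hN, n0, n1, n2, h0, h1, h2⟩ : ∃ N : ℤ, N ≠ 0 ∧ ∃ n0 n1 n2 : ℤ,
      (N : ℚ) * c0 = n0 ∧ (N : ℚ) * c1 = n1 ∧ (N : ℚ) * c2 = n2 := by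
    refine ⟨c0.den * c1.den * c2.den, ?_, c0.num * c1.den * c2.den, c0.den * c1.num * c2.den,
      c0.den * c1.den * c2.num, ?_, ?_, ?_⟩
    · have := c0.den_nz
      have := c1.den_nz
      have := c2.den_nz
      positivity
    · have := Rat.den_mul_eq_num c0
      push_cast
      linear_combination (c1.den : ℚ) * c2.den * this
    · have := Rat.den_mul_eq_num c1
      push_cast
      linear_combination (c0.den : ℚ) * c2.den * this
    · have := Rat.den_mul_eq_num c2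
      push_cast
      linear_combination (c0.den : ℚ) * c1.den * this
  have hNK : (N : K) ≠ 0 := by exact_mod_cast hN
  have hc' : (N : K) ^ 3 * w ^ 3 = N ^ 2 * n2 * w ^ 2 + N ^ 2 * n1 * w + N ^ 2 * n0 := by
    have e0 : (N : K) * algebraMap ℚ K c0 = n0 := by
      have := congrArg (algebraMap ℚ K) h0
      simpa using this
    have e1 : (N : K) * algebraMap ℚ K c1 = n1 := by
      have := congrArg (algebraMap ℚ K) h1
      simpa using this
    have e2 : (N : K) * algebraMap ℚ K c2 = n2 := by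
      have := congrArg (algebraMap ℚ K) h2
      simpa using this
    rw [Algebra.smul_def, Algebra.smul_def, Algebra.smul_def, mul_one] at hc
    linear_combination (N : K) ^ 3 * hc + N ^ 2 * w ^ 2 * e2 + N ^ 2 * w * e1 + N ^ 2 * e0
  -- `α = N w` satisfies `α³ = n₂ α² + N n₁ α + N² n₀`
  set θ : K := 3 * (N * w) - n2 with hθ
  refine ⟨3 * n2 ^ 2 + 9 * (N * n1), 2 * n2 ^ 3 + 9 * (N * n1) * n2 + 27 * (N ^ 2 * n0), θ, ?_, ?_⟩
  · intro r hr
    apply hw ((r + n2) / (3 * N))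
    rw [map_div₀, map_add, map_mul, ← hr, hθ]
    simp only [map_intCast, map_ofNat]
    field_simp
    ring
  · rw [hθ]
    push_cast
    linear_combination 27 * hc'

/-! ### The minimal model -/

theorem exists_minM (a b : ℤ) (hD : DD a b ≠ 0) : ∃ (s : ℕ) (a' b' : ℤ), 1 ≤ s ∧
    a = (s : ℤ) ^ 4 * a' ∧ b = (s : ℤ) ^ 6 * b' ∧ IsMinM a' b' := by
  classical
  have hscale : ∀ (s : ℤ) (a' b' : ℤ), DD (s ^ 4 * a') (s ^ 6 * b') = s ^ 12 * DD a' b' := by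
    intro s a' b'
    unfold DD; ring
  obtain ⟨s, hs, hmax⟩ := Finset.exists_max_image
    ((Icc 1 (DD a b).natAbs).filter (fun s : ℕ => (s : ℤ) ^ 4 ∣ a ∧ (s : ℤ) ^ 6 ∣ b)) id
    ⟨1, by
      rw [mem_filter, mem_Icc]
      exact ⟨⟨le_rfl, Int.natAbs_pos.mpr hD⟩, by simp, by simp⟩⟩
  rw [mem_filter, mem_Icc] at hs
  obtain ⟨⟨hs1, -⟩, ⟨a', ha'⟩, ⟨b', hb'⟩⟩ := hs
  refine ⟨s, a', b', hs1, ha', hb', ?_, ?_⟩
  · intro h0
    apply hD
    rw [ha', hb', hscale, h0, mul_zero]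
  · intro u a'' b'' hu ha hb
    have hD' : DD a' b' ≠ 0 := by
      intro h0
      apply hD
      rw [ha', hb', hscale, h0, mul_zero]
    -- the denominator of `u` is one
    set t : ℕ := u.den with ht
    have ht0 : (t : ℤ) ≠ 0 := by
      have := u.den_nz
      exact_mod_cast this
    have ht0Q : (t : ℚ) ≠ 0 := by exact_mod_cast ht0
    have hut : u = (u.num : ℚ) / t := (Rat.num_div_den u).symm
    have e4 : a'' * (t : ℤ) ^ 4 = u.num ^ 4 * a' := by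
      rw [hut, div_pow, div_mul_eq_mul_div, eq_div_iff (pow_ne_zero _ ht0Q)] at ha
      exact_mod_cast ha
    have e6 : b'' * (t : ℤ) ^ 6 = u.num ^ 6 * b' := by
      rw [hut, div_pow, div_mul_eq_mul_div, eq_div_iff (pow_ne_zero _ ht0Q)] at hb
      exact_mod_cast hb
    have hcop : IsCoprime (t : ℤ) u.num := by
      rw [Int.isCoprime_iff_gcd_eq_one, Int.gcd_comm]
      have := u.reduced
      rw [Int.gcd, Int.natAbs_natCast]
      exact this
    have d4 : (t : ℤ) ^ 4 ∣ a' :=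
      (hcop.pow (m := 4) (n := 4)).dvd_of_dvd_mul_left ⟨a'', by rw [← e4]; ring⟩
    have d6 : (t : ℤ) ^ 6 ∣ b' :=
      (hcop.pow (m := 6) (n := 6)).dvd_of_dvd_mul_left ⟨b'', by rw [← e6]; ring⟩
    have ht1 : t = 1 := by
      obtain ⟨a1, ha1⟩ := d4
      obtain ⟨b1, hb1⟩ := d6
      have htp : 1 ≤ t := u.den_pos
      have hst : s * t ∈ (Icc 1 (DD a b).natAbs).filter
          (fun s : ℕ => (s : ℤ) ^ 4 ∣ a ∧ (s : ℤ) ^ 6 ∣ b) := by
        rw [mem_filter, mem_Icc]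
        have ea : a = ((s * t : ℕ) : ℤ) ^ 4 * a1 := by
          rw [ha', ha1]; push_cast; ring
        have eb : b = ((s * t : ℕ) : ℤ) ^ 6 * b1 := by
          rw [hb', hb1]; push_cast; ring
        refine ⟨⟨Nat.mul_pos hs1 htp, ?_⟩, ⟨a1, ea⟩, ⟨b1, eb⟩⟩
        have h1 : (((s * t : ℕ) : ℤ)) ^ 12 ∣ DD a b := ⟨DD a1 b1, by
          conv_lhs => rw [ea, eb]
          rw [hscale]⟩
        have h2 : ((s * t) ^ 12 : ℕ) ∣ (DD a b).natAbs := by
          rw [← Int.natCast_dvd]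
          exact_mod_cast h1
        exact (Nat.le_self_pow (by norm_num) _).trans (Nat.le_of_dvd (Int.natAbs_pos.mpr hD) h2)
      have h1 := hmax _ hst
      simp only [id] at h1
      have h2 : s * t ≤ s * 1 := by rw [mul_one]; exact h1
      have := Nat.le_of_mul_le_mul_left h2 hs1
      omega
    rw [ht1] at e4 e6
    have ea : a'' = u.num ^ 4 * a' := by rw [← e4]; ring
    have eb : b'' = u.num ^ 6 * b' := by rw [← e6]; ring
    rw [ea, eb, hscale, abs_mul]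
    have hn : u.num ≠ 0 := Rat.num_ne_zero.mpr hu
    have h1 : (1 : ℤ) ≤ |u.num ^ 12| := Int.one_le_abs (pow_ne_zero _ hn)
    exact le_mul_of_one_le_left (abs_nonneg _) h1

/-! ### The conductor -/

theorem identD (a0 b0 U V : ℤ) : DD (Fa a0 b0 U V) (Fb a0 b0 U V) =
    (4 * a0 ^ 3 - 27 * b0 ^ 2) * (G (9 * a0) (27 * b0) U V) ^ 2 := by
  unfold DD Fa Fb G; ring

theorem common (a0 b0 u v : ℤ) (h : IsCoprime u v) (d : ℤ) (h1 : d ∣ Fa a0 b0 u v)
    (h2 : d ∣ Fb a0 b0 u v) : d ∣ (4 * a0 ^ 3 - 27 * b0 ^ 2) ^ 2 := by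
  have e1 : (4 * a0 ^ 3 - 27 * b0 ^ 2) ^ 2 * v ^ 4 =
      ((-3 * b0 ^ 2) * u ^ 2 + (-4 * a0 ^ 2 * b0) * (u * v) + (4 * a0 ^ 4 - 36 * a0 * b0 ^ 2) * v ^ 2)
        * Fa a0 b0 u v + ((3 * a0 * b0) * u + (-2 * a0 ^ 3 + 27 * b0 ^ 2) * v) * Fb a0 b0 u v := by
    unfold Fa Fb; ring
  have e2 : (4 * a0 ^ 3 - 27 * b0 ^ 2) ^ 2 * u ^ 4 =
      ((16 * a0 ^ 5 - 135 * a0 ^ 2 * b0 ^ 2) * u ^ 2 + (36 * a0 ^ 4 * b0 - 486 * a0 * b0 ^ 3) * (u * v) +
        (-12 * a0 ^ 6 + 324 * a0 ^ 3 * b0 ^ 2 - 2187 * b0 ^ 4) * v ^ 2) * Fa a0 b0 u v +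
      ((-81 * a0 ^ 3 * b0 + 729 * b0 ^ 3) * u + (-18 * a0 ^ 5 + 243 * a0 ^ 2 * b0 ^ 2) * v) *
        Fb a0 b0 u v := by
    unfold Fa Fb; ring
  obtain ⟨x, y, hxy⟩ := (h.pow (m := 4) (n := 4))
  have e3 : (4 * a0 ^ 3 - 27 * b0 ^ 2) ^ 2 = x * ((4 * a0 ^ 3 - 27 * b0 ^ 2) ^ 2 * u ^ 4) +
      y * ((4 * a0 ^ 3 - 27 * b0 ^ 2) ^ 2 * v ^ 4) := by
    linear_combination (-(4 * a0 ^ 3 - 27 * b0 ^ 2) ^ 2) * hxy
  rw [e3, e1, e2]
  exact dvd_add (Dvd.dvd.mul_left (dvd_add (Dvd.dvd.mul_left h1 _) (Dvd.dvd.mul_left h2 _)) _)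
    (Dvd.dvd.mul_left (dvd_add (Dvd.dvd.mul_left h1 _) (Dvd.dvd.mul_left h2 _)) _)

theorem cond_upper (a0 b0 u v a' b' : ℤ) (s : ℕ) (hD : 4 * a0 ^ 3 - 27 * b0 ^ 2 ≠ 0)
    (h : IsCoprime u v) (hG : G (9 * a0) (27 * b0) u v ≠ 0) (ha : Fa a0 b0 u v = (s : ℤ) ^ 4 * a')
    (hb : Fb a0 b0 u v = (s : ℤ) ^ 6 * b') :
    Pool.Agent.W4.CF.condM a' b' ≤ (4 * a0 ^ 3 - 27 * b0 ^ 2).natAbs ^ 2 * (G (9 * a0) (27 * b0) u v).natAbs := by
  classical
  set D : ℤ := 4 * a0 ^ 3 - 27 * b0 ^ 2 with hDdef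
  set g : ℤ := G (9 * a0) (27 * b0) u v with hg
  have hDD : (s : ℤ) ^ 12 * DD a' b' = D * g ^ 2 := by
    rw [hDdef, hg, ← identD, ha, hb]
    unfold DD; ring
  unfold Pool.Agent.W4.CF.condM
  set Q := (DD a' b').natAbs.primeFactors.filter (fun p => 5 ≤ p) with hQ
  have hkey : ∀ p ∈ Q, p.Prime ∧ ((p : ℤ) ∣ D ∨ ((p : ℤ) ∣ g ∧ ¬ (p : ℤ) ∣ a')) := by
    intro p hp
    rw [hQ, mem_filter] at hp
    have hpp := Nat.prime_of_mem_primeFactors hp.1
    have hpz : Prime (p : ℤ) := Nat.prime_iff_prime_int.1 hpp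
    refine ⟨hpp, ?_⟩
    by_cases hpD : (p : ℤ) ∣ D
    · exact Or.inl hpD
    right
    have hpd : (p : ℤ) ∣ DD a' b' := Int.natCast_dvd.mpr (Nat.dvd_of_mem_primeFactors hp.1)
    have h1 : (p : ℤ) ∣ D * g ^ 2 := by
      rw [← hDD]; exact Dvd.dvd.mul_left hpd _
    have h2 : (p : ℤ) ∣ g := hpz.dvd_of_dvd_pow ((hpz.dvd_or_dvd h1).resolve_left hpD)
    refine ⟨h2, fun h3 => hpD ?_⟩
    have h4 : (p : ℤ) ∣ 27 * b' ^ 2 := by
      have e : 27 * b' ^ 2 = 4 * a' ^ 3 - DD a' b' := by unfold DD; ring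
      rw [e]
      exact dvd_sub (Dvd.dvd.mul_left (Dvd.dvd.pow h3 (by norm_num)) _) hpd
    have h5 : ¬ (p : ℤ) ∣ 27 := by
      intro h6
      have h7 : (p : ℤ) ∣ 3 := by
        have : (27 : ℤ) = 3 ^ 3 := by norm_num
        rw [this] at h6
        exact hpz.dvd_of_dvd_pow h6
      have h8 : p ∣ 3 := by exact_mod_cast h7
      have := Nat.le_of_dvd (by norm_num) h8
      omega
    have h6 : (p : ℤ) ∣ b' := hpz.dvd_of_dvd_pow ((hpz.dvd_or_dvd h4).resolve_left h5)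
    have h7 := common a0 b0 u v h p (by rw [ha]; exact Dvd.dvd.mul_left h3 _)
      (by rw [hb]; exact Dvd.dvd.mul_left h6 _)
    exact hpz.dvd_of_dvd_pow h7
  have hsplit : (∏ p ∈ Q, if (p : ℤ) ∣ a' then p ^ 2 else p) =
      (∏ p ∈ Q.filter (fun p : ℕ => (p : ℤ) ∣ D), if (p : ℤ) ∣ a' then p ^ 2 else p) *
      (∏ p ∈ Q.filter (fun p : ℕ => ¬ (p : ℤ) ∣ D), if (p : ℤ) ∣ a' then p ^ 2 else p) :=
    (prod_filter_mul_prod_filter_not _ _ _).symm
  rw [hsplit]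
  have hD0 : D.natAbs ≠ 0 := Int.natAbs_ne_zero.mpr hD
  have hg0 : g.natAbs ≠ 0 := Int.natAbs_ne_zero.mpr hG
  have h1 : (∏ p ∈ Q.filter (fun p : ℕ => (p : ℤ) ∣ D), if (p : ℤ) ∣ a' then p ^ 2 else p) ≤
      D.natAbs ^ 2 := by
    calc _ ≤ ∏ p ∈ Q.filter (fun p : ℕ => (p : ℤ) ∣ D), p ^ 2 := by
          apply prod_le_prod' 
          intro p hp
          rw [mem_filter] at hp
          split_ifs
          · exact le_rfl
          · exact Nat.le_self_pow (by norm_num) p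
      _ = (∏ p ∈ Q.filter (fun p : ℕ => (p : ℤ) ∣ D), p) ^ 2 := by rw [← prod_pow]
      _ ≤ (∏ p ∈ D.natAbs.primeFactors, p) ^ 2 := by
          apply Nat.pow_le_pow_left
          apply prod_le_prod_of_subset_of_one_le'
          · intro p hp
            rw [mem_filter] at hp
            rw [Nat.mem_primeFactors]
            exact ⟨(hkey p hp.1).1, Int.natCast_dvd.mp hp.2, hD0⟩
          · intro p hp _
            exact (Nat.prime_of_mem_primeFactors hp).one_lt.le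
      _ ≤ D.natAbs ^ 2 := Nat.pow_le_pow_left
          (Nat.le_of_dvd (Nat.pos_of_ne_zero hD0) (Nat.prod_primeFactors_dvd _)) 2
  have h2 : (∏ p ∈ Q.filter (fun p : ℕ => ¬ (p : ℤ) ∣ D), if (p : ℤ) ∣ a' then p ^ 2 else p) ≤
      g.natAbs := by
    calc _ = ∏ p ∈ Q.filter (fun p : ℕ => ¬ (p : ℤ) ∣ D), p := by
          apply prod_congr rfl
          intro p hp
          rw [mem_filter] at hp
          have := (hkey p hp.1).2.resolve_left hp.2
          rw [if_neg this.2]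
      _ ≤ ∏ p ∈ g.natAbs.primeFactors, p := by
          apply prod_le_prod_of_subset_of_one_le'
          · intro p hp
            rw [mem_filter] at hp
            have := (hkey p hp.1).2.resolve_left hp.2
            rw [Nat.mem_primeFactors]
            exact ⟨(hkey p hp.1).1, Int.natCast_dvd.mp this.1, hg0⟩
          · intro p hp _
            exact (Nat.prime_of_mem_primeFactors hp).one_lt.le
      _ ≤ g.natAbs := Nat.le_of_dvd (Nat.pos_of_ne_zero hg0) (Nat.prod_primeFactors_dvd _)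
  exact Nat.mul_le_mul h1 h2

end Pool.Agent.H460.CF
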