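import Pool.Agent.H460.CF.Base

/-!
# The incidence argument

Pairs `(u, v)` whose norm form `G` is a product of two coprime factors with radicals at most `R₂`
and `R₁`.
-/

set_option autoImplicit false

namespace Pool.Agent.H460.CF

open NumberField Finset Pool.Agent.W4.CF Pool.Agent.W4.CF.PB Pool.Agent.H460.ST

/-- the size of the form -/
theorem G_le (A B u v : ℤ) (Y : ℝ) (hY : 0 ≤ Y) (hu : |(u : ℝ)| ≤ Y) (hv : |(v : ℝ)| ≤ Y) :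
    |((G A B u v : ℤ) : ℝ)| ≤ (1 + |(A : ℝ)| + |(B : ℝ)|) * Y ^ 3 := by
  unfold G
  push_cast
  calc |(u : ℝ) ^ 3 - A * u * v ^ 2 - B * v ^ 3| ≤
        |(u : ℝ) ^ 3| + |(A : ℝ) * u * v ^ 2| + |(B : ℝ) * v ^ 3| := by
        refine (abs_sub _ _).trans ?_
        gcongr
        exact abs_sub _ _
    _ = |(u : ℝ)| ^ 3 + |(A : ℝ)| * |(u : ℝ)| * |(v : ℝ)| ^ 2 + |(B : ℝ)| * |(v : ℝ)| ^ 3 := by
        simp only [abs_mul, abs_pow]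
    _ ≤ Y ^ 3 + |(A : ℝ)| * Y * Y ^ 2 + |(B : ℝ)| * Y ^ 3 := by gcongr
    _ = _ := by ring

/-- real form of the incidence bound -/
theorem st_real {n S a b : ℕ} (h1 : S ≤ n + b)
    (h2 : n ≤ 8 * a ∨ (n : ℝ) ^ 3 ≤ 128 * (a : ℝ) ^ 2 * (b : ℝ) ^ 2) (Aa Bb : ℝ)
    (ha : (a : ℝ) ≤ Aa) (hb : (b : ℝ) ≤ Bb) :
    (S : ℝ) ≤ 8 * ((Aa * Bb) ^ ((2 : ℝ) / 3) + Aa + Bb) := by
  have ha0 : (0 : ℝ) ≤ a := Nat.cast_nonneg _
  have hb0 : (0 : ℝ) ≤ b := Nat.cast_nonneg _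
  have hA0 : 0 ≤ Aa := ha0.trans ha
  have hB0 : 0 ≤ Bb := hb0.trans hb
  have h1' : (S : ℝ) ≤ n + b := by exact_mod_cast h1
  have hP0 : 0 ≤ (Aa * Bb) ^ ((2 : ℝ) / 3) := by positivity
  rcases h2 with h | h
  · have : (n : ℝ) ≤ 8 * a := by exact_mod_cast h
    linarith
  · have h3 : (n : ℝ) ^ 3 ≤ (8 * (Aa * Bb) ^ ((2 : ℝ) / 3)) ^ 3 := by
      have e : ((Aa * Bb) ^ ((2 : ℝ) / 3)) ^ 3 = (Aa * Bb) ^ 2 := by
        rw [← Real.rpow_natCast, ← Real.rpow_mul (by positivity), ← Real.rpow_natCast]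
        norm_num
      rw [mul_pow, e]
      calc (n : ℝ) ^ 3 ≤ 128 * (a : ℝ) ^ 2 * (b : ℝ) ^ 2 := h
        _ ≤ 128 * Aa ^ 2 * Bb ^ 2 := by gcongr
        _ ≤ 8 ^ 3 * (Aa * Bb) ^ 2 := by
            have : 0 ≤ (Aa * Bb) ^ 2 := by positivity
            nlinarith
    have h4 : (n : ℝ) ≤ 8 * (Aa * Bb) ^ ((2 : ℝ) / 3) :=
      le_of_pow_le_pow_left₀ (by norm_num) (by positivity) h3
    linarith

/-- the data attached to a pair -/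
theorem core1 (K : Type) [Field K] [NumberField K] (ρ : 𝓞 K) (A B : ℤ) (i : ℕ)
    (hC : Cub K ρ A B) (hI : Idx K ρ i) :
    ∃ (E : ℕ) (C1 C2 C3 : ℝ) (dl : Ideal (𝓞 K) → 𝓞 K) (L : K →ₗ[ℚ] ℚ), 1 ≤ E ∧ 1 ≤ C1 ∧ 0 < C2 ∧
      1 ≤ C3 ∧ L ≠ 0 ∧ (∀ u v : ℤ, L ((u : K) - v * (ρ : K)) = 0) ∧
      ∀ (Y : ℝ) (u v : ℤ) (c z : ℕ), 1 ≤ Y → IsCoprime u v → |(u : ℝ)| ≤ Y → |(v : ℝ)| ≤ Y →
        1 ≤ c → 1 ≤ z → Nat.Coprime z (i * c) → (G A B u v).natAbs = c * z →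
        ∃ (I J : Ideal (𝓞 K)) (e : ℕ) (τ : 𝓞 K), Ideal.absNorm I = c ∧ Ideal.absNorm J = z ∧
          1 ≤ e ∧ e ≤ E ∧ τ ∈ I ∧ τ ≠ 0 ∧
          ((Algebra.norm ℤ τ).natAbs : ℝ) ≤ C2 * (Ideal.absNorm I : ℝ) ∧
          (∀ σ : K →+* ℂ, ‖σ (τ : K)‖ ≤ C3 * Y) ∧ L ((τ : K) * (dl J : K)) = 0 ∧ dl J ≠ 0 ∧
          (e : K) * ((u : K) - v * (ρ : K)) = (dl J : K) * (τ : K) ∧
          (∀ σ : K →+* ℂ, ‖σ (dl J : K)‖ ≤ C1 * (z : ℝ) ^ ((1 : ℝ) / 3)) := by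
  classical
  have hd : Module.finrank ℚ K = 3 := hC.1
  obtain ⟨C1, hC1, hmink⟩ := Pool.Agent.W721.CF.t_MINK K
  obtain ⟨L, hL0, hL⟩ := Pool.Agent.W721.CF.t_LIN K ρ A B hC
  let Mr : ℝ := ∑ σ : K →+* ℂ, ‖σ (ρ : K)‖
  have hMr : ∀ σ : K →+* ℂ, ‖σ (ρ : K)‖ ≤ Mr := fun σ =>
    Finset.single_le_sum (f := fun σ : K →+* ℂ => ‖σ (ρ : K)‖) (fun _ _ => norm_nonneg _)
      (Finset.mem_univ σ)
  have hMr0 : 0 ≤ Mr := Finset.sum_nonneg fun _ _ => norm_nonneg _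
  let E : ℕ := ⌊C1 ^ 3⌋₊
  have hE1 : 1 ≤ E := Nat.le_floor (by
    push_cast
    exact one_le_pow₀ hC1)
  have hE1' : (1 : ℝ) ≤ E := by exact_mod_cast hE1
  let C2 : ℝ := (E : ℝ) ^ 2
  have hC2 : 0 < C2 := by positivity
  let C3 : ℝ := (E : ℝ) * (1 + Mr) * (C1 ^ 2)
  have hC3 : 1 ≤ C3 := by
    have a2 : (1 : ℝ) ≤ C1 ^ 2 := one_le_pow₀ hC1
    have a3 : (1 : ℝ) ≤ (E : ℝ) * (1 + Mr) := by nlinarith
    nlinarith
  have hdl : ∀ J : Ideal (𝓞 K), ∃ δ : 𝓞 K, J ≠ ⊥ → (δ ∈ J ∧ δ ≠ 0 ∧ ∀ σ : K →+* ℂ,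
      ‖σ (δ : K)‖ ≤ C1 * (Ideal.absNorm J : ℝ) ^ ((1 : ℝ) / Module.finrank ℚ K)) := by
    intro J
    by_cases hJ : J = ⊥
    · exact ⟨0, fun h => absurd hJ h⟩
    · obtain ⟨δ, h1, h2, h3⟩ := hmink J hJ
      exact ⟨δ, fun _ => ⟨h1, h2, h3⟩⟩
  choose dl hdl using hdl
  refine ⟨E, C1, C2, C3, dl, L, hE1, hC1, hC2, hC3, hL0, hL, ?_⟩
  intro Y u v c z hY hcop hu hv hc hz hzc hG
  obtain ⟨I, J, hI', hJ, hIJ⟩ := Pool.Agent.W762.CF.t_IDEAL K ρ A B i hC hI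
    (Pool.Agent.W721.CF.t_NRM K ρ A B hC) u v c z 1 hcop hc hz le_rfl hzc (by rw [pow_one]; exact hG)
  have hJ0 : J ≠ ⊥ := by
    rintro rfl
    rw [Ideal.absNorm_bot] at hJ
    omega
  obtain ⟨hδ, hδ0, hδσ⟩ := hdl J hJ0
  rw [hJ, hd] at hδσ
  obtain ⟨e, τ, he, hNδ, hτ, hτ0, hNτ, hrel⟩ := alg hd hc I J hI' hJ hIJ (dl J) hδ hδ0
  obtain ⟨he3, hlow⟩ := size hd hC1 hz he (dl J) hNδ (by exact_mod_cast hδσ)
  have heE : e ≤ E := Nat.le_floor he3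
  have heE' : (e : ℝ) ≤ E := by exact_mod_cast heE
  have he' : (1 : ℝ) ≤ e := by exact_mod_cast he
  have hrelK : (e : K) * ((u : K) - v * (ρ : K)) = (dl J : K) * (τ : K) := by
    have := congrArg (fun x : 𝓞 K => (x : K)) hrel
    simpa using this
  refine ⟨I, J, e, τ, hI', hJ, he, heE, hτ, hτ0, ?_, ?_, ?_, hδ0, hrelK, by exact_mod_cast hδσ⟩
  · rw [hNτ, hI', mul_one]
    push_cast
    exact mul_le_mul_of_nonneg_right (pow_le_pow_left₀ (by positivity) heE' _) (by positivity)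
  · intro σ
    have g1 := congrArg (fun x => ‖σ x‖) hrelK
    simp only [map_mul, norm_mul, map_natCast, Complex.norm_natCast] at g1
    have g2 : ‖σ ((u : K) - v * (ρ : K))‖ ≤ (1 + Mr) * Y := by
      rw [map_sub, map_mul, map_intCast, map_intCast]
      refine (norm_sub_le _ _).trans ?_
      rw [norm_mul, Complex.norm_intCast, Complex.norm_intCast]
      have := mul_le_mul hv (hMr σ) (norm_nonneg _) (by linarith)
      nlinarith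
    have g3 : (1 : ℝ) ≤ C1 ^ 2 * ‖σ (dl J : K)‖ := hlow σ
    calc ‖σ (τ : K)‖ ≤ ‖σ (τ : K)‖ * (C1 ^ 2 * ‖σ (dl J : K)‖) :=
          le_mul_of_one_le_right (norm_nonneg _) g3
      _ = C1 ^ 2 * (‖σ (dl J : K)‖ * ‖σ (τ : K)‖) := by ring
      _ = C1 ^ 2 * ((e : ℝ) * ‖σ ((u : K) - v * (ρ : K))‖) := by rw [g1]
      _ ≤ C1 ^ 2 * ((E : ℝ) * ((1 + Mr) * Y)) := by gcongr
      _ = C3 * Y := by
        simp only [C3]
        ring
  · rw [mul_comm, ← hrelK]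
    have : (e : K) * ((u : K) - v * (ρ : K)) = (e : ℚ) • ((u : K) - v * (ρ : K)) := by
      rw [Algebra.smul_def]
      simp
    rw [this, map_smul, hL, smul_zero]

/-- the incidence bound in one half plane -/
theorem med_half (K : Type) [Field K] [NumberField K] (ρ : 𝓞 K) (A B : ℤ) (i : ℕ)
    (hC : Cub K ρ A B) (hI : Idx K ρ i) (ε : ℝ) (hε : 0 < ε) : ∃ C : ℝ, 0 < C ∧
    ∀ (m : ℕ) (Y R1 R2 : ℝ), 1 ≤ m → 1 ≤ Y → 0 ≤ R1 → 0 ≤ R2 → ∀ s : Finset (ℤ × ℤ),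
      (∀ p ∈ s, ∀ p' ∈ s, Hf p ↔ Hf p') →
      (∀ p ∈ s, IsCoprime p.1 p.2 ∧ |(p.1 : ℝ)| ≤ Y ∧ |(p.2 : ℝ)| ≤ Y ∧ ∃ c z : ℕ, 1 ≤ c ∧ 1 ≤ z ∧
        Nat.Coprime z (i * c) ∧ (G A B p.1 p.2).natAbs = c * z ∧ (radp m c : ℝ) ≤ R2 ∧
        (radp m z : ℝ) ≤ R1) →
      (s.card : ℝ) ≤ C * ((m : ℝ) * Y) ^ ε * ((R1 * R2) ^ ((2 : ℝ) / 3) + R1 + R2) := by
  classical
  have hd : Module.finrank ℚ K = 3 := hC.1
  obtain ⟨E, C1, C2, C3, dl, L, hE, hC1, hC2, hC3, hL0, hL, hcore⟩ := core1 K ρ A B i hC hI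
  obtain ⟨b, -, -, -⟩ := coord3 hd
  set ε' : ℝ := ε / 12 with hε'
  have hε'0 : 0 < ε' := by positivity
  obtain ⟨D1, hD1, hidl⟩ := idl K ε' hε'0
  obtain ⟨D2, hD2, htau⟩ := Pool.Agent.W230.CF.t_TAU K C2 ε' hC2 hε'0
  set G0 : ℝ := 1 + |(A : ℝ)| + |(B : ℝ)| with hG0
  have hG01 : 1 ≤ G0 := by
    have := abs_nonneg (A : ℝ)
    have := abs_nonneg (B : ℝ)
    rw [hG0]; linarith
  set c1 : ℝ := max 1 (max (D1 * G0 ^ ε') (D1 * G0 ^ ε' * (D2 * C3 ^ ε'))) with hc1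
  have hc11 : 1 ≤ c1 := le_max_left _ _
  refine ⟨8 * c1 ^ 2, by positivity, ?_⟩
  intro m Y R1 R2 hm hY hR1 hR2 s hhalf hs
  have hm' : (1 : ℝ) ≤ m := by exact_mod_cast hm
  have hmY : (1 : ℝ) ≤ m * Y := by nlinarith
  choose! cc zz hcc using fun p hp => (hs p hp).2.2.2
  have hdat := fun p hp => hcore Y p.1 p.2 (cc p) (zz p) hY (hs p hp).1 (hs p hp).2.1
    (hs p hp).2.2.1 (hcc p hp).1 (hcc p hp).2.1 (hcc p hp).2.2.1 (hcc p hp).2.2.2.1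
  choose! I J e τ hdat using hdat
  set N : ℕ := ⌊G0 * Y ^ 3⌋₊ with hN
  have hN1 : 1 ≤ N := by
    rw [hN]
    apply Nat.le_floor
    push_cast
    have : (1 : ℝ) ≤ Y ^ 3 := one_le_pow₀ hY
    nlinarith
  have hNr : (N : ℝ) ≤ G0 * Y ^ 3 := Nat.floor_le (by positivity)
  have hczN : ∀ p ∈ s, cc p ≤ N ∧ zz p ≤ N := by
    intro p hp
    have h1 := G_le A B p.1 p.2 Y (by linarith) (hs p hp).2.1 (hs p hp).2.2.1
    have h2 : ((cc p * zz p : ℕ) : ℝ) ≤ G0 * Y ^ 3 := by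
      rw [← (hcc p hp).2.2.2.1, Nat.cast_natAbs, Int.cast_abs]
      exact h1
    have h3 : cc p * zz p ≤ N := Nat.le_floor h2
    have h4 := (hcc p hp).1
    have h5 := (hcc p hp).2.1
    constructor
    · exact (Nat.le_mul_of_pos_right _ h5).trans h3
    · exact (Nat.le_mul_of_pos_left _ h4).trans h3
  set T : ℝ := ((m : ℝ) * Y) ^ (3 * ε') with hT
  have hT1 : 1 ≤ T := Real.one_le_rpow hmY (by positivity)
  have hmN : ((m : ℝ) * N) ^ ε' ≤ G0 ^ ε' * T := by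
    calc ((m : ℝ) * N) ^ ε' ≤ (G0 * ((m : ℝ) * Y) ^ 3) ^ ε' := by
          apply Real.rpow_le_rpow (by positivity) _ hε'0.le
          calc (m : ℝ) * N ≤ m * (G0 * Y ^ 3) := by gcongr
            _ = G0 * (m * Y ^ 3) := by ring
            _ ≤ G0 * ((m : ℝ) ^ 3 * Y ^ 3) := by
                have : (m : ℝ) ≤ (m : ℝ) ^ 3 := le_self_pow₀ hm' (by norm_num)
                gcongr
            _ = _ := by ring
      _ = G0 ^ ε' * T := by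
          rw [Real.mul_rpow (by positivity) (by positivity), hT, ← Real.rpow_natCast,
            ← Real.rpow_mul (by positivity)]
          norm_num
  have hC3Y : (C3 * Y) ^ ε' ≤ C3 ^ ε' * T := by
    rw [Real.mul_rpow (by linarith) (by linarith)]
    have h1 : Y ^ ε' ≤ ((m : ℝ) * Y) ^ (3 * ε') := by
      calc Y ^ ε' ≤ ((m : ℝ) * Y) ^ ε' := by
            apply Real.rpow_le_rpow (by linarith) _ hε'0.le
            exact le_mul_of_one_le_left (by linarith) hm'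
        _ ≤ ((m : ℝ) * Y) ^ (3 * ε') := by
            apply Real.rpow_le_rpow_of_exponent_le hmY
            linarith
    gcongr
  have hJ : ((s.image J).card : ℝ) ≤ c1 * T ^ 2 * R1 := by
    have h1 := hidl m N R1 hm hN1 hR1 (s.image J) (by
      intro J' hJ'
      obtain ⟨p, hp, rfl⟩ := mem_image.mp hJ'
      rw [(hdat p hp).2.1]
      exact ⟨(hcc p hp).2.1, (hczN p hp).2, (hcc p hp).2.2.2.2.2⟩)
    calc ((s.image J).card : ℝ) ≤ D1 * ((m : ℝ) * N) ^ ε' * R1 := h1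
      _ ≤ D1 * (G0 ^ ε' * T) * R1 := by gcongr
      _ = (D1 * G0 ^ ε') * T * R1 := by ring
      _ ≤ c1 * T ^ 2 * R1 := by
          have h2 : D1 * G0 ^ ε' ≤ c1 := (le_max_left _ _).trans (le_max_right _ _)
          have h3 : T ≤ T ^ 2 := le_self_pow₀ hT1 (by norm_num)
          gcongr
  have hIc : ((s.image I).card : ℝ) ≤ D1 * (G0 ^ ε' * T) * R2 := by
    have h1 := hidl m N R2 hm hN1 hR2 (s.image I) (by
      intro J' hJ'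
      obtain ⟨p, hp, rfl⟩ := mem_image.mp hJ'
      rw [(hdat p hp).1]
      exact ⟨(hcc p hp).1, (hczN p hp).1, (hcc p hp).2.2.2.2.1⟩)
    calc ((s.image I).card : ℝ) ≤ D1 * ((m : ℝ) * N) ^ ε' * R2 := h1
      _ ≤ D1 * (G0 ^ ε' * T) * R2 := by gcongr
  have hτc : ((s.image τ).card : ℝ) ≤ c1 * T ^ 2 * R2 := by
    have h1 : s.image τ ⊆ (s.image I).biUnion (fun I0 => (s.filter (fun p => I p = I0)).image τ) := by
      intro τ0 hτ0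
      obtain ⟨p, hp, rfl⟩ := mem_image.mp hτ0
      rw [mem_biUnion]
      exact ⟨I p, mem_image_of_mem _ hp, mem_image_of_mem _ (mem_filter.mpr ⟨hp, rfl⟩)⟩
    have h2 : ((s.image τ).card : ℝ) ≤
        ∑ I0 ∈ s.image I, (((s.filter (fun p => I p = I0)).image τ).card : ℝ) := by
      exact_mod_cast (card_le_card h1).trans card_biUnion_le
    have h3 : ∀ I0 ∈ s.image I, (((s.filter (fun p => I p = I0)).image τ).card : ℝ) ≤
        D2 * (C3 * Y) ^ ε' := by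
      intro I0 hI0
      obtain ⟨p0, hp0, rfl⟩ := mem_image.mp hI0
      apply htau (I p0) _ (C3 * Y) (by nlinarith)
      · intro τ0 hτ0
        obtain ⟨p, hp, rfl⟩ := mem_image.mp hτ0
        rw [mem_filter] at hp
        obtain ⟨h1, h2, h3, h4, h5, h6, h7, h8, h9⟩ := hdat p hp.1
        rw [← hp.2]
        exact ⟨h5, h6, h7, h8⟩
      · intro h0
        have h1 := (hdat p0 hp0).1
        rw [h0, Ideal.absNorm_bot] at h1
        have := (hcc p0 hp0).1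
        omega
    calc ((s.image τ).card : ℝ) ≤ _ := h2
      _ ≤ ∑ _I0 ∈ s.image I, D2 * (C3 * Y) ^ ε' := sum_le_sum h3
      _ = (s.image I).card * (D2 * (C3 * Y) ^ ε') := by rw [sum_const, nsmul_eq_mul]
      _ ≤ (D1 * (G0 ^ ε' * T) * R2) * (D2 * (C3 ^ ε' * T)) := by gcongr
      _ = (D1 * G0 ^ ε' * (D2 * C3 ^ ε')) * T ^ 2 * R2 := by ring
      _ ≤ c1 * T ^ 2 * R2 := by
          have h2 : D1 * G0 ^ ε' * (D2 * C3 ^ ε') ≤ c1 := (le_max_right _ _).trans (le_max_right _ _)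
          gcongr
  obtain ⟨n, hn1, hn2⟩ := proj s (s.image J) (s.image τ) J τ (fun J => xv b (dl J))
    (fun τ => yv b L (τ : K)) (fun p hp => mem_image_of_mem _ hp) (fun p hp => mem_image_of_mem _ hp)
    (fun p hp => xv_ne b (hdat p hp).2.2.2.2.2.2.2.2.2.1)
    (fun p hp => yv_ne b L hL0 (by
      have := (hdat p hp).2.2.2.2.2.1
      exact_mod_cast this))
    (fun p hp => by
      rw [dt_xy]
      exact (hdat p hp).2.2.2.2.2.2.2.2.1)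
    (fun p hp p' hp' h1 h2 => by
      have d := hdat p hp
      have d' := hdat p' hp'
      obtain ⟨q1, hq1⟩ := xv_par b d.2.2.2.2.2.2.2.2.2.1 h1
      have hτ0 : ((τ p : 𝓞 K) : K) ≠ 0 := by
        have := d.2.2.2.2.2.1
        exact_mod_cast this
      obtain ⟨q2, hq2⟩ := yv_par b L hL0 hτ0 h2
      have r1 := d.2.2.2.2.2.2.2.2.2.2.1
      have r2 := d'.2.2.2.2.2.2.2.2.2.2.1
      rw [hq1, hq2] at r2
      have he' : ((e p' : ℕ) : ℚ) ≠ 0 := by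
        have := d'.2.2.1
        have : e p' ≠ 0 := by omega
        exact_mod_cast this
      apply pair_eq hC.2.1 (hs p hp).1 (hs p' hp').1 (q1 * q2 * e p / e p') _ (hhalf p hp p' hp')
      have he'K : ((e p' : ℕ) : K) ≠ 0 := by
        have := d'.2.2.1
        have : e p' ≠ 0 := by omega
        exact_mod_cast this
      have h3 : ((e p' : ℕ) : K) * ((p'.1 : K) - p'.2 * (ρ : K)) =
          ((e p' : ℕ) : K) * ((q1 * q2 * e p / e p' : ℚ) • ((p.1 : K) - p.2 * (ρ : K))) := by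
        rw [r2, Algebra.smul_def, Algebra.smul_def, Algebra.smul_def]
        rw [map_div₀, map_mul, map_mul, map_natCast, map_natCast]
        field_simp
        linear_combination (-(algebraMap ℚ K q1 * algebraMap ℚ K q2)) * r1
      exact mul_left_cancel₀ he'K h3)
  have hfin := st_real hn1 hn2 (c1 * T ^ 2 * R1) (c1 * T ^ 2 * R2) hJ hτc
  have hcT : 1 ≤ c1 * T ^ 2 := by
    have : 1 ≤ T ^ 2 := one_le_pow₀ hT1
    nlinarith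
  have hP : (c1 * T ^ 2 * R1 * (c1 * T ^ 2 * R2)) ^ ((2 : ℝ) / 3) ≤
      (c1 * T ^ 2) ^ 2 * (R1 * R2) ^ ((2 : ℝ) / 3) := by
    have e1 : c1 * T ^ 2 * R1 * (c1 * T ^ 2 * R2) = (c1 * T ^ 2) ^ 2 * (R1 * R2) := by ring
    rw [e1, Real.mul_rpow (by positivity) (by positivity)]
    have h1 : ((c1 * T ^ 2) ^ 2) ^ ((2 : ℝ) / 3) ≤ (c1 * T ^ 2) ^ 2 := by
      calc ((c1 * T ^ 2) ^ 2) ^ ((2 : ℝ) / 3) ≤ ((c1 * T ^ 2) ^ 2) ^ (1 : ℝ) :=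
            Real.rpow_le_rpow_of_exponent_le (one_le_pow₀ hcT) (by norm_num)
        _ = _ := Real.rpow_one _
    gcongr
  have hle : c1 * T ^ 2 ≤ (c1 * T ^ 2) ^ 2 := le_self_pow₀ hcT (by norm_num)
  have hT4 : T ^ 4 = ((m : ℝ) * Y) ^ ε := by
    rw [hT, ← Real.rpow_natCast, ← Real.rpow_mul (by positivity)]
    congr 1
    rw [hε']
    push_cast
    ring
  calc (s.card : ℝ) ≤ 8 * ((c1 * T ^ 2 * R1 * (c1 * T ^ 2 * R2)) ^ ((2 : ℝ) / 3) +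
        c1 * T ^ 2 * R1 + c1 * T ^ 2 * R2) := hfin
    _ ≤ 8 * ((c1 * T ^ 2) ^ 2 * (R1 * R2) ^ ((2 : ℝ) / 3) + (c1 * T ^ 2) ^ 2 * R1 +
        (c1 * T ^ 2) ^ 2 * R2) := by gcongr
    _ = 8 * c1 ^ 2 * T ^ 4 * ((R1 * R2) ^ ((2 : ℝ) / 3) + R1 + R2) := by ring
    _ = _ := by rw [hT4]

/-- **The incidence bound.** -/
theorem med (K : Type) [Field K] [NumberField K] (ρ : 𝓞 K) (A B : ℤ) (i : ℕ)
    (hC : Cub K ρ A B) (hI : Idx K ρ i) (ε : ℝ) (hε : 0 < ε) : ∃ C : ℝ, 0 < C ∧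
    ∀ (m : ℕ) (Y R1 R2 : ℝ), 1 ≤ m → 1 ≤ Y → 0 ≤ R1 → 0 ≤ R2 → ∀ s : Finset (ℤ × ℤ),
      (∀ p ∈ s, IsCoprime p.1 p.2 ∧ |(p.1 : ℝ)| ≤ Y ∧ |(p.2 : ℝ)| ≤ Y ∧ ∃ c z : ℕ, 1 ≤ c ∧ 1 ≤ z ∧
        Nat.Coprime z (i * c) ∧ (G A B p.1 p.2).natAbs = c * z ∧ (radp m c : ℝ) ≤ R2 ∧
        (radp m z : ℝ) ≤ R1) →
      (s.card : ℝ) ≤ C * ((m : ℝ) * Y) ^ ε * ((R1 * R2) ^ ((2 : ℝ) / 3) + R1 + R2) := by
  classical
  obtain ⟨C, hC0, h⟩ := med_half K ρ A B i hC hI ε hε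
  refine ⟨2 * C, by positivity, fun m Y R1 R2 hm hY hR1 hR2 s hs => ?_⟩
  have h1 := h m Y R1 R2 hm hY hR1 hR2 (s.filter Hf) (fun p hp p' hp' => by
    rw [mem_filter] at hp hp'
    exact ⟨fun _ => hp'.2, fun _ => hp.2⟩) (fun p hp => hs p (mem_filter.mp hp).1)
  have h2 := h m Y R1 R2 hm hY hR1 hR2 (s.filter (fun p => ¬ Hf p)) (fun p hp p' hp' => by
    rw [mem_filter] at hp hp'
    exact ⟨fun h => absurd h hp.2, fun h => absurd h hp'.2⟩) (fun p hp => hs p (mem_filter.mp hp).1)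
  have h3 : (s.card : ℝ) = (s.filter Hf).card + (s.filter (fun p => ¬ Hf p)).card := by
    exact_mod_cast (card_filter_add_card_filter_not (s := s) Hf).symm
  rw [h3]
  linarith

end Pool.Agent.H460.CF
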