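import Pool.Graph.R_seed8.W4.CF.All

/-!
# Splitting a number into two coprime factors with small radicals
-/

set_option autoImplicit false

namespace Pool.Agent.H460.CF

open Finset Pool.Agent.W4.CF

theorem pf_prod (T : Finset ℕ) (hT : ∀ p ∈ T, p.Prime) (e : ℕ → ℕ) (he : ∀ p ∈ T, e p ≠ 0) :
    (∏ p ∈ T, p ^ e p).primeFactors = T := by
  ext p
  rw [Nat.mem_primeFactors]
  constructor
  · rintro ⟨hp, hd, -⟩
    obtain ⟨q, hq, hpq⟩ := (hp.prime.dvd_finset_prod_iff _).mp hd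
    have h1 := hp.dvd_of_dvd_pow hpq
    rw [(Nat.prime_dvd_prime_iff_eq hp (hT q hq)).mp h1]
    exact hq
  · intro hp
    refine ⟨hT p hp, ?_, ?_⟩
    · exact (dvd_pow_self p (he p hp)).trans (dvd_prod_of_mem (fun p => p ^ e p) hp)
    · exact Finset.prod_ne_zero_iff.mpr fun q hq => pow_ne_zero _ (hT q hq).ne_zero

/-- the factorisation attached to a set of primes -/
theorem fact (m i n : ℕ) (hn : 1 ≤ n) (him : i ∣ m) (hm : 1 ≤ m) (T : Finset ℕ)
    (hT : T ⊆ n.primeFactors.filter (fun p => ¬ p ∣ m)) :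
    ∃ c z : ℕ, 1 ≤ c ∧ 1 ≤ z ∧ Nat.Coprime z (i * c) ∧ n = c * z ∧
      radp m c = ∏ p ∈ (n.primeFactors.filter (fun p => ¬ p ∣ m)) \ T, p ∧
      radp m z = ∏ p ∈ T, p ∧ z = ∏ p ∈ T, p ^ n.factorization p := by
  classical
  have hn0 : n ≠ 0 := by omega
  have hTn : T ⊆ n.primeFactors := hT.trans (filter_subset _ _)
  have hpr : ∀ p ∈ n.primeFactors, p.Prime := fun p hp => Nat.prime_of_mem_primeFactors hp
  have hfe : ∀ p ∈ n.primeFactors, n.factorization p ≠ 0 := fun p hp =>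
    ((hpr p hp).factorization_pos_of_dvd hn0 (Nat.dvd_of_mem_primeFactors hp)).ne'
  set z : ℕ := ∏ p ∈ T, p ^ n.factorization p with hz
  set c : ℕ := ∏ p ∈ n.primeFactors \ T, p ^ n.factorization p with hc
  have hz1 : 1 ≤ z := Finset.prod_pos fun p hp => pow_pos (hpr p (hTn hp)).pos _
  have hc1 : 1 ≤ c := Finset.prod_pos fun p hp => pow_pos (hpr p (sdiff_subset hp)).pos _
  have hncz : n = c * z := by
    have h1 := Nat.factorization_prod_pow_eq_self hn0
    rw [Finsupp.prod, Nat.support_factorization] at h1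
    rw [hc, hz, prod_sdiff hTn]
    exact h1.symm
  have hzp : z.primeFactors = T := pf_prod T (fun p hp => hpr p (hTn hp)) _ (fun p hp => hfe p (hTn hp))
  have hcp : c.primeFactors = n.primeFactors \ T :=
    pf_prod _ (fun p hp => hpr p (sdiff_subset hp)) _ (fun p hp => hfe p (sdiff_subset hp))
  have hi0 : i ≠ 0 := by
    rintro rfl
    rw [zero_dvd_iff] at him
    omega
  refine ⟨c, z, hc1, hz1, ?_, hncz, ?_, ?_, hz⟩
  · rw [← Nat.disjoint_primeFactors (by omega) (mul_ne_zero hi0 (by omega)), hzp,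
      Nat.primeFactors_mul hi0 (by omega), hcp, disjoint_union_right]
    constructor
    · rw [disjoint_left]
      intro p hp hpi
      exact (mem_filter.mp (hT hp)).2 ((Nat.dvd_of_mem_primeFactors hpi).trans him)
    · exact disjoint_sdiff
  · unfold radp
    rw [hcp]
    congr 1
    ext p
    simp only [mem_filter, mem_sdiff]
    tauto
  · unfold radp
    rw [hzp]
    congr 1
    apply filter_true_of_mem
    intro p hp
    exact (mem_filter.mp (hT hp)).2

/-- a set of numbers with product at most `V ^ 3`, none of which exceeds `V ^ 2`, can be split into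
two sets with products at most `V ^ 2` -/
theorem split_set (Q : Finset ℕ) (hQ : ∀ p ∈ Q, 2 ≤ p) (V : ℝ) (hV : 1 ≤ V)
    (hprod : ((∏ p ∈ Q, p : ℕ) : ℝ) ≤ V ^ 3) (hp : ∀ p ∈ Q, (p : ℝ) ≤ V ^ 2) :
    ∃ T ⊆ Q, ((∏ p ∈ T, p : ℕ) : ℝ) ≤ V ^ 2 ∧ ((∏ p ∈ Q \ T, p : ℕ) : ℝ) ≤ V ^ 2 := by
  classical
  have hV0 : 0 < V := by linarith
  have hpos : ∀ S ⊆ Q, 1 ≤ ∏ p ∈ S, p := by
    intro S hS
    apply Nat.one_le_iff_ne_zero.mpr
    rw [Finset.prod_ne_zero_iff]
    intro p hp'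
    have := hQ p (hS hp')
    omega
  obtain ⟨T, hT, hmax⟩ := Finset.exists_max_image
    (Q.powerset.filter (fun S => ((∏ p ∈ S, p : ℕ) : ℝ) ≤ V ^ 2)) (fun S => ∏ p ∈ S, p)
    ⟨∅, by
      rw [mem_filter, mem_powerset]
      refine ⟨empty_subset _, ?_⟩
      rw [prod_empty]
      push_cast
      exact one_le_pow₀ hV⟩
  rw [mem_filter, mem_powerset] at hT
  obtain ⟨hTQ, hTV⟩ := hT
  refine ⟨T, hTQ, hTV, ?_⟩
  by_contra hcon
  push Not at hcon
  have hsplit : (∏ p ∈ Q \ T, p) * (∏ p ∈ T, p) = ∏ p ∈ Q, p := prod_sdiff hTQ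
  have hT1 : (1 : ℝ) ≤ ((∏ p ∈ T, p : ℕ) : ℝ) := by exact_mod_cast hpos T hTQ
  have hTlt : ((∏ p ∈ T, p : ℕ) : ℝ) < V := by
    have h1 : ((∏ p ∈ Q \ T, p : ℕ) : ℝ) * ((∏ p ∈ T, p : ℕ) : ℝ) ≤ V ^ 3 := by
      rw [← Nat.cast_mul, hsplit]
      exact hprod
    by_contra h2
    push Not at h2
    have h3 : V ^ 2 * V < ((∏ p ∈ Q \ T, p : ℕ) : ℝ) * ((∏ p ∈ T, p : ℕ) : ℝ) := by
      calc V ^ 2 * V < ((∏ p ∈ Q \ T, p : ℕ) : ℝ) * V := mul_lt_mul_of_pos_right hcon hV0
        _ ≤ _ := mul_le_mul_of_nonneg_left h2 (Nat.cast_nonneg _)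
    have : V ^ 3 = V ^ 2 * V := by ring
    linarith
  -- every element of the complement is large
  have hlarge : ∀ p ∈ Q \ T, V ^ 2 < ((∏ q ∈ T, q : ℕ) : ℝ) * p := by
    intro p hpm
    rw [mem_sdiff] at hpm
    by_contra h1
    push Not at h1
    have h2 : insert p T ∈ Q.powerset.filter (fun S => ((∏ p ∈ S, p : ℕ) : ℝ) ≤ V ^ 2) := by
      rw [mem_filter, mem_powerset, prod_insert hpm.2]
      refine ⟨insert_subset hpm.1 hTQ, ?_⟩
      push_cast at h1 ⊢
      linarith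
    have h3 := hmax _ h2
    rw [prod_insert hpm.2] at h3
    have h4 := hQ p hpm.1
    have h5 := hpos T hTQ
    nlinarith
  rcases (Q \ T).eq_empty_or_nonempty with he | ⟨p, hpm⟩
  · rw [he, prod_empty] at hcon
    have : (1 : ℝ) ≤ V ^ 2 := one_le_pow₀ hV
    push_cast at hcon
    linarith
  · rcases ((Q \ T).erase p).eq_empty_or_nonempty with he | ⟨p', hpm'⟩
    · have h1 : ∏ q ∈ Q \ T, q = p := by
        rw [← mul_prod_erase _ _ hpm, he, prod_empty, mul_one]
      rw [h1] at hcon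
      exact absurd (hp p (sdiff_subset hpm)) (not_le.mpr hcon)
    · have hp'm : p' ∈ Q \ T := mem_of_mem_erase hpm'
      have h1 := hlarge p hpm
      have h2 := hlarge p' hp'm
      have h3 : V < (p' : ℝ) := by
        by_contra h4
        push Not at h4
        have : ((∏ q ∈ T, q : ℕ) : ℝ) * p' ≤ V * V := mul_le_mul hTlt.le h4 (Nat.cast_nonneg _) hV0.le
        have : V ^ 2 = V * V := by ring
        linarith
      have h4 : p * p' * (∏ q ∈ T, q) ≤ ∏ q ∈ Q, q := by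
        rw [← hsplit, ← mul_prod_erase _ _ hpm, ← mul_prod_erase _ _ hpm']
        apply Nat.mul_le_mul_right
        rw [← mul_assoc]
        apply Nat.le_mul_of_pos_right
        exact hpos _ (((erase_subset _ _).trans (erase_subset _ _)).trans sdiff_subset)
      have h5 : (p : ℝ) * p' * ((∏ q ∈ T, q : ℕ) : ℝ) ≤ V ^ 3 := by
        refine le_trans ?_ hprod
        exact_mod_cast h4
      have h6 : V ^ 2 * V < (((∏ q ∈ T, q : ℕ) : ℝ) * p) * p' := by
        calc V ^ 2 * V < (((∏ q ∈ T, q : ℕ) : ℝ) * p) * V := mul_lt_mul_of_pos_right h1 hV0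
          _ ≤ _ := mul_le_mul_of_nonneg_left h3.le (by positivity)
      have : V ^ 3 = V ^ 2 * V := by ring
      nlinarith

end Pool.Agent.H460.CF
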