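import Pool.Agent.H460.CF.Base

/-!
# Points of small height on the curves `L (τ δ ^ k) = 0`, `k ≥ 2`

Every integer `δ` of `K` with conjugates at most `B` lies on one of `O (B ^ (3/2))` rational lines
of the projective plane of `K`, and such a line contains at most `k + 1` points of the curve.
-/

set_option autoImplicit false

namespace Pool.Agent.H460.CF

open NumberField Finset Pool.Agent.W4.CF Pool.Agent.H460.ST Module

variable {K : Type} [Field K] [NumberField K]

/-- `1, w, w²` is a basis of the cubic field `K` if `w` is irrational -/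
theorem lin3 (hd : finrank ℚ K = 3) (w : K) (hw : ∀ r : ℚ, w ≠ algebraMap ℚ K r)
    (L : K →ₗ[ℚ] ℚ) (h0 : L 1 = 0) (h1 : L w = 0) (h2 : L (w ^ 2) = 0) : L = 0 := by
  have hint : IsIntegral ℚ w := Algebra.IsIntegral.isIntegral w
  have hdeg : (minpoly ℚ w).natDegree = 3 := by
    have h3 : finrank ℚ (IntermediateField.adjoin ℚ {w}) = (minpoly ℚ w).natDegree :=
      IntermediateField.adjoin.finrank hint
    have h4 := Module.finrank_mul_finrank ℚ (IntermediateField.adjoin ℚ {w}) K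
    rw [hd, h3] at h4
    have h5 : (minpoly ℚ w).natDegree ∣ 3 := ⟨_, h4.symm⟩
    rcases (Nat.dvd_prime Nat.prime_three).mp h5 with h6 | h6
    · exfalso
      have h7 : w ∈ (algebraMap ℚ K).range := minpoly.natDegree_eq_one_iff.mp h6
      obtain ⟨r, hr⟩ := h7
      exact hw r hr.symm
    · exact h6
  have hli : LinearIndependent ℚ (fun i : Fin (minpoly ℚ w).natDegree => w ^ (i : ℕ)) :=
    linearIndependent_pow w
  have hsp := hli.span_eq_top_of_card_eq_finrank' (by rw [Fintype.card_fin, hdeg, hd])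
  apply LinearMap.ext
  intro x
  have hx : x ∈ Submodule.span ℚ (Set.range (fun i : Fin (minpoly ℚ w).natDegree => w ^ (i : ℕ))) := by
    rw [hsp]; trivial
  rw [LinearMap.zero_apply]
  refine Submodule.span_induction (p := fun x _ => L x = 0) ?_ ?_ ?_ ?_ hx
  · rintro _ ⟨⟨j, hj⟩, rfl⟩
    simp only
    rw [hdeg] at hj
    interval_cases j
    · rw [pow_zero]; exact h0
    · rw [pow_one]; exact h1
    · exact h2
  · exact map_zero _
  · intro a b _ _ ha hb
    rw [map_add, ha, hb, add_zero]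
  · intro c a _ ha
    rw [map_smul, ha, smul_zero]

/-- at most `k` values of `t` with `L (τ (w₀ + t w₁) ^ k) = 0` -/
theorem few_t (hd : finrank ℚ K = 3) {k : ℕ} (hk : 2 ≤ k) (L : K →ₗ[ℚ] ℚ) (hL : L ≠ 0) {τ : K}
    (hτ : τ ≠ 0) (w0 w1 : K) (hw0 : w0 ≠ 0) (hw : ∀ r : ℚ, w1 ≠ r • w0) (s : Finset ℚ)
    (hs : ∀ t ∈ s, L (τ * (w0 + t • w1) ^ k) = 0) : s.card ≤ k := by
  classical
  let q : Polynomial ℚ := ∑ j ∈ range (k + 1),
    Polynomial.C ((k.choose j : ℚ) * L (τ * (w0 ^ (k - j) * w1 ^ j))) * Polynomial.X ^ j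
  have heval : ∀ t : ℚ, q.eval t = L (τ * (w0 + t • w1) ^ k) := by
    intro t
    show (∑ j ∈ range (k + 1), Polynomial.C ((k.choose j : ℚ) * L (τ * (w0 ^ (k - j) * w1 ^ j))) *
      Polynomial.X ^ j : Polynomial ℚ).eval t = _
    rw [Polynomial.eval_finset_sum, add_comm w0, add_pow, Finset.mul_sum, map_sum]
    apply Finset.sum_congr rfl
    intro j _
    rw [Polynomial.eval_mul, Polynomial.eval_C, Polynomial.eval_pow, Polynomial.eval_X]
    have e1 : τ * ((t • w1) ^ j * w0 ^ (k - j) * ((k.choose j : ℕ) : K)) =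
        ((k.choose j : ℚ) * t ^ j) • (τ * (w0 ^ (k - j) * w1 ^ j)) := by
      rw [smul_pow, Algebra.smul_def, Algebra.smul_def]
      push_cast
      ring
    rw [e1, map_smul, smul_eq_mul]
    ring
  have hcoeff : ∀ j, j ≤ k → q.coeff j = (k.choose j : ℚ) * L (τ * (w0 ^ (k - j) * w1 ^ j)) := by
    intro j hj
    have : q.coeff j = ∑ j' ∈ range (k + 1),
        if j = j' then ((k.choose j' : ℚ) * L (τ * (w0 ^ (k - j') * w1 ^ j'))) else 0 := by
      show (∑ j ∈ range (k + 1), Polynomial.C ((k.choose j : ℚ) * L (τ * (w0 ^ (k - j) * w1 ^ j))) *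
        Polynomial.X ^ j : Polynomial ℚ).coeff j = _
      rw [Polynomial.finset_sum_coeff]
      apply Finset.sum_congr rfl
      intro j' _
      rw [Polynomial.coeff_C_mul, Polynomial.coeff_X_pow]
      split_ifs <;> simp
    rw [this, Finset.sum_ite_eq, if_pos (by rw [mem_range]; omega)]
  have hq : q ≠ 0 := by
    intro h0
    -- the functional `x ↦ L (τ w₀ ^ k x)` kills `1, w, w²`
    set M : K →ₗ[ℚ] ℚ := L ∘ₗ (LinearMap.mulLeft ℚ (τ * w0 ^ k)) with hM
    have hc : ∀ j, j ≤ 2 → M ((w1 / w0) ^ j) = 0 := by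
      intro j hj
      have h1 := hcoeff j (by omega)
      rw [h0, Polynomial.coeff_zero] at h1
      have h2 : (k.choose j : ℚ) ≠ 0 := by
        have : 0 < k.choose j := Nat.choose_pos (by omega)
        exact_mod_cast this.ne'
      have h3 := (mul_eq_zero.mp h1.symm).resolve_left h2
      rw [hM, LinearMap.comp_apply, LinearMap.mulLeft_apply, ← h3]
      congr 1
      rw [div_pow, mul_assoc]
      congr 1
      rw [mul_div_assoc', div_eq_iff (pow_ne_zero _ hw0)]
      have : w0 ^ k = w0 ^ (k - j) * w0 ^ j := by rw [← pow_add]; congr 1; omega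
      rw [this]
      ring
    have hM0 : M = 0 := by
      apply lin3 hd (w1 / w0)
      · intro r hr
        apply hw r
        rw [div_eq_iff hw0] at hr
        rw [hr, Algebra.smul_def]
      · have := hc 0 (by omega); rwa [pow_zero] at this
      · have := hc 1 (by omega); rwa [pow_one] at this
      · exact hc 2 le_rfl
    apply hL
    apply LinearMap.ext
    intro x
    have hτw : τ * w0 ^ k ≠ 0 := mul_ne_zero hτ (pow_ne_zero _ hw0)
    have h1 := LinearMap.congr_fun hM0 ((τ * w0 ^ k)⁻¹ * x)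
    rw [hM, LinearMap.comp_apply, LinearMap.mulLeft_apply, mul_inv_cancel_left₀ hτw] at h1
    exact h1
  have hdeg : q.natDegree ≤ k := by
    apply Polynomial.natDegree_sum_le_of_forall_le
    intro j hj
    rw [mem_range] at hj
    exact (Polynomial.natDegree_C_mul_X_pow_le _ _).trans (by omega)
  calc s.card ≤ q.roots.toFinset.card := by
        apply card_le_card
        intro t ht
        rw [Multiset.mem_toFinset, Polynomial.mem_roots hq, Polynomial.IsRoot.def, heval]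
        exact hs t ht
    _ ≤ q.roots.card := Multiset.toFinset_card_le _
    _ ≤ q.natDegree := Polynomial.card_roots' _
    _ ≤ k := hdeg

/-- at most `k + 1` points of the curve on a line -/
theorem on_line (hd : finrank ℚ K = 3) {k : ℕ} (hk : 2 ≤ k) (L : K →ₗ[ℚ] ℚ) (hL : L ≠ 0) {τ : K}
    (hτ : τ ≠ 0) (f : K →ₗ[ℚ] ℚ) (hf : f ≠ 0) (s : Finset (𝓞 K))
    (hs : ∀ δ ∈ s, δ ≠ 0 ∧ f (δ : K) = 0 ∧ L (τ * (δ : K) ^ k) = 0)
    (hprop : ∀ δ ∈ s, ∀ δ' ∈ s, (∃ q : ℚ, (δ' : K) = q • (δ : K)) → δ = δ') :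
    s.card ≤ k + 1 := by
  classical
  have hsurj : Function.Surjective f := LinearMap.surjective hf
  have hker : finrank ℚ (LinearMap.ker f) = 2 := by
    have h1 := LinearMap.finrank_range_add_finrank_ker f
    rw [LinearMap.range_eq_top.mpr hsurj, finrank_top, finrank_self, hd] at h1
    omega
  let w : Basis (Fin 2) ℚ (LinearMap.ker f) := finBasisOfFinrankEq ℚ _ hker
  set w0 : K := (w 0 : K) with hw0
  set w1 : K := (w 1 : K) with hw1
  have hw0ne : w0 ≠ 0 := by
    rw [hw0]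
    intro h
    exact w.ne_zero 0 (Subtype.ext h)
  have hwne : ∀ r : ℚ, w1 ≠ r • w0 := by
    intro r hr
    have h1 : w 1 = r • w 0 := Subtype.ext hr
    have h2 := congrArg (fun x => w.repr x 1) h1
    simp at h2
  have hrep : ∀ δ ∈ s, ∃ a c : ℚ, (δ : K) = a • w0 + c • w1 := by
    intro δ hδ
    have h1 : (δ : K) ∈ LinearMap.ker f := (hs δ hδ).2.1
    refine ⟨w.repr ⟨δ, h1⟩ 0, w.repr ⟨δ, h1⟩ 1, ?_⟩
    have h2 := congrArg (Subtype.val) (w.sum_repr ⟨(δ : K), h1⟩)
    rw [Fin.sum_univ_two] at h2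
    exact h2.symm
  choose! a c hac using hrep
  -- the elements with `a = 0`
  have hA : (s.filter (fun δ => a δ = 0)).card ≤ 1 := by
    rw [card_le_one]
    intro δ hδ δ' hδ'
    rw [mem_filter] at hδ hδ'
    have e1 := hac δ hδ.1
    have e2 := hac δ' hδ'.1
    rw [hδ.2, zero_smul, zero_add] at e1
    rw [hδ'.2, zero_smul, zero_add] at e2
    have hc : c δ ≠ 0 := by
      intro h
      rw [h, zero_smul] at e1
      exact (hs δ hδ.1).1 (by exact_mod_cast e1)
    apply hprop δ hδ.1 δ' hδ'.1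
    refine ⟨c δ' / c δ, ?_⟩
    rw [e1, e2, smul_smul, div_mul_cancel₀ _ hc]
  have hB : (s.filter (fun δ => ¬ a δ = 0)).card ≤ k := by
    have hinj : Set.InjOn (fun δ => c δ / a δ) (s.filter (fun δ => ¬ a δ = 0) : Set (𝓞 K)) := by
      intro δ hδ δ' hδ' h
      rw [Finset.mem_coe, mem_filter] at hδ hδ'
      simp only at h
      apply hprop δ hδ.1 δ' hδ'.1
      refine ⟨a δ' / a δ, ?_⟩
      rw [hac δ hδ.1, hac δ' hδ'.1, smul_add, smul_smul, smul_smul, div_mul_cancel₀ _ hδ.2]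
      congr 2
      rw [div_eq_div_iff hδ.2 hδ'.2] at h
      field_simp [hδ.2]
      linear_combination -h
    rw [← card_image_of_injOn hinj]
    apply few_t hd hk L hL hτ w0 w1 hw0ne hwne
    intro t ht
    obtain ⟨δ, hδ, rfl⟩ := mem_image.mp ht
    rw [mem_filter] at hδ
    have h1 := (hs δ hδ.1).2.2
    have h2 : (δ : K) = a δ • (w0 + (c δ / a δ) • w1) := by
      rw [hac δ hδ.1, smul_add, smul_smul, mul_div_cancel₀ _ hδ.2]
    rw [h2, smul_pow, mul_smul_comm, map_smul, smul_eq_mul] at h1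
    exact (mul_eq_zero.mp h1).resolve_left (pow_ne_zero _ hδ.2)
  have := card_filter_add_card_filter_not (s := s) (fun δ => a δ = 0)
  omega

/-- Siegel's lemma in dimension three -/
theorem siegel (X : ℕ) (x : Fin 3 → ℤ) (hx : ∀ j, |x j| ≤ X) :
    ∃ h : Fin 3 → ℤ, h ≠ 0 ∧ (∀ j, |h j| ≤ (Nat.sqrt (6 * X) + 1 : ℕ)) ∧ ∑ j, h j * x j = 0 := by
  classical
  set H : ℕ := Nat.sqrt (6 * X) + 1 with hH
  have hH2 : 6 * X < H * H := Nat.lt_succ_sqrt (6 * X)
  have hH1 : 1 ≤ H := by omega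
  obtain ⟨a, -, b, -, hab, hf⟩ := Finset.exists_ne_map_eq_of_card_lt_of_maps_to
    (s := (Finset.univ : Finset (Fin 3 → Fin (H + 1))))
    (t := Finset.Icc (-(3 * H * X : ℤ)) (3 * H * X)) (by
      rw [Int.card_Icc, Finset.card_univ, Fintype.card_fun, Fintype.card_fin, Fintype.card_fin]
      have h1 : (3 * H * X + 1 - -(3 * H * X : ℤ)).toNat = 6 * H * X + 1 := by
        have : (3 * H * X + 1 - -(3 * H * X : ℤ)) = ((6 * H * X + 1 : ℕ) : ℤ) := by
          push_cast; ring
        rw [this, Int.toNat_natCast]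
      rw [h1]
      have h2 : H * (6 * X) < H * (H * H) := Nat.mul_lt_mul_of_pos_left hH2 (by omega)
      nlinarith) (f := fun a => ∑ j, ((a j : ℕ) : ℤ) * x j) (by
      intro a _
      rw [Finset.mem_coe, Finset.mem_Icc, ← abs_le]
      calc |∑ j, ((a j : ℕ) : ℤ) * x j| ≤ ∑ j, |((a j : ℕ) : ℤ) * x j| :=
            Finset.abs_sum_le_sum_abs _ _
        _ ≤ ∑ _j : Fin 3, (H : ℤ) * X := by
            apply Finset.sum_le_sum
            intro j _
            rw [abs_mul]
            have h1 := (a j).2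
            have h2 : |((a j : ℕ) : ℤ)| ≤ H := by
              rw [abs_of_nonneg (by positivity)]
              omega
            exact mul_le_mul h2 (hx j) (abs_nonneg _) (by positivity)
        _ = 3 * H * X := by
            rw [Finset.sum_const, Finset.card_univ, Fintype.card_fin]
            simp only [nsmul_eq_mul]
            push_cast
            ring)
  refine ⟨fun j => ((a j : ℕ) : ℤ) - ((b j : ℕ) : ℤ), ?_, ?_, ?_⟩
  · intro h0
    apply hab
    funext j
    have := congrFun h0 j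
    simp only [Pi.zero_apply] at this
    apply Fin.ext
    omega
  · intro j
    have h1 := (a j).2
    have h2 := (b j).2
    show |((a j : ℕ) : ℤ) - ((b j : ℕ) : ℤ)| ≤ ((H : ℕ) : ℤ)
    rw [abs_le]
    constructor <;> omega
  · simp only [sub_mul, Finset.sum_sub_distrib]
    exact sub_eq_zero.mpr hf

/-- **Few points on the curves `L (τ δ ^ k) = 0`.** -/
theorem sz2 (K : Type) [Field K] [NumberField K] (hd : finrank ℚ K = 3) (k : ℕ) (hk : 2 ≤ k) :
    ∃ C : ℝ, 0 < C ∧ ∀ (L : K →ₗ[ℚ] ℚ) (τ : K), L ≠ 0 → τ ≠ 0 → ∀ B : ℝ, 1 ≤ B →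
      ∀ s : Finset (𝓞 K),
      (∀ δ ∈ s, δ ≠ 0 ∧ L (τ * (δ : K) ^ k) = 0 ∧ ∀ σ : K →+* ℂ, ‖σ (δ : K)‖ ≤ B) →
      (∀ δ ∈ s, ∀ δ' ∈ s, (∃ q : ℚ, (δ' : K) = q • (δ : K)) → δ = δ') →
      (s.card : ℝ) ≤ C * B ^ ((3 : ℝ) / 2) := by
  classical
  obtain ⟨b, c, hc, hb⟩ := coord3 (K := K) hd
  let bK : Basis (Fin 3) ℚ K := b.localizationLocalization ℚ (nonZeroDivisors ℤ) K
  have hbK : ∀ (δ : 𝓞 K) (j : Fin 3), bK.repr (δ : K) j = ((b.repr δ j : ℤ) : ℚ) := by
    intro δ j
    have := Basis.localizationLocalization_repr_algebraMap ℚ (nonZeroDivisors ℤ) K b δ j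
    exact this.trans (eq_intCast _ _)
  refine ⟨(k + 1) * (2 * (Real.sqrt (6 * (c + 1)) + 1) + 1) ^ 3, by positivity, ?_⟩
  intro L τ hL hτ B hB s hs hprop
  set X : ℕ := ⌊c * B⌋₊ with hX
  have hXle : (X : ℝ) ≤ c * B := Nat.floor_le (by positivity)
  set H : ℕ := Nat.sqrt (6 * X) + 1 with hH
  let f : (Fin 3 → ℤ) → (K →ₗ[ℚ] ℚ) := fun h => ∑ j, (h j : ℚ) • bK.coord j
  have hfδ : ∀ (h : Fin 3 → ℤ) (δ : 𝓞 K), f h (δ : K) = ((∑ j, h j * b.repr δ j : ℤ) : ℚ) := by
    intro h δ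
    simp only [f, LinearMap.sum_apply, LinearMap.smul_apply, Basis.coord_apply, hbK, smul_eq_mul]
    push_cast
    rfl
  have hf0 : ∀ h : Fin 3 → ℤ, h ≠ 0 → f h ≠ 0 := by
    intro h hh h0
    apply hh
    funext j
    have h1 := LinearMap.congr_fun h0 (bK j)
    simp only [f, LinearMap.sum_apply, LinearMap.smul_apply, Basis.coord_apply, Basis.repr_self,
      smul_eq_mul, LinearMap.zero_apply, Finsupp.single_apply, mul_ite, mul_one, mul_zero,
      Finset.sum_ite_eq, Finset.mem_univ, if_true] at h1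
    exact_mod_cast h1
  set Bx : Finset (Fin 3 → ℤ) := Fintype.piFinset (fun _ => Icc (-(H : ℤ)) H) with hBx
  have hcov : s ⊆ (Bx.filter (fun h => h ≠ 0)).biUnion
      (fun h => s.filter (fun δ : 𝓞 K => f h (δ : K) = 0)) := by
    intro δ hδ
    obtain ⟨h, h0, h1, h2⟩ := siegel X (fun j => b.repr δ j) (by
      intro j
      have h3 := hb δ B (hs δ hδ).2.2 j
      have h4 : (b.repr δ j).natAbs ≤ X := by
        rw [hX]
        apply Nat.le_floor
        rw [Nat.cast_natAbs, Int.cast_abs]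
        exact h3
      show |b.repr δ j| ≤ (X : ℤ)
      rw [Int.abs_eq_natAbs]
      exact_mod_cast h4)
    rw [mem_biUnion]
    refine ⟨h, ?_, ?_⟩
    · rw [mem_filter, hBx, Fintype.mem_piFinset]
      refine ⟨fun j => ?_, h0⟩
      rw [mem_Icc, ← abs_le]
      exact h1 j
    · rw [mem_filter]
      refine ⟨hδ, ?_⟩
      rw [hfδ, h2, Int.cast_zero]
  have hline : ∀ h ∈ Bx.filter (fun h => h ≠ 0),
      (s.filter (fun δ : 𝓞 K => f h (δ : K) = 0)).card ≤ k + 1 := by
    intro h hh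
    rw [mem_filter] at hh
    apply on_line hd hk L hL hτ (f h) (hf0 h hh.2)
    · intro δ hδ
      rw [mem_filter] at hδ
      exact ⟨(hs δ hδ.1).1, hδ.2, (hs δ hδ.1).2.1⟩
    · intro δ hδ δ' hδ'
      rw [mem_filter] at hδ hδ'
      exact hprop δ hδ.1 δ' hδ'.1
  have hcard : s.card ≤ (2 * H + 1) ^ 3 * (k + 1) := by
    calc s.card ≤ _ := card_le_card hcov
      _ ≤ (Bx.filter (fun h => h ≠ 0)).card * (k + 1) := card_biUnion_le_card_mul _ _ _ hline
      _ ≤ Bx.card * (k + 1) := Nat.mul_le_mul_right _ (card_le_card (filter_subset _ _))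
      _ = (2 * H + 1) ^ 3 * (k + 1) := by
          rw [hBx, Fintype.card_piFinset]
          simp only [Int.card_Icc, Finset.prod_const, Finset.card_univ, Fintype.card_fin]
          congr 2
          omega
  have hHle : (H : ℝ) ≤ (Real.sqrt (6 * (c + 1)) + 1) * Real.sqrt B := by
    have h1 : (Nat.sqrt (6 * X) : ℝ) ≤ Real.sqrt ((6 * X : ℕ) : ℝ) := Real.nat_sqrt_le_real_sqrt
    have h2 : Real.sqrt ((6 * X : ℕ) : ℝ) ≤ Real.sqrt (6 * (c + 1)) * Real.sqrt B := by
      rw [← Real.sqrt_mul (by positivity)]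
      apply Real.sqrt_le_sqrt
      push_cast
      nlinarith
    have h3 : 1 ≤ Real.sqrt B := Real.one_le_sqrt.mpr hB
    rw [hH]
    push_cast
    nlinarith
  have hsB : 1 ≤ Real.sqrt B := Real.one_le_sqrt.mpr hB
  have h3 : (Real.sqrt B) ^ 3 = B ^ ((3 : ℝ) / 2) := by
    rw [Real.sqrt_eq_rpow, ← Real.rpow_natCast, ← Real.rpow_mul (by linarith)]
    norm_num
  calc (s.card : ℝ) ≤ (((2 * H + 1) ^ 3 * (k + 1) : ℕ) : ℝ) := by exact_mod_cast hcard
    _ = (2 * (H : ℝ) + 1) ^ 3 * (k + 1) := by push_cast; ring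
    _ ≤ ((2 * (Real.sqrt (6 * (c + 1)) + 1) + 1) * Real.sqrt B) ^ 3 * (k + 1) := by
        have : 2 * (H : ℝ) + 1 ≤ (2 * (Real.sqrt (6 * (c + 1)) + 1) + 1) * Real.sqrt B := by
          nlinarith
        gcongr
    _ = _ := by
        rw [mul_pow, h3]
        ring

end Pool.Agent.H460.CF
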