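import Pool.Agent.H460.CF.Med
import Pool.Agent.H460.CF.A2
import Pool.Agent.H460.CF.Split

/-!
# The number of coprime pairs in a box such that the value of the norm form has a small radical
-/

set_option autoImplicit false

namespace Pool.Agent.H460.CF

open NumberField Finset Pool.Agent.W4.CF

/-- summation over the small factor -/
theorem sum_c (ε : ℝ) (hε : 0 < ε) : ∃ C : ℝ, 0 < C ∧ ∀ (m N : ℕ) (W : ℝ), 1 ≤ m → 1 ≤ N →
    0 ≤ W → ∀ (s : Finset (ℤ × ℤ)) (c : ℤ × ℤ → ℕ), (∀ p ∈ s, 1 ≤ c p ∧ c p ≤ N) →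
    (∀ c0 ∈ s.image c, ((s.filter (fun p => c p = c0)).card : ℝ) ≤ W * (1 / (radp m c0 : ℝ))) →
    (s.card : ℝ) ≤ C * ((m : ℝ) * N) ^ ε * W := by
  classical
  obtain ⟨D, hD, h⟩ := Pool.W335.CF.t_RAD ε hε
  refine ⟨D, hD, fun m N W hm hN hW s c hc hfib => ?_⟩
  have hcard : (s.card : ℝ) = ∑ b ∈ s.image c, ((s.filter (fun p => c p = b)).card : ℝ) := by
    rw [Finset.card_eq_sum_card_image c s]
    push_cast
    rfl
  rw [hcard]
  have hsub : s.image c ⊆ Icc 1 N := by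
    intro x hx
    obtain ⟨p, hp, rfl⟩ := mem_image.mp hx
    exact mem_Icc.mpr (hc p hp)
  calc _ ≤ ∑ b ∈ s.image c, W * (1 / (radp m b : ℝ)) := sum_le_sum hfib
    _ ≤ ∑ b ∈ Icc 1 N, W * (1 / (radp m b : ℝ)) := by
        apply sum_le_sum_of_subset_of_nonneg hsub
        intro n _ _
        positivity
    _ = W * ∑ b ∈ Icc 1 N, (1 / (radp m b : ℝ)) := by rw [mul_sum]
    _ ≤ W * (D * ((m : ℝ) * N) ^ ε) := mul_le_mul_of_nonneg_left (h m N hm hN) hW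
    _ = _ := by ring

/-- powers of the size -/
theorem pow_size (G0 : ℝ) (hG0 : 1 ≤ G0) (m : ℕ) (hm : 1 ≤ m) (Y : ℝ) (hY : 1 ≤ Y) (N : ℕ)
    (hN : (N : ℝ) ≤ G0 * Y ^ 3) (η : ℝ) (hη : 0 ≤ η) :
    ((m : ℝ) * N) ^ η ≤ G0 ^ η * ((m : ℝ) * Y) ^ (3 * η) := by
  have hm' : (1 : ℝ) ≤ m := by exact_mod_cast hm
  calc ((m : ℝ) * N) ^ η ≤ (G0 * ((m : ℝ) * Y) ^ 3) ^ η := by
        apply Real.rpow_le_rpow (by positivity) _ hη
        calc (m : ℝ) * N ≤ m * (G0 * Y ^ 3) := by gcongr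
          _ = G0 * (m * Y ^ 3) := by ring
          _ ≤ G0 * ((m : ℝ) ^ 3 * Y ^ 3) := by
              have : (m : ℝ) ≤ (m : ℝ) ^ 3 := le_self_pow₀ hm' (by norm_num)
              gcongr
          _ = _ := by ring
    _ = G0 ^ η * ((m : ℝ) * Y) ^ (3 * η) := by
        rw [Real.mul_rpow (by positivity) (by positivity), ← Real.rpow_natCast,
          ← Real.rpow_mul (by positivity)]
        norm_num

/-- the factors of the value are bounded -/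
theorem fac_le (A B : ℤ) (G0 : ℝ) (hG0 : G0 = 1 + |(A : ℝ)| + |(B : ℝ)|) (Y : ℝ) (hY : 1 ≤ Y)
    (N : ℕ) (hN : N = ⌊G0 * Y ^ 3⌋₊) (u v : ℤ) (hu : |(u : ℝ)| ≤ Y) (hv : |(v : ℝ)| ≤ Y) :
    (G A B u v).natAbs ≤ N := by
  rw [hN]
  apply Nat.le_floor
  rw [Nat.cast_natAbs, Int.cast_abs, hG0]
  exact G_le A B u v Y (by linarith) hu hv

/-- case of a simple large factor -/
theorem case1 (K : Type) [Field K] [NumberField K] (ρ : 𝓞 K) (A B : ℤ)
    (hC : Cub K ρ A B) (ε : ℝ) (hε : 0 < ε) : ∃ C : ℝ, 0 < C ∧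
    ∀ (m : ℕ) (Y V : ℝ), 1 ≤ m → 1 ≤ V → V ≤ Y → ∀ s : Finset (ℤ × ℤ),
      (∀ p ∈ s, Dy Y p ∧ ∃ c q : ℕ, 1 ≤ c ∧ 1 ≤ q ∧ (G A B p.1 p.2).natAbs = c * q ∧
        (radp m c : ℝ) * q ≤ V ^ 3 ∧ (radp m c : ℝ) ≤ V) →
      (s.card : ℝ) ≤ C * ((m : ℝ) * Y) ^ ε * V ^ 2 := by
  classical
  set G0 : ℝ := 1 + |(A : ℝ)| + |(B : ℝ)| with hG0
  have hG01 : 1 ≤ G0 := by
    have := abs_nonneg (A : ℝ)
    have := abs_nonneg (B : ℝ)
    rw [hG0]; linarith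
  set η : ℝ := ε / 6 with hη
  have hη0 : 0 < η := by positivity
  obtain ⟨D1, hD1, ha⟩ := a2 K ρ A B hC η hη0
  obtain ⟨D2, hD2, hsum⟩ := sum_c η hη0
  refine ⟨D2 * G0 ^ η * (2 * D1 * G0 ^ η), by positivity, ?_⟩
  intro m Y V hm hV hVY s hs
  have hm' : (1 : ℝ) ≤ m := by exact_mod_cast hm
  have hY : 1 ≤ Y := hV.trans hVY
  have hmY : (1 : ℝ) ≤ m * Y := by nlinarith
  choose! c q hcq using fun p hp => (hs p hp).2
  set N : ℕ := ⌊G0 * Y ^ 3⌋₊ with hN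
  have hN1 : 1 ≤ N := by
    rw [hN]
    apply Nat.le_floor
    push_cast
    have : (1 : ℝ) ≤ Y ^ 3 := one_le_pow₀ hY
    nlinarith
  have hNr : (N : ℝ) ≤ G0 * Y ^ 3 := Nat.floor_le (by positivity)
  have hcN : ∀ p ∈ s, 1 ≤ c p ∧ c p ≤ N := by
    intro p hp
    obtain ⟨h1, h2, h3, -, -⟩ := hcq p hp
    refine ⟨h1, ?_⟩
    have := fac_le A B G0 hG0 Y hY N hN p.1 p.2 (hs p hp).1.2.1 (hs p hp).1.2.2.1
    rw [h3] at this
    exact (Nat.le_mul_of_pos_right _ h2).trans this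
  set T : ℝ := ((m : ℝ) * Y) ^ (3 * η) with hT
  have hT0 : 0 < T := by positivity
  have hmN : ((m : ℝ) * N) ^ η ≤ G0 ^ η * T := pow_size G0 hG01 m hm Y hY N hNr η hη0.le
  have hNT : (N : ℝ) ^ η ≤ G0 ^ η * T := by
    refine le_trans ?_ hmN
    apply Real.rpow_le_rpow (by positivity) _ hη0.le
    exact le_mul_of_one_le_left (by positivity) hm'
  have hmain := hsum m N (2 * D1 * (G0 ^ η * T) * V ^ 2) hm hN1 (by positivity) s c hcN (by
    intro c0 hc0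
    obtain ⟨p0, hp0, rfl⟩ := mem_image.mp hc0
    set r : ℝ := (radp m (c p0) : ℝ) with hr
    have hr1 : 1 ≤ r := by
      rw [hr]; exact_mod_cast radp_pos _ _
    have hr0 : 0 < r := by linarith
    have hrV : r ≤ V := (hcq p0 hp0).2.2.2.2
    have hcc := (hcq p0 hp0).1
    set c' : ℝ := 1 + V ^ 3 / (r * Y) with hc'
    have hc'1 : 1 ≤ c' := by
      rw [hc']
      have : 0 ≤ V ^ 3 / (r * Y) := by positivity
      linarith
    have h1 := ha c' hc'1 Y hY (c p0) hcc (s.filter (fun p => c p = c p0)) (by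
      intro p hp
      rw [mem_filter] at hp
      obtain ⟨h1, h2, h3, h4, h5⟩ := hcq p hp.1
      refine ⟨(hs p hp.1).1, ?_, ?_⟩
      · rw [← hp.2, Int.natCast_dvd, h3]
        exact dvd_mul_right _ _
      · rw [← Int.cast_abs, ← Nat.cast_natAbs, h3]
        push_cast
        rw [hp.2] at h4 ⊢
        have h6 : (q p : ℝ) ≤ V ^ 3 / r := by
          rw [le_div_iff₀ hr0, mul_comm]
          exact h4
        have h7 : (q p : ℝ) ≤ c' * Y := by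
          calc (q p : ℝ) ≤ V ^ 3 / r := h6
            _ = V ^ 3 / (r * Y) * Y := by field_simp
            _ ≤ c' * Y := by
                rw [hc']
                gcongr
                linarith
        calc ((c p0 : ℕ) : ℝ) * q p ≤ (c p0 : ℝ) * (c' * Y) := by gcongr
          _ = c' * Y * (c p0 : ℕ) := by ring)
    have h2 : ((c p0 : ℕ) : ℝ) ^ η ≤ G0 ^ η * T := by
      refine le_trans ?_ hNT
      apply Real.rpow_le_rpow (by positivity) _ hη0.le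
      exact_mod_cast (hcN p0 hp0).2
    have h3 : c' ≤ 2 * V ^ 2 * (1 / r) := by
      have e1 : (1 : ℝ) ≤ V ^ 2 * (1 / r) := by
        rw [mul_one_div, le_div_iff₀ hr0, one_mul]
        nlinarith
      have e2 : V ^ 3 / (r * Y) ≤ V ^ 2 * (1 / r) := by
        rw [mul_one_div, div_le_div_iff₀ (by positivity) hr0]
        have : V ^ 3 ≤ V ^ 2 * Y := by
          calc V ^ 3 = V ^ 2 * V := by ring
            _ ≤ _ := by gcongr
        calc V ^ 3 * r ≤ V ^ 2 * Y * r := by gcongr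
          _ = V ^ 2 * (r * Y) := by ring
      rw [hc']
      linarith
    calc _ ≤ D1 * ((c p0 : ℕ) : ℝ) ^ η * c' := h1
      _ ≤ D1 * (G0 ^ η * T) * (2 * V ^ 2 * (1 / r)) := by gcongr
      _ = _ := by ring)
  calc (s.card : ℝ) ≤ D2 * ((m : ℝ) * N) ^ η * (2 * D1 * (G0 ^ η * T) * V ^ 2) := hmain
    _ ≤ D2 * (G0 ^ η * T) * (2 * D1 * (G0 ^ η * T) * V ^ 2) := by gcongr
    _ = D2 * G0 ^ η * (2 * D1 * G0 ^ η) * (T * T) * V ^ 2 := by ring
    _ = _ := by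
        rw [hT, ← Real.rpow_add (by linarith)]
        congr 3
        rw [hη]
        ring

/-- case of a large prime that divides the value to the power `k ≥ 2` -/
theorem casek (K : Type) [Field K] [NumberField K] (ρ : 𝓞 K) (A B : ℤ) (i : ℕ)
    (hC : Cub K ρ A B) (hI : Idx K ρ i) (k : ℕ) (hk : 2 ≤ k) (ε : ℝ) (hε : 0 < ε) :
    ∃ C : ℝ, 0 < C ∧
    ∀ (m : ℕ) (Y V : ℝ), 1 ≤ m → 1 ≤ V → V ≤ Y → ∀ s : Finset (ℤ × ℤ),
      (∀ p ∈ s, Dy Y p ∧ ∃ c q : ℕ, 1 ≤ c ∧ 1 ≤ q ∧ Nat.Coprime q (i * c) ∧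
        (G A B p.1 p.2).natAbs = c * q ^ k ∧
        (radp m c : ℝ) * q ≤ V ^ 3 ∧ (radp m c : ℝ) ≤ V) →
      (s.card : ℝ) ≤ C * ((m : ℝ) * Y) ^ ε * V ^ 2 := by
  classical
  set G0 : ℝ := 1 + |(A : ℝ)| + |(B : ℝ)| with hG0
  have hG01 : 1 ≤ G0 := by
    have := abs_nonneg (A : ℝ)
    have := abs_nonneg (B : ℝ)
    rw [hG0]; linarith
  set η : ℝ := ε / 7 with hη
  have hη0 : 0 < η := by positivity
  obtain ⟨D1, hD1, hb⟩ := b2 K ρ A B i hC hI k hk η hη0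
  obtain ⟨D2, hD2, hsum⟩ := sum_c η hη0
  refine ⟨D2 * G0 ^ η * (D1 * G0 ^ η), by positivity, ?_⟩
  intro m Y V hm hV hVY s hs
  have hm' : (1 : ℝ) ≤ m := by exact_mod_cast hm
  have hY : 1 ≤ Y := hV.trans hVY
  have hmY : (1 : ℝ) ≤ m * Y := by nlinarith
  choose! c q hcq using fun p hp => (hs p hp).2
  set N : ℕ := ⌊G0 * Y ^ 3⌋₊ with hN
  have hN1 : 1 ≤ N := by
    rw [hN]
    apply Nat.le_floor
    push_cast
    have : (1 : ℝ) ≤ Y ^ 3 := one_le_pow₀ hY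
    nlinarith
  have hNr : (N : ℝ) ≤ G0 * Y ^ 3 := Nat.floor_le (by positivity)
  have hcN : ∀ p ∈ s, 1 ≤ c p ∧ c p ≤ N := by
    intro p hp
    obtain ⟨h1, h2, -, h3, -, -⟩ := hcq p hp
    refine ⟨h1, ?_⟩
    have := fac_le A B G0 hG0 Y hY N hN p.1 p.2 (hs p hp).1.2.1 (hs p hp).1.2.2.1
    rw [h3] at this
    exact (Nat.le_mul_of_pos_right _ (pow_pos h2 k)).trans this
  set T : ℝ := ((m : ℝ) * Y) ^ (3 * η) with hT
  have hT0 : 0 < T := by positivity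
  have hmN : ((m : ℝ) * N) ^ η ≤ G0 ^ η * T := pow_size G0 hG01 m hm Y hY N hNr η hη0.le
  have hNT : (N : ℝ) ^ η ≤ G0 ^ η * T := by
    refine le_trans ?_ hmN
    apply Real.rpow_le_rpow (by positivity) _ hη0.le
    exact le_mul_of_one_le_left (by positivity) hm'
  have hYT : Y ^ η ≤ ((m : ℝ) * Y) ^ η := by
    apply Real.rpow_le_rpow (by linarith) _ hη0.le
    exact le_mul_of_one_le_left (by linarith) hm'
  have hmain := hsum m N (D1 * (((m : ℝ) * Y) ^ η * (G0 ^ η * T)) * V ^ 2) hm hN1 (by positivity)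
    s c hcN (by
    intro c0 hc0
    obtain ⟨p0, hp0, rfl⟩ := mem_image.mp hc0
    set r : ℝ := (radp m (c p0) : ℝ) with hr
    have hr1 : 1 ≤ r := by
      rw [hr]; exact_mod_cast radp_pos _ _
    have hr0 : 0 < r := by linarith
    have hrV : r ≤ V := (hcq p0 hp0).2.2.2.2.2
    have hcc := (hcq p0 hp0).1
    have hZ : 1 ≤ V ^ 3 / r := by
      rw [le_div_iff₀ hr0, one_mul]
      have : V ≤ V ^ 3 := le_self_pow₀ hV (by norm_num)
      linarith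
    have h1 := hb Y (V ^ 3 / r) hY hZ (c p0) hcc (s.filter (fun p => c p = c p0)) (by
      intro p hp
      rw [mem_filter] at hp
      obtain ⟨h1, h2, h3, h4, h5, h6⟩ := hcq p hp.1
      have h0 := (hs p hp.1).1
      refine ⟨h0.1, h0.2.1, h0.2.2.1, q p, h2, ?_, ?_, ?_⟩
      · rw [le_div_iff₀ hr0, mul_comm]
        rw [hp.2] at h5
        exact h5
      · rw [← hp.2]; exact h3
      · rw [← hp.2]; exact h4)
    have h2 : ((c p0 : ℕ) : ℝ) ^ η ≤ G0 ^ η * T := by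
      refine le_trans ?_ hNT
      apply Real.rpow_le_rpow (by positivity) _ hη0.le
      exact_mod_cast (hcN p0 hp0).2
    have h3 : (V ^ 3 / r) ^ ((1 : ℝ) / 2) ≤ V ^ 2 * (1 / r) := by
      have e1 : V ^ 3 / r ≤ (V ^ 2 * (1 / r)) ^ 2 := by
        rw [mul_one_div, div_pow, div_le_div_iff₀ hr0 (by positivity)]
        have : r ^ 2 ≤ V * r := by nlinarith
        calc V ^ 3 * r ^ 2 ≤ V ^ 3 * (V * r) := by gcongr
          _ = (V ^ 2) ^ 2 * r := by ring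
      calc (V ^ 3 / r) ^ ((1 : ℝ) / 2) ≤ ((V ^ 2 * (1 / r)) ^ 2) ^ ((1 : ℝ) / 2) :=
            Real.rpow_le_rpow (by positivity) e1 (by norm_num)
        _ = V ^ 2 * (1 / r) := by
            rw [← Real.rpow_natCast, ← Real.rpow_mul (by positivity)]
            norm_num
    calc _ ≤ D1 * (Y * ((c p0 : ℕ) : ℝ)) ^ η * (V ^ 3 / r) ^ ((1 : ℝ) / 2) := h1
      _ = D1 * (Y ^ η * ((c p0 : ℕ) : ℝ) ^ η) * (V ^ 3 / r) ^ ((1 : ℝ) / 2) := by
          rw [Real.mul_rpow (by linarith) (by positivity)]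
      _ ≤ D1 * (((m : ℝ) * Y) ^ η * (G0 ^ η * T)) * (V ^ 2 * (1 / r)) := by gcongr
      _ = _ := by ring)
  calc (s.card : ℝ) ≤ D2 * ((m : ℝ) * N) ^ η * (D1 * (((m : ℝ) * Y) ^ η * (G0 ^ η * T)) * V ^ 2) :=
        hmain
    _ ≤ D2 * (G0 ^ η * T) * (D1 * (((m : ℝ) * Y) ^ η * (G0 ^ η * T)) * V ^ 2) := by gcongr
    _ = D2 * G0 ^ η * (D1 * G0 ^ η) * (((m : ℝ) * Y) ^ η * (T * T)) * V ^ 2 := by ring
    _ = _ := by
        rw [hT, ← Real.rpow_add (by linarith), ← Real.rpow_add (by linarith)]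
        congr 3
        rw [hη]
        ring

/-- the trivial bound -/
theorem triv (K : Type) [Field K] [NumberField K] (ρ : 𝓞 K) (A B : ℤ) (i : ℕ)
    (hC : Cub K ρ A B) (hI : Idx K ρ i) (ε : ℝ) (hε : 0 < ε) : ∃ C : ℝ, 0 < C ∧
    ∀ (m : ℕ) (Y R : ℝ), 1 ≤ m → 1 ≤ Y → 1 ≤ R → ∀ s : Finset (ℤ × ℤ),
      (∀ p ∈ s, Dy Y p ∧ 1 ≤ (G A B p.1 p.2).natAbs ∧ (radp m (G A B p.1 p.2).natAbs : ℝ) ≤ R) →
      (s.card : ℝ) ≤ C * ((m : ℝ) * Y) ^ ε * R := by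
  obtain ⟨C, hC0, h⟩ := med K ρ A B i hC hI ε hε
  refine ⟨3 * C, by positivity, fun m Y R hm hY hR s hs => ?_⟩
  have h1 := h m Y 1 R hm hY (by norm_num) (by linarith) s (by
    intro p hp
    obtain ⟨h1, h2, h3⟩ := hs p hp
    refine ⟨h1.1, h1.2.1, h1.2.2.1, (G A B p.1 p.2).natAbs, 1, h2, le_rfl, Nat.coprime_one_left _,
      (mul_one _).symm, h3, ?_⟩
    unfold radp
    simp)
  have h2 : (1 * R) ^ ((2 : ℝ) / 3) ≤ R := by
    rw [one_mul]
    calc R ^ ((2 : ℝ) / 3) ≤ R ^ (1 : ℝ) := Real.rpow_le_rpow_of_exponent_le hR (by norm_num)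
      _ = R := Real.rpow_one _
  calc (s.card : ℝ) ≤ C * ((m : ℝ) * Y) ^ ε * ((1 * R) ^ ((2 : ℝ) / 3) + 1 + R) := h1
    _ ≤ C * ((m : ℝ) * Y) ^ ε * (R + R + R) := by gcongr
    _ = _ := by ring

/-- the case where no prime factor is large -/
theorem caseM (K : Type) [Field K] [NumberField K] (ρ : 𝓞 K) (A B : ℤ) (i : ℕ)
    (hC : Cub K ρ A B) (hI : Idx K ρ i) (ε : ℝ) (hε : 0 < ε) : ∃ C : ℝ, 0 < C ∧
    ∀ (m : ℕ) (Y V : ℝ), 1 ≤ m → i ∣ m → 1 ≤ V → V ≤ Y → ∀ s : Finset (ℤ × ℤ),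
      (∀ p ∈ s, Dy Y p ∧ 1 ≤ (G A B p.1 p.2).natAbs ∧
        (radp m (G A B p.1 p.2).natAbs : ℝ) ≤ V ^ 3 ∧
        ∀ q ∈ (G A B p.1 p.2).natAbs.primeFactors.filter (fun q => ¬ q ∣ m), (q : ℝ) ≤ V ^ 2) →
      (s.card : ℝ) ≤ C * ((m : ℝ) * Y) ^ ε * V ^ 2 := by
  classical
  set η : ℝ := ε / 3 with hη
  have hη0 : 0 < η := by positivity
  obtain ⟨C1, hC1, hmed⟩ := med K ρ A B i hC hI η hη0
  obtain ⟨C2, hC2, hlog⟩ := log_bound 1 η le_rfl hη0
  refine ⟨C2 * (5 * C1), by positivity, ?_⟩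
  intro m Y V hm him hV hVY s hs
  have hm' : (1 : ℝ) ≤ m := by exact_mod_cast hm
  have hY : 1 ≤ Y := hV.trans hVY
  have hmY : (1 : ℝ) ≤ m * Y := by nlinarith
  have hV0 : 0 < V := by linarith
  have hdat : ∀ p : ℤ × ℤ, p ∈ s → ∃ c z : ℕ, 1 ≤ c ∧ 1 ≤ z ∧ Nat.Coprime z (i * c) ∧
      (G A B p.1 p.2).natAbs = c * z ∧ (radp m c : ℝ) ≤ V ^ 2 ∧ (radp m z : ℝ) ≤ V ^ 2 ∧
      (radp m z : ℝ) * radp m c ≤ V ^ 3 := by
    intro p hp
    obtain ⟨h1, h2, h3, h4⟩ := hs p hp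
    obtain ⟨T, hT, hT1, hT2⟩ := split_set
      ((G A B p.1 p.2).natAbs.primeFactors.filter (fun q => ¬ q ∣ m)) (by
        intro q hq
        exact (Nat.prime_of_mem_primeFactors (mem_filter.mp hq).1).two_le) V hV h3 h4
    obtain ⟨c, z, a1, a2, a3, a4, a5, a6, -⟩ := fact m i _ h2 him hm T hT
    refine ⟨c, z, a1, a2, a3, a4, by rw [a5]; exact hT2, by rw [a6]; exact hT1, ?_⟩
    rw [a5, a6]
    have h5 : (∏ q ∈ T, q) * (∏ q ∈ ((G A B p.1 p.2).natAbs.primeFactors.filter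
        (fun q => ¬ q ∣ m)) \ T, q) =
        ∏ q ∈ (G A B p.1 p.2).natAbs.primeFactors.filter (fun q => ¬ q ∣ m), q := by
      rw [mul_comm]
      exact prod_sdiff hT
    rw [← Nat.cast_mul, h5]
    exact h3
  choose! c z hcz using hdat
  set X : ℕ := ⌊V ^ 2⌋₊ with hX
  have hX1 : 1 ≤ X := by
    rw [hX]
    apply Nat.le_floor
    push_cast
    exact one_le_pow₀ hV
  have hXr : (X : ℝ) ≤ V ^ 2 := Nat.floor_le (by positivity)
  set J : ℕ := Nat.log 2 X + 1 with hJ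
  have hcov : s ⊆ (range J).biUnion (fun a => s.filter (fun p => Nat.log 2 (radp m (z p)) = a)) := by
    intro p hp
    rw [mem_biUnion]
    refine ⟨Nat.log 2 (radp m (z p)), ?_, mem_filter.mpr ⟨hp, rfl⟩⟩
    rw [mem_range, hJ, Nat.lt_succ_iff]
    apply Nat.log_mono_right
    rw [hX]
    apply Nat.le_floor
    exact (hcz p hp).2.2.2.2.2.1
  have hclass : ∀ a ∈ range J, ((s.filter (fun p => Nat.log 2 (radp m (z p)) = a)).card : ℝ) ≤
      5 * C1 * ((m : ℝ) * Y) ^ η * V ^ 2 := by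
    intro a ha
    rw [mem_range, hJ, Nat.lt_succ_iff] at ha
    have h2a : ((2 : ℝ) ^ a) ≤ V ^ 2 := by
      have h1 : 2 ^ a ≤ X := Nat.pow_le_of_le_log (by omega) ha
      calc ((2 : ℝ) ^ a) = ((2 ^ a : ℕ) : ℝ) := by push_cast; rfl
        _ ≤ X := by exact_mod_cast h1
        _ ≤ _ := hXr
    have h2a0 : (0 : ℝ) < 2 ^ a := by positivity
    have hmain := hmed m Y (2 * 2 ^ a) (min (V ^ 2) (V ^ 3 / 2 ^ a)) hm hY (by positivity)
      (le_min (by positivity) (by positivity)) (s.filter (fun p => Nat.log 2 (radp m (z p)) = a)) (by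
      intro p hp
      rw [mem_filter] at hp
      obtain ⟨a1, a2, a3, a4, a5, a6, a7⟩ := hcz p hp.1
      have h0 := (hs p hp.1).1
      have hz1 : 1 ≤ radp m (z p) := radp_pos _ _
      have hlow : ((2 : ℝ) ^ a) ≤ radp m (z p) := by
        have : 2 ^ a ≤ radp m (z p) := by
          rw [← hp.2]
          exact Nat.pow_log_le_self 2 (by omega)
        exact_mod_cast this
      have hup : (radp m (z p) : ℝ) ≤ 2 * 2 ^ a := by
        have : radp m (z p) < 2 ^ (a + 1) := by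
          rw [← hp.2]
          exact Nat.lt_pow_succ_log_self (by norm_num) _
        have h' : radp m (z p) ≤ 2 * 2 ^ a := by
          rw [pow_succ] at this
          omega
        exact_mod_cast h'
      refine ⟨h0.1, h0.2.1, h0.2.2.1, c p, z p, a1, a2, a3, a4, le_min a5 ?_, hup⟩
      rw [le_div_iff₀ h2a0, mul_comm]
      calc (2 : ℝ) ^ a * radp m (c p) ≤ radp m (z p) * radp m (c p) := by gcongr
        _ ≤ _ := a7)
    have h1 : (2 * 2 ^ a * min (V ^ 2) (V ^ 3 / 2 ^ a)) ^ ((2 : ℝ) / 3) ≤ 2 * V ^ 2 := by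
      have e1 : 2 * 2 ^ a * min (V ^ 2) (V ^ 3 / 2 ^ a) ≤ 2 * V ^ 3 := by
        calc 2 * 2 ^ a * min (V ^ 2) (V ^ 3 / 2 ^ a) ≤ 2 * 2 ^ a * (V ^ 3 / 2 ^ a) := by
              gcongr
              exact min_le_right _ _
          _ = 2 * V ^ 3 := by field_simp
      calc (2 * 2 ^ a * min (V ^ 2) (V ^ 3 / 2 ^ a)) ^ ((2 : ℝ) / 3) ≤ (2 * V ^ 3) ^ ((2 : ℝ) / 3) :=
            Real.rpow_le_rpow (mul_nonneg (by positivity) (le_min (by positivity) (by positivity)))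
              e1 (by norm_num)
        _ = 2 ^ ((2 : ℝ) / 3) * V ^ 2 := by
            rw [Real.mul_rpow (by norm_num) (by positivity), ← Real.rpow_natCast,
              ← Real.rpow_mul hV0.le, ← Real.rpow_natCast V 2]
            norm_num
        _ ≤ 2 * V ^ 2 := by
            have : (2 : ℝ) ^ ((2 : ℝ) / 3) ≤ 2 := by
              calc (2 : ℝ) ^ ((2 : ℝ) / 3) ≤ (2 : ℝ) ^ (1 : ℝ) :=
                    Real.rpow_le_rpow_of_exponent_le (by norm_num) (by norm_num)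
                _ = 2 := Real.rpow_one _
            gcongr
    have h2 : min (V ^ 2) (V ^ 3 / 2 ^ a) ≤ V ^ 2 := min_le_left _ _
    calc _ ≤ C1 * ((m : ℝ) * Y) ^ η * ((2 * 2 ^ a * min (V ^ 2) (V ^ 3 / 2 ^ a)) ^ ((2 : ℝ) / 3) +
          2 * 2 ^ a + min (V ^ 2) (V ^ 3 / 2 ^ a)) := hmain
      _ ≤ C1 * ((m : ℝ) * Y) ^ η * (2 * V ^ 2 + 2 * V ^ 2 + V ^ 2) := by gcongr
      _ = _ := by ring
  have hJle : (J : ℝ) ≤ C2 * ((m : ℝ) * Y) ^ (2 * η) := by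
    have h1 := hlog X hX1
    have h2 : ⌊(1 : ℝ) * (X : ℝ)⌋₊ = X := by rw [one_mul, Nat.floor_natCast]
    rw [h2] at h1
    have h3 : (X : ℝ) ^ η ≤ ((m : ℝ) * Y) ^ (2 * η) := by
      rw [Real.rpow_mul (by positivity)]
      apply Real.rpow_le_rpow (by positivity) _ hη0.le
      calc (X : ℝ) ≤ V ^ 2 := hXr
        _ ≤ ((m : ℝ) * Y) ^ 2 := by
            apply pow_le_pow_left₀ hV0.le
            nlinarith
        _ = _ := by rw [← Real.rpow_natCast]; norm_num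
    calc (J : ℝ) = ((Nat.log 2 X + 1 : ℕ) : ℝ) := by rw [hJ]
      _ ≤ C2 * (X : ℝ) ^ η := h1
      _ ≤ _ := by gcongr
  calc (s.card : ℝ) ≤ (((range J).biUnion
        (fun a => s.filter (fun p => Nat.log 2 (radp m (z p)) = a))).card : ℝ) := by
        exact_mod_cast card_le_card hcov
    _ ≤ ∑ a ∈ range J, ((s.filter (fun p => Nat.log 2 (radp m (z p)) = a)).card : ℝ) := by
        exact_mod_cast card_biUnion_le
    _ ≤ ∑ _a ∈ range J, 5 * C1 * ((m : ℝ) * Y) ^ η * V ^ 2 := sum_le_sum hclass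
    _ = J * (5 * C1 * ((m : ℝ) * Y) ^ η * V ^ 2) := by rw [sum_const, card_range, nsmul_eq_mul]
    _ ≤ (C2 * ((m : ℝ) * Y) ^ (2 * η)) * (5 * C1 * ((m : ℝ) * Y) ^ η * V ^ 2) := by gcongr
    _ = C2 * (5 * C1) * (((m : ℝ) * Y) ^ (2 * η) * ((m : ℝ) * Y) ^ η) * V ^ 2 := by ring
    _ = _ := by
        rw [← Real.rpow_add (by linarith)]
        congr 3
        rw [hη]
        ring

end Pool.Agent.H460.CF
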