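import Pool.Agent.H460.CF.T2

/-!
# The number of coprime pairs in a box such that the value of the norm form has a small radical:
the bound `R ^ (2/3)`
-/

set_option autoImplicit false

namespace Pool.Agent.H460.CF

open NumberField Finset Pool.Agent.W4.CF

theorem G_ne {K : Type} [Field K] [NumberField K] {ρ : 𝓞 K} {A B : ℤ} (hC : Cub K ρ A B) {u v : ℤ}
    (h : IsCoprime u v) : 1 ≤ (G A B u v).natAbs := by
  rw [← Pool.Agent.W721.CF.t_NRM K ρ A B hC u v, Nat.one_le_iff_ne_zero, Ne, Int.natAbs_eq_zero,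
    Algebra.norm_eq_zero_iff]
  intro h0
  have h1 : ((u : K) - v * (ρ : K)) = 0 := by
    have := congrArg (fun x : 𝓞 K => (x : K)) h0
    simpa using this
  by_cases hv : v = 0
  · rw [hv] at h1 h
    have hu : u = 0 := by
      have : (u : K) = 0 := by simpa using h1
      exact_mod_cast this
    rw [hu] at h
    obtain ⟨a, b, hab⟩ := h
    simp at hab
  · apply hC.2.1 ((u : ℚ) / v)
    have hv' : (v : K) ≠ 0 := by exact_mod_cast hv
    have : (ρ : K) = (u : K) / v := by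
      rw [eq_div_iff hv']
      linear_combination -h1
    rw [this, map_div₀, map_intCast, map_intCast]

theorem box_card (Y : ℝ) (hY : 1 ≤ Y) (s : Finset (ℤ × ℤ))
    (hs : ∀ p ∈ s, |(p.1 : ℝ)| ≤ Y ∧ |(p.2 : ℝ)| ≤ Y) : (s.card : ℝ) ≤ 9 * Y ^ 2 := by
  set N : ℕ := ⌊Y⌋₊ with hN
  have hNY : (N : ℝ) ≤ Y := Nat.floor_le (by linarith)
  have hb : ∀ x : ℤ, |(x : ℝ)| ≤ Y → x ∈ Icc (-(N : ℤ)) N := by
    intro x hx
    have : x.natAbs ≤ N := by
      rw [hN]
      apply Nat.le_floor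
      rw [Nat.cast_natAbs, Int.cast_abs]
      exact hx
    rw [mem_Icc]
    omega
  have hsub : s ⊆ Icc (-(N : ℤ)) N ×ˢ Icc (-(N : ℤ)) N := by
    intro p hp
    rw [mem_product]
    exact ⟨hb _ (hs p hp).1, hb _ (hs p hp).2⟩
  have h1 := card_le_card hsub
  rw [card_product, Int.card_Icc] at h1
  have h2 : (((N : ℤ) + 1 - -(N : ℤ)).toNat) = 2 * N + 1 := by omega
  rw [h2] at h1
  calc (s.card : ℝ) ≤ (((2 * N + 1) * (2 * N + 1) : ℕ) : ℝ) := by exact_mod_cast h1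
    _ = (2 * (N : ℝ) + 1) * (2 * N + 1) := by push_cast; ring
    _ ≤ (3 * Y) * (3 * Y) := by
        have : 2 * (N : ℝ) + 1 ≤ 3 * Y := by linarith
        gcongr
    _ = _ := by ring

/-- the data of a pair with a large prime factor -/
theorem large_data (m i n : ℕ) (hn : 1 ≤ n) (him : i ∣ m) (hm : 1 ≤ m) (V : ℝ) (hV : 1 ≤ V)
    (hr : (radp m n : ℝ) ≤ V ^ 3)
    (hq : ¬ ∀ q ∈ n.primeFactors.filter (fun q => ¬ q ∣ m), (q : ℝ) ≤ V ^ 2) :
    ∃ c q k : ℕ, 1 ≤ c ∧ 1 ≤ q ∧ 1 ≤ k ∧ Nat.Coprime q (i * c) ∧ n = c * q ^ k ∧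
      (radp m c : ℝ) * q ≤ V ^ 3 ∧ (radp m c : ℝ) ≤ V ∧ V ^ 2 < (q : ℝ) := by
  classical
  push Not at hq
  obtain ⟨q, hq, hqV⟩ := hq
  obtain ⟨c, z, a1, a2, a3, a4, a5, a6, a7⟩ := fact m i n hn him hm {q} (singleton_subset_iff.mpr hq)
  have hq' := mem_filter.mp hq
  have hqp := Nat.prime_of_mem_primeFactors hq'.1
  have hk : 1 ≤ n.factorization q :=
    hqp.factorization_pos_of_dvd (by omega) (Nat.dvd_of_mem_primeFactors hq'.1)
  rw [prod_singleton] at a7
  have hrc : radp m c * q = radp m n := by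
    rw [a5]
    unfold radp
    have := prod_sdiff (f := fun p : ℕ => p) (singleton_subset_iff.mpr hq)
    rw [prod_singleton] at this
    exact this
  have h1 : (radp m c : ℝ) * q ≤ V ^ 3 := by
    rw [← Nat.cast_mul, hrc]
    exact hr
  refine ⟨c, q, n.factorization q, a1, hqp.one_lt.le, hk, ?_, ?_, h1, ?_, hqV⟩
  · rw [a7] at a3
    exact (Nat.coprime_pow_left_iff hk q (i * c)).mp a3
  · rw [← a7]; exact a4
  · by_contra hcon
    push Not at hcon
    have h2 : V ^ 3 < (radp m c : ℝ) * q := by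
      calc V ^ 3 = V * V ^ 2 := by ring
        _ < (radp m c : ℝ) * q := mul_lt_mul'' hcon hqV (by linarith) (by positivity)
    linarith

/-- **The number of coprime pairs such that the value of the norm form has a small radical.** -/
theorem t2 (K : Type) [Field K] [NumberField K] (ρ : 𝓞 K) (A B : ℤ) (hC : Cub K ρ A B) :
    ∃ i : ℕ, 1 ≤ i ∧ ∀ ε : ℝ, 0 < ε → ∃ C : ℝ, 0 < C ∧
      ∀ (m : ℕ) (Y R : ℝ), 1 ≤ m → i ∣ m → 1 ≤ Y → 1 ≤ R → ∀ s : Finset (ℤ × ℤ),
        (∀ p ∈ s, Dy Y p ∧ (radp m (G A B p.1 p.2).natAbs : ℝ) ≤ R) →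
        (s.card : ℝ) ≤ C * ((m : ℝ) * Y) ^ ε * R ^ ((2 : ℝ) / 3) := by
  classical
  obtain ⟨i, hI⟩ := Pool.Agent.W721.CF.t_IDX K ρ A B hC
  refine ⟨i, hI.1, fun ε hε => ?_⟩
  set η : ℝ := ε / 2 with hη
  have hη0 : 0 < η := by positivity
  set G0 : ℝ := 1 + |(A : ℝ)| + |(B : ℝ)| with hG0
  have hG01 : 1 ≤ G0 := by
    have := abs_nonneg (A : ℝ)
    have := abs_nonneg (B : ℝ)
    rw [hG0]; linarith
  obtain ⟨k0, hk0⟩ := exists_nat_ge (9 / (2 * η) + 1)
  have hk01 : 1 ≤ k0 := by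
    have : (1 : ℝ) ≤ k0 := by
      have : 0 ≤ 9 / (2 * η) := by positivity
      linarith
    exact_mod_cast this
  obtain ⟨CM, hCM, hM⟩ := caseM K ρ A B i hC hI ε hε
  obtain ⟨C1, hC1, h1⟩ := case1 K ρ A B hC ε hε
  have hkex : ∀ k : ℕ, ∃ C : ℝ, 0 < C ∧ (2 ≤ k → ∀ (m : ℕ) (Y V : ℝ), 1 ≤ m → 1 ≤ V → V ≤ Y →
      ∀ s : Finset (ℤ × ℤ),
      (∀ p ∈ s, Dy Y p ∧ ∃ c q : ℕ, 1 ≤ c ∧ 1 ≤ q ∧ Nat.Coprime q (i * c) ∧
        (G A B p.1 p.2).natAbs = c * q ^ k ∧
        (radp m c : ℝ) * q ≤ V ^ 3 ∧ (radp m c : ℝ) ≤ V) →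
      (s.card : ℝ) ≤ C * ((m : ℝ) * Y) ^ ε * V ^ 2) := by
    intro k
    by_cases hk : 2 ≤ k
    · obtain ⟨C, hC0, h⟩ := casek K ρ A B i hC hI k hk ε hε
      exact ⟨C, hC0, fun _ => h⟩
    · exact ⟨1, one_pos, fun h => absurd h hk⟩
  choose Ck hCk hkk using hkex
  obtain ⟨CT, hCT, hT⟩ := triv K ρ A B i hC hI η hη0
  refine ⟨9 + CM + C1 + ∑ k ∈ Icc 2 k0, Ck k + CT * G0, ?_, ?_⟩
  · have : 0 ≤ ∑ k ∈ Icc 2 k0, Ck k := sum_nonneg fun k _ => (hCk k).le
    have : 0 < CT * G0 := by positivity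
    linarith
  intro m Y R hm him hY hR s hs
  have hm' : (1 : ℝ) ≤ m := by exact_mod_cast hm
  have hmY : (1 : ℝ) ≤ m * Y := by nlinarith
  set V : ℝ := R ^ ((1 : ℝ) / 3) with hVd
  have hV : 1 ≤ V := Real.one_le_rpow hR (by norm_num)
  have hV0 : 0 < V := by linarith
  have hV3 : V ^ 3 = R := by
    rw [hVd, ← Real.rpow_natCast, ← Real.rpow_mul (by linarith)]
    norm_num
  have hV2 : R ^ ((2 : ℝ) / 3) = V ^ 2 := by
    rw [hVd, ← Real.rpow_natCast, ← Real.rpow_mul (by linarith)]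
    norm_num
  rw [hV2]
  have hP1 : 1 ≤ ((m : ℝ) * Y) ^ ε := Real.one_le_rpow hmY hε.le
  have hS0 : 0 ≤ ∑ k ∈ Icc 2 k0, Ck k := sum_nonneg fun k _ => (hCk k).le
  rcases lt_or_ge Y V with hlt | hVY
  · -- the trivial range
    have h2 := box_card Y hY s (fun p hp => ⟨(hs p hp).1.2.1, (hs p hp).1.2.2.1⟩)
    calc (s.card : ℝ) ≤ 9 * Y ^ 2 := h2
      _ ≤ 9 * V ^ 2 := by gcongr
      _ = 9 * 1 * V ^ 2 := by ring
      _ ≤ (9 + CM + C1 + ∑ k ∈ Icc 2 k0, Ck k + CT * G0) * ((m : ℝ) * Y) ^ ε * V ^ 2 := by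
          have : 0 < CT * G0 := by positivity
          gcongr
          linarith
  -- the main range
  have hn : ∀ p ∈ s, 1 ≤ (G A B p.1 p.2).natAbs := fun p hp => G_ne hC (hs p hp).1.1
  set P : ℤ × ℤ → Prop := fun p =>
    ∀ q ∈ (G A B p.1 p.2).natAbs.primeFactors.filter (fun q => ¬ q ∣ m), (q : ℝ) ≤ V ^ 2 with hP
  have hdat : ∀ p : ℤ × ℤ, p ∈ s.filter (fun p => ¬ P p) → ∃ c q k : ℕ, 1 ≤ c ∧ 1 ≤ q ∧ 1 ≤ k ∧
      Nat.Coprime q (i * c) ∧ (G A B p.1 p.2).natAbs = c * q ^ k ∧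
      (radp m c : ℝ) * q ≤ V ^ 3 ∧ (radp m c : ℝ) ≤ V ∧ V ^ 2 < (q : ℝ) := by
    intro p hp
    rw [mem_filter] at hp
    exact large_data m i _ (hn p hp.1) him hm V hV (by rw [hV3]; exact (hs p hp.1).2) hp.2
  choose! c q k hcqk using hdat
  set S := s.filter (fun p => ¬ P p) with hS
  have hSs : ∀ p ∈ S, p ∈ s := fun p hp => (mem_filter.mp hp).1
  have b0 : ((s.filter P).card : ℝ) ≤ CM * ((m : ℝ) * Y) ^ ε * V ^ 2 := by
    apply hM m Y V hm him hV hVY
    intro p hp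
    rw [mem_filter] at hp
    exact ⟨(hs p hp.1).1, hn p hp.1, by rw [hV3]; exact (hs p hp.1).2, hp.2⟩
  have b1 : ((S.filter (fun p => k p = 1)).card : ℝ) ≤ C1 * ((m : ℝ) * Y) ^ ε * V ^ 2 := by
    apply h1 m Y V hm hV hVY
    intro p hp
    rw [mem_filter] at hp
    obtain ⟨a1, a2, a3, a4, a5, a6, a7, a8⟩ := hcqk p hp.1
    rw [hp.2, pow_one] at a5
    exact ⟨(hs p (hSs p hp.1)).1, c p, q p, a1, a2, a5, a6, a7⟩
  have b2 : ∀ k' ∈ Icc 2 k0, ((S.filter (fun p => k p = k')).card : ℝ) ≤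
      Ck k' * ((m : ℝ) * Y) ^ ε * V ^ 2 := by
    intro k' hk'
    rw [mem_Icc] at hk'
    apply hkk k' hk'.1 m Y V hm hV hVY
    intro p hp
    rw [mem_filter] at hp
    obtain ⟨a1, a2, a3, a4, a5, a6, a7, a8⟩ := hcqk p hp.1
    rw [hp.2] at a5
    exact ⟨(hs p (hSs p hp.1)).1, c p, q p, a1, a2, a4, a5, a6, a7⟩
  have b3 : ((S.filter (fun p => k0 < k p)).card : ℝ) ≤ (CT * G0) * ((m : ℝ) * Y) ^ ε * V ^ 2 := by
    rcases (S.filter (fun p => k0 < k p)).eq_empty_or_nonempty with he | ⟨p0, hp0⟩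
    · rw [he, card_empty]
      push_cast
      positivity
    · -- `R` is small
      have hRs : R ≤ G0 * Y ^ η := by
        rw [mem_filter] at hp0
        obtain ⟨a1, a2, a3, a4, a5, a6, a7, a8⟩ := hcqk p0 hp0.1
        have h0 := (hs p0 (hSs p0 hp0.1)).1
        have e1 := G_le A B p0.1 p0.2 Y (by linarith) h0.2.1 h0.2.2.1
        have e2 : (V ^ 2) ^ (k0 + 1) ≤ G0 * Y ^ 3 := by
          calc (V ^ 2) ^ (k0 + 1) ≤ (q p0 : ℝ) ^ (k0 + 1) :=
                pow_le_pow_left₀ (by positivity) a8.le _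
            _ ≤ (q p0 : ℝ) ^ (k p0) := by
                apply pow_le_pow_right₀
                · exact_mod_cast a2
                · omega
            _ ≤ (c p0 : ℝ) * (q p0 : ℝ) ^ (k p0) := by
                apply le_mul_of_one_le_left (by positivity)
                exact_mod_cast a1
            _ = (((G A B p0.1 p0.2).natAbs : ℕ) : ℝ) := by rw [a5]; push_cast; ring
            _ = |((G A B p0.1 p0.2 : ℤ) : ℝ)| := by rw [Nat.cast_natAbs, Int.cast_abs]
            _ ≤ G0 * Y ^ 3 := e1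
        set θ : ℝ := 3 / (2 * (k0 + 1)) with hθ
        have hk0' : (0 : ℝ) < k0 + 1 := by positivity
        have hθ0 : 0 < θ := by positivity
        have hθ1 : θ ≤ 1 := by
          rw [hθ, div_le_one (by positivity)]
          have : (1 : ℝ) ≤ k0 := by exact_mod_cast hk01
          linarith
        have hθη : 3 * θ ≤ η := by
          rw [hθ, ← mul_div_assoc, div_le_iff₀ (by positivity)]
          have h9 : 9 / (2 * η) ≤ k0 + 1 := by linarith
          rw [div_le_iff₀ (by positivity)] at h9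
          linarith
        have e3 : R = ((V ^ 2) ^ (k0 + 1)) ^ θ := by
          rw [← hV3, ← pow_mul, ← Real.rpow_natCast V (2 * (k0 + 1)), ← Real.rpow_mul hV0.le,
            ← Real.rpow_natCast V 3]
          congr 1
          rw [hθ]
          push_cast
          field_simp
        calc R = ((V ^ 2) ^ (k0 + 1)) ^ θ := e3
          _ ≤ (G0 * Y ^ 3) ^ θ := Real.rpow_le_rpow (by positivity) e2 hθ0.le
          _ = G0 ^ θ * Y ^ (3 * θ) := by
              rw [Real.mul_rpow (by linarith) (by positivity), ← Real.rpow_natCast,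
                ← Real.rpow_mul (by linarith)]
              norm_num
          _ ≤ G0 ^ (1 : ℝ) * Y ^ η := by
              gcongr
          _ = G0 * Y ^ η := by rw [Real.rpow_one]
      have h2 := hT m Y R hm hY hR (S.filter (fun p => k0 < k p)) (by
        intro p hp
        rw [mem_filter] at hp
        have := hSs p hp.1
        exact ⟨(hs p this).1, hn p this, (hs p this).2⟩)
      have hYm : Y ^ η ≤ ((m : ℝ) * Y) ^ η := by
        apply Real.rpow_le_rpow (by linarith) _ hη0.le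
        exact le_mul_of_one_le_left (by linarith) hm'
      calc _ ≤ CT * ((m : ℝ) * Y) ^ η * R := h2
        _ ≤ CT * ((m : ℝ) * Y) ^ η * (G0 * Y ^ η) := by gcongr
        _ ≤ CT * ((m : ℝ) * Y) ^ η * (G0 * ((m : ℝ) * Y) ^ η) := by gcongr
        _ = (CT * G0) * (((m : ℝ) * Y) ^ η * ((m : ℝ) * Y) ^ η) := by ring
        _ = (CT * G0) * ((m : ℝ) * Y) ^ ε := by
            rw [← Real.rpow_add (by linarith)]
            congr 2
            rw [hη]
            ring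
        _ = (CT * G0) * ((m : ℝ) * Y) ^ ε * 1 := by ring
        _ ≤ (CT * G0) * ((m : ℝ) * Y) ^ ε * V ^ 2 := by
            have : 1 ≤ V ^ 2 := one_le_pow₀ hV
            gcongr
  have hcov : s ⊆ s.filter P ∪ (S.filter (fun p => k p = 1) ∪
      ((Icc 2 k0).biUnion (fun k' => S.filter (fun p => k p = k')) ∪
        S.filter (fun p => k0 < k p))) := by
    intro p hp
    rw [mem_union, mem_union, mem_union]
    by_cases hPp : P p
    · exact Or.inl (mem_filter.mpr ⟨hp, hPp⟩)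
    · right
      have hpS : p ∈ S := mem_filter.mpr ⟨hp, hPp⟩
      have hk1 := (hcqk p hpS).2.2.1
      rcases Nat.lt_or_ge k0 (k p) with h | h
      · exact Or.inr (Or.inr (mem_filter.mpr ⟨hpS, h⟩))
      · rcases Nat.eq_or_lt_of_le hk1 with h' | h'
        · exact Or.inl (mem_filter.mpr ⟨hpS, h'.symm⟩)
        · refine Or.inr (Or.inl ?_)
          rw [mem_biUnion]
          exact ⟨k p, mem_Icc.mpr ⟨h', h⟩, mem_filter.mpr ⟨hpS, rfl⟩⟩
  have hc1 : (s.card : ℝ) ≤ (s.filter P).card + ((S.filter (fun p => k p = 1)).card +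
      (∑ k' ∈ Icc 2 k0, ((S.filter (fun p => k p = k')).card : ℝ) +
        (S.filter (fun p => k0 < k p)).card)) := by
    have e1 := card_le_card hcov
    have e2 := card_union_le (s.filter P) (S.filter (fun p => k p = 1) ∪
      ((Icc 2 k0).biUnion (fun k' => S.filter (fun p => k p = k')) ∪
        S.filter (fun p => k0 < k p)))
    have e3 := card_union_le (S.filter (fun p => k p = 1))
      ((Icc 2 k0).biUnion (fun k' => S.filter (fun p => k p = k')) ∪
        S.filter (fun p => k0 < k p))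
    have e4 := card_union_le ((Icc 2 k0).biUnion (fun k' => S.filter (fun p => k p = k')))
        (S.filter (fun p => k0 < k p))
    have e5 : ((Icc 2 k0).biUnion (fun k' => S.filter (fun p => k p = k'))).card ≤
        ∑ k' ∈ Icc 2 k0, (S.filter (fun p => k p = k')).card := card_biUnion_le
    have e6 : s.card ≤ (s.filter P).card + ((S.filter (fun p => k p = 1)).card +
      (∑ k' ∈ Icc 2 k0, (S.filter (fun p => k p = k')).card +
        (S.filter (fun p => k0 < k p)).card)) := by omega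
    exact_mod_cast e6
  have hc2 : ∑ k' ∈ Icc 2 k0, ((S.filter (fun p => k p = k')).card : ℝ) ≤
      (∑ k' ∈ Icc 2 k0, Ck k') * (((m : ℝ) * Y) ^ ε * V ^ 2) := by
    rw [sum_mul]
    apply sum_le_sum
    intro k' hk'
    refine (b2 k' hk').trans (le_of_eq (by ring))
  have hfin : 0 ≤ ((m : ℝ) * Y) ^ ε * V ^ 2 := by positivity
  calc (s.card : ℝ) ≤ _ := hc1
    _ ≤ CM * ((m : ℝ) * Y) ^ ε * V ^ 2 + (C1 * ((m : ℝ) * Y) ^ ε * V ^ 2 +
        ((∑ k' ∈ Icc 2 k0, Ck k') * (((m : ℝ) * Y) ^ ε * V ^ 2) +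
          (CT * G0) * ((m : ℝ) * Y) ^ ε * V ^ 2)) := by gcongr
    _ = (CM + C1 + ∑ k' ∈ Icc 2 k0, Ck k' + CT * G0) * (((m : ℝ) * Y) ^ ε * V ^ 2) := by ring
    _ ≤ (9 + CM + C1 + ∑ k' ∈ Icc 2 k0, Ck k' + CT * G0) * (((m : ℝ) * Y) ^ ε * V ^ 2) := by
        apply mul_le_mul_of_nonneg_right _ hfin
        linarith
    _ = _ := by ring

end Pool.Agent.H460.CF
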