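import Pool.Agent.H460.CF.T2Main

/-!
# Curves with a given cubic 2-division field, counted by conductor: the upper bound
-/

set_option autoImplicit false

namespace Pool.Agent.H460.CF

open NumberField Finset Pool.Agent.W4.CF

/-- minimal models with an irrational root in `K`, of bounded height and conductor -/
def Cnt (K : Type) [Field K] [NumberField K] (Z : ℝ) (X : ℕ) : Set (ℤ × ℤ) :=
  {q | IsMinM q.1 q.2 ∧ HasK K q.1 q.2 ∧ |q.1| ≤ (X : ℤ) ^ 2 ∧ |q.2| ≤ (X : ℤ) ^ 3 ∧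
    (condM q.1 q.2 : ℝ) ≤ Z}

theorem cnt_finite (K : Type) [Field K] [NumberField K] (Z : ℝ) (X : ℕ) :
    (Cnt K Z X).Finite := by
  refine ((Finset.finite_toSet (Icc (-(X : ℤ) ^ 2) ((X : ℤ) ^ 2) ×ˢ
    Icc (-(X : ℤ) ^ 3) ((X : ℤ) ^ 3)))).subset ?_
  rintro ⟨a, b⟩ ⟨-, -, h1, h2, -⟩
  simp only at h1 h2
  rw [Finset.mem_coe, mem_product, mem_Icc, mem_Icc]
  exact ⟨abs_le.mp h1, abs_le.mp h2⟩

/-- the data attached to a model: common factor, dyadic range, coprime pair -/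
def DatZ (a0 b0 : ℤ) (i : ℕ) (C4 Z W : ℝ) (q : ℤ × ℤ) (t : ℕ × ℕ × (ℤ × ℤ)) : Prop :=
  1 ≤ t.1 ∧
  (4 * a0 ^ 3 - 27 * b0 ^ 2) ^ 2 * q.1 = Fa a0 b0 (t.1 * t.2.2.1) (t.1 * t.2.2.2) ∧
  (4 * a0 ^ 3 - 27 * b0 ^ 2) ^ 3 * q.2 = Fb a0 b0 (t.1 * t.2.2.1) (t.1 * t.2.2.2) ∧
  Dy (2 ^ t.2.1) t.2.2 ∧ (t.1 : ℝ) * 2 ^ t.2.1 ≤ W ∧
  (radp (6 * (4 * a0 ^ 3 - 27 * b0 ^ 2).natAbs * i * t.1)
    (G (9 * a0) (27 * b0) t.2.2.1 t.2.2.2).natAbs : ℝ) ≤ C4 * Z / (t.1 : ℝ) ^ 2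

theorem datZ_exists (K : Type) [Field K] [NumberField K]
    (hK : Module.finrank ℚ K = 3) (a0 b0 : ℤ) (θ0 : K) (hθ : ∀ r : ℚ, θ0 ≠ algebraMap ℚ K r)
    (h0 : θ0 ^ 3 = a0 * θ0 + b0) (i : ℕ) :
    ∃ C4 C1 : ℝ, 0 < C4 ∧ 1 ≤ C1 ∧ ∀ (X : ℕ) (Z : ℝ), 1 ≤ X → ∀ q ∈ Cnt K Z X,
      ∃ t, DatZ a0 b0 i C4 Z (C1 * X) q t := by
  obtain ⟨hD, C1, hC1, hpar⟩ := hP K hK a0 b0 θ0 hθ h0
  obtain ⟨C2, hC2, hcond⟩ := hC a0 b0 hD
  set D : ℤ := 4 * a0 ^ 3 - 27 * b0 ^ 2 with hDdef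
  refine ⟨C2, max 1 (2 * C1), hC2, le_max_left _ _, ?_⟩
  rintro X Z hX ⟨a, b⟩ ⟨hmin, ⟨θ, hθ1, hθ2⟩, ha, hb, hexc⟩
  simp only at hmin hθ2 ha hb hexc
  obtain ⟨U, V, hU, hV, hsz⟩ := hpar a b θ hθ1 hθ2
  have hX1 : (1 : ℝ) ≤ X := by exact_mod_cast hX
  have hX0 : (0 : ℝ) < X := by linarith
  obtain ⟨hUX, hVX⟩ := hsz X hX0.le (by exact_mod_cast ha) (by exact_mod_cast hb)
  -- the common factor
  have hUV : U ≠ 0 ∨ V ≠ 0 := by
    by_contra hcon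
    push Not at hcon
    obtain ⟨rfl, rfl⟩ := hcon
    have ha0 : a = 0 := by
      have : D ^ 2 * a = 0 := by rw [hU]; unfold Fa; ring
      rcases mul_eq_zero.mp this with h | h
      · exact absurd (pow_eq_zero_iff (by norm_num) |>.mp h) hD
      · exact h
    have hb0 : b = 0 := by
      have : D ^ 3 * b = 0 := by rw [hV]; unfold Fb; ring
      rcases mul_eq_zero.mp this with h | h
      · exact absurd (pow_eq_zero_iff (by norm_num) |>.mp h) hD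
      · exact h
    apply hmin.1
    rw [ha0, hb0]
    rfl
  have hg0 : 0 < Int.gcd U V := Int.gcd_pos_iff.mpr hUV
  obtain ⟨u, v, huv, hUe, hVe⟩ : ∃ u v : ℤ, IsCoprime u v ∧ U = (Int.gcd U V : ℤ) * u ∧
      V = (Int.gcd U V : ℤ) * v := by
    obtain ⟨u, v, h1, h2, h3⟩ := Int.exists_gcd_one hg0
    exact ⟨u, v, Int.isCoprime_iff_gcd_eq_one.mpr h1, by rw [mul_comm]; exact h2,
      by rw [mul_comm]; exact h3⟩
  set g : ℕ := Int.gcd U V with hg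
  have hg1 : (1 : ℝ) ≤ g := by exact_mod_cast hg0
  -- the dyadic range
  set M : ℕ := max u.natAbs v.natAbs with hM
  have hMR : (M : ℝ) = max |(u : ℝ)| |(v : ℝ)| := by
    rw [hM, Nat.cast_max, Nat.cast_natAbs, Nat.cast_natAbs, Int.cast_abs, Int.cast_abs]
  have hM1 : 1 ≤ M := by
    rcases hUV with h | h
    · have : u ≠ 0 := by
        rintro rfl
        apply h
        rw [hUe, mul_zero]
      have h1 : 1 ≤ u.natAbs := Nat.one_le_iff_ne_zero.mpr (Int.natAbs_ne_zero.mpr this)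
      exact h1.trans (le_max_left _ _)
    · have : v ≠ 0 := by
        rintro rfl
        apply h
        rw [hVe, mul_zero]
      have h1 : 1 ≤ v.natAbs := Nat.one_le_iff_ne_zero.mpr (Int.natAbs_ne_zero.mpr this)
      exact h1.trans (le_max_right _ _)
  have hMpos : (0 : ℝ) < M := by exact_mod_cast hM1
  have hYM : ((2 : ℝ) ^ Nat.clog 2 M) ≤ 2 * M := by
    rcases Nat.lt_or_ge 1 M with h | h
    · have h1 := Nat.pow_pred_clog_lt_self (b := 2) (by norm_num) h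
      have h2 : 0 < Nat.clog 2 M := Nat.clog_pos (by norm_num) h
      have h3 : 2 ^ Nat.clog 2 M = 2 * 2 ^ (Nat.clog 2 M).pred := by
        rw [← pow_succ']
        exact congrArg (fun t => 2 ^ t) (Nat.succ_pred_eq_of_pos h2).symm
      have h4 : 2 ^ Nat.clog 2 M ≤ 2 * M := by rw [h3]; omega
      exact_mod_cast h4
    · have h1 : M = 1 := by omega
      rw [h1]
      norm_num
  have hMY : (M : ℝ) ≤ 2 ^ Nat.clog 2 M := by
    exact_mod_cast Nat.le_pow_clog (by norm_num) M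
  set j : ℕ := Nat.clog 2 M with hj
  have hY1 : (1 : ℝ) ≤ 2 ^ j := one_le_pow₀ (by norm_num)
  have hgM : (g : ℝ) * M ≤ C1 * X := by
    rw [hMR, mul_max_of_nonneg _ _ (by linarith)]
    apply max_le
    · calc (g : ℝ) * |(u : ℝ)| = |(U : ℝ)| := by
            rw [hUe]; push_cast; rw [abs_mul, abs_of_nonneg (by linarith : (0 : ℝ) ≤ g)]
        _ ≤ _ := hUX
    · calc (g : ℝ) * |(v : ℝ)| = |(V : ℝ)| := by
            rw [hVe]; push_cast; rw [abs_mul, abs_of_nonneg (by linarith : (0 : ℝ) ≤ g)]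
        _ ≤ _ := hVX
  have hgY : (g : ℝ) * 2 ^ j ≤ max 1 (2 * C1) * X := by
    calc (g : ℝ) * 2 ^ j ≤ g * (2 * M) := by gcongr
      _ = 2 * (g * M) := by ring
      _ ≤ 2 * (C1 * X) := by linarith
      _ = (2 * C1) * X := by ring
      _ ≤ _ := by gcongr; exact le_max_right _ _
  -- the radical
  have hgYpos : (0 : ℝ) < g * 2 ^ j := by positivity
  have hU' : D ^ 2 * a = Fa a0 b0 (g * u) (g * v) := by rw [hU, ← hUe, ← hVe]
  have hV' : D ^ 3 * b = Fb a0 b0 (g * u) (g * v) := by rw [hV, ← hUe, ← hVe]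
  have hrad := hcond a b u v g hg0 huv hmin hU' hV'
  refine ⟨(g, j, (u, v)), hg0, hU', hV', ⟨huv, ?_, ?_, ?_⟩, hgY, ?_⟩
  · exact ((le_max_left _ _).trans hMR.ge).trans hMY
  · exact ((le_max_right _ _).trans hMR.ge).trans hMY
  · rw [← hMR]
    exact hYM
  · simp only
    rw [le_div_iff₀ (by positivity)]
    have h1 : (radp (6 * D.natAbs * i * g) (G (9 * a0) (27 * b0) u v).natAbs : ℝ) ≤
        (radp (6 * D.natAbs * g) (G (9 * a0) (27 * b0) u v).natAbs : ℝ) := by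
      exact_mod_cast radp_anti ⟨i, by ring⟩ _
    calc (radp (6 * D.natAbs * i * g) (G (9 * a0) (27 * b0) u v).natAbs : ℝ) * (g : ℝ) ^ 2 ≤
          (radp (6 * D.natAbs * g) (G (9 * a0) (27 * b0) u v).natAbs : ℝ) * (g : ℝ) ^ 2 := by
          gcongr
      _ = (g : ℝ) ^ 2 * (radp (6 * D.natAbs * g) (G (9 * a0) (27 * b0) u v).natAbs : ℝ) := by ring
      _ ≤ C2 * condM a b := hrad
      _ ≤ C2 * Z := by gcongr

/-- the sum over the common factor converges -/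
theorem sum_g4 : ∃ C : ℝ, 0 < C ∧ ∀ N : ℕ, ∑ g ∈ Icc 1 N, (g : ℝ) ^ (-(4 : ℝ) / 3) ≤ C := by
  have hs : Summable (fun n : ℕ => (n : ℝ) ^ (-(4 : ℝ) / 3)) :=
    Real.summable_nat_rpow.2 (by norm_num)
  refine ⟨∑' n : ℕ, (n : ℝ) ^ (-(4 : ℝ) / 3) + 1, ?_, fun N => ?_⟩
  · have : 0 ≤ ∑' n : ℕ, (n : ℝ) ^ (-(4 : ℝ) / 3) := tsum_nonneg fun n => by positivity
    linarith
  · have := hs.sum_le_tsum (Icc 1 N) (fun n _ => by positivity)
    linarith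

/-- **Curves with a given cubic 2-division field, counted by conductor.** -/
theorem upper (K : Type) [Field K] [NumberField K]
    (hK : Module.finrank ℚ K = 3) (ε : ℝ) (hε : 0 < ε) :
    ∃ C : ℝ, 0 < C ∧ ∀ (X : ℕ) (Z : ℝ), 1 ≤ X → 0 ≤ Z → (Cnt K Z X).Finite ∧
      ((Cnt K Z X).ncard : ℝ) ≤ C * (X : ℝ) ^ ε * Z ^ ((2 : ℝ) / 3) := by
  classical
  by_cases hex : ∃ (a0 b0 : ℤ) (θ0 : K), (∀ r : ℚ, θ0 ≠ algebraMap ℚ K r) ∧
      θ0 ^ 3 = a0 * θ0 + b0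
  swap
  · refine ⟨1, one_pos, fun X Z hX hZ => ⟨cnt_finite K Z X, ?_⟩⟩
    have : Cnt K Z X = ∅ := by
      rw [Set.eq_empty_iff_forall_notMem]
      rintro ⟨a, b⟩ ⟨-, ⟨θ, h1, h2⟩, -⟩
      exact hex ⟨a, b, θ, h1, h2⟩
    rw [this, Set.ncard_empty]
    push_cast
    positivity
  obtain ⟨a0, b0, θ0, hθ, h0⟩ := hex
  obtain ⟨ρ, hρ⟩ := rho K hK a0 b0 θ0 hθ h0
  obtain ⟨hD, -⟩ := hP K hK a0 b0 θ0 hθ h0
  obtain ⟨i, hi, hT'⟩ := t2 K ρ (9 * a0) (27 * b0) hρ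
  obtain ⟨C4, C1, hC4, hC1, hdat⟩ := datZ_exists K hK a0 b0 θ0 hθ h0 i
  obtain ⟨C5, hC5, hcount⟩ := hT' (ε / 2) (by positivity)
  obtain ⟨C6, hC6, hsum⟩ := sum_g4
  obtain ⟨C7, hC7, hlog⟩ := log_bound C1 (ε / 2) hC1 (by positivity)
  set D : ℤ := 4 * a0 ^ 3 - 27 * b0 ^ 2 with hDdef
  have hDn : 0 < D.natAbs := Int.natAbs_pos.mpr hD
  set M : ℕ := 6 * D.natAbs * i with hM
  have hM1 : 1 ≤ M := by
    have : 0 < 6 * D.natAbs * i := by positivity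
    omega
  refine ⟨C5 * (((M : ℝ) * C1) ^ (ε / 2) * C4 ^ ((2 : ℝ) / 3)) * C6 * C7, by positivity,
    fun X Z hX hZ => ⟨cnt_finite K Z X, ?_⟩⟩
  have hX1 : (1 : ℝ) ≤ X := by exact_mod_cast hX
  have hX0 : (0 : ℝ) < X := by linarith
  have hdat' := fun q hq => hdat X Z hX q hq
  choose! f hf using hdat'
  set E : Finset (ℤ × ℤ) := (cnt_finite K Z X).toFinset with hE
  have hEm : ∀ q ∈ E, q ∈ Cnt K Z X := fun q hq => by
    rw [hE, Set.Finite.mem_toFinset] at hq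
    exact hq
  rw [Set.ncard_eq_toFinset_card _ (cnt_finite K Z X), ← hE]
  set N : ℕ := ⌊C1 * (X : ℝ)⌋₊ with hN
  set J : ℕ := Nat.log 2 N + 1 with hJ
  -- every model is in one of the classes
  have hcov : E ⊆ (Icc 1 N ×ˢ range J).biUnion
      (fun gj => E.filter (fun q => (f q).1 = gj.1 ∧ (f q).2.1 = gj.2)) := by
    intro q hq
    obtain ⟨h1, -, -, h4, h5, -⟩ := hf q (hEm q hq)
    rw [mem_biUnion]
    have hg1 : (1 : ℝ) ≤ ((f q).1 : ℝ) := by exact_mod_cast h1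
    have hY1 : (1 : ℝ) ≤ 2 ^ (f q).2.1 := one_le_pow₀ (by norm_num)
    refine ⟨((f q).1, (f q).2.1), ?_, ?_⟩
    · rw [mem_product, mem_Icc, mem_range]
      refine ⟨⟨h1, ?_⟩, ?_⟩
      · rw [hN]
        apply Nat.le_floor
        calc ((f q).1 : ℝ) ≤ ((f q).1 : ℝ) * 2 ^ (f q).2.1 := le_mul_of_one_le_right (by linarith) hY1
          _ ≤ _ := h5
      · rw [hJ, Nat.lt_succ_iff]
        apply Nat.le_log_of_pow_le (by norm_num)
        rw [hN]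
        apply Nat.le_floor
        push_cast
        calc ((2 : ℝ) ^ (f q).2.1) ≤ ((f q).1 : ℝ) * 2 ^ (f q).2.1 :=
              le_mul_of_one_le_left (by positivity) hg1
          _ ≤ _ := h5
    · rw [mem_filter]
      exact ⟨hq, rfl, rfl⟩
  -- the size of a class
  have hclass : ∀ gj ∈ Icc 1 N ×ˢ range J,
      ((E.filter (fun q => (f q).1 = gj.1 ∧ (f q).2.1 = gj.2)).card : ℝ) ≤
        C5 * (((M : ℝ) * C1) ^ (ε / 2) * C4 ^ ((2 : ℝ) / 3)) * ((X : ℝ) ^ (ε / 2) *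
          Z ^ ((2 : ℝ) / 3)) * (gj.1 : ℝ) ^ (-(4 : ℝ) / 3) := by
    rintro ⟨g, j⟩ hgj
    rw [mem_product, mem_Icc, mem_range] at hgj
    obtain ⟨⟨hg1, -⟩, -⟩ := hgj
    simp only at hg1 ⊢
    set T := E.filter (fun q => (f q).1 = g ∧ (f q).2.1 = j) with hTd
    rcases T.eq_empty_or_nonempty with hemp | hne
    · rw [hemp, card_empty]
      push_cast
      positivity
    have hg1R : (1 : ℝ) ≤ g := by exact_mod_cast hg1
    have hg0R : (0 : ℝ) < g := by linarith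
    have hY1 : (1 : ℝ) ≤ 2 ^ j := one_le_pow₀ (by norm_num)
    set R : ℝ := C4 * Z / (g : ℝ) ^ 2 with hR
    have hTm : ∀ q ∈ T, DatZ a0 b0 i C4 Z (C1 * X) q (f q) ∧ (f q).1 = g ∧ (f q).2.1 = j := by
      intro q hq
      rw [hTd, mem_filter] at hq
      exact ⟨hf q (hEm q hq.1), hq.2⟩
    have hinj : Set.InjOn (fun q => (f q).2.2) (T : Set (ℤ × ℤ)) := by
      intro q hq q' hq' hqq
      obtain ⟨⟨-, h2, h3, -⟩, h7, -⟩ := hTm q hq
      obtain ⟨⟨-, h2', h3', -⟩, h7', -⟩ := hTm q' hq'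
      simp only at hqq
      rw [h7] at h2 h3
      rw [h7'] at h2' h3'
      rw [← hqq] at h2' h3'
      have e1 : D ^ 2 * q.1 = D ^ 2 * q'.1 := by rw [h2, h2']
      have e2 : D ^ 3 * q.2 = D ^ 3 * q'.2 := by rw [h3, h3']
      exact Prod.ext (mul_left_cancel₀ (pow_ne_zero _ hD) e1)
        (mul_left_cancel₀ (pow_ne_zero _ hD) e2)
    obtain ⟨q0, hq0⟩ := hne
    have hR1 : 1 ≤ R := by
      obtain ⟨⟨-, -, -, -, -, h6⟩, h7, h8⟩ := hTm q0 hq0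
      rw [h7] at h6
      refine le_trans ?_ h6
      exact_mod_cast radp_pos _ _
    have hW : (g : ℝ) * 2 ^ j ≤ C1 * X := by
      obtain ⟨⟨-, -, -, -, h5, -⟩, h7, h8⟩ := hTm q0 hq0
      rw [h7, h8] at h5
      exact h5
    have hmain := hcount (M * g) (2 ^ j) R (by
      have : 0 < M * g := by positivity
      omega) ⟨6 * D.natAbs * g, by rw [hM]; ring⟩ hY1 hR1 (T.image (fun q => (f q).2.2)) (by
        intro p hp
        obtain ⟨q, hq, rfl⟩ := mem_image.mp hp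
        obtain ⟨⟨-, -, -, h4, -, h6⟩, h7, h8⟩ := hTm q hq
        rw [h7] at h6
        rw [h8] at h4
        exact ⟨h4, h6⟩)
    rw [card_image_of_injOn hinj] at hmain
    refine hmain.trans ?_
    have hbd : R ^ ((2 : ℝ) / 3) = C4 ^ ((2 : ℝ) / 3) * Z ^ ((2 : ℝ) / 3) *
        (g : ℝ) ^ (-(4 : ℝ) / 3) := by
      rw [hR, Real.div_rpow (by positivity) (by positivity), Real.mul_rpow hC4.le hZ,
        div_eq_mul_inv, ← Real.rpow_natCast (g : ℝ) 2, ← Real.rpow_mul hg0R.le,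
        ← Real.rpow_neg hg0R.le]
      norm_num
    have hm : (((M * g : ℕ) : ℝ) * 2 ^ j) ^ (ε / 2) ≤
        ((M : ℝ) * C1) ^ (ε / 2) * (X : ℝ) ^ (ε / 2) := by
      rw [← Real.mul_rpow (by positivity) (by positivity)]
      apply Real.rpow_le_rpow (by positivity) _ (by positivity)
      push_cast
      calc (M : ℝ) * g * 2 ^ j = M * (g * 2 ^ j) := by ring
        _ ≤ M * (C1 * X) := by gcongr
        _ = _ := by ring
    calc C5 * (((M * g : ℕ) : ℝ) * 2 ^ j) ^ (ε / 2) * R ^ ((2 : ℝ) / 3) ≤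
          C5 * (((M : ℝ) * C1) ^ (ε / 2) * (X : ℝ) ^ (ε / 2)) * R ^ ((2 : ℝ) / 3) := by gcongr
      _ = _ := by
          rw [hbd]
          ring
  calc (E.card : ℝ) ≤ (((Icc 1 N ×ˢ range J).biUnion
        (fun gj => E.filter (fun q => (f q).1 = gj.1 ∧ (f q).2.1 = gj.2))).card : ℝ) := by
        exact_mod_cast card_le_card hcov
    _ ≤ ∑ gj ∈ Icc 1 N ×ˢ range J,
        ((E.filter (fun q => (f q).1 = gj.1 ∧ (f q).2.1 = gj.2)).card : ℝ) := by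
        exact_mod_cast card_biUnion_le
    _ ≤ ∑ gj ∈ Icc 1 N ×ˢ range J,
        C5 * (((M : ℝ) * C1) ^ (ε / 2) * C4 ^ ((2 : ℝ) / 3)) * ((X : ℝ) ^ (ε / 2) *
          Z ^ ((2 : ℝ) / 3)) * (gj.1 : ℝ) ^ (-(4 : ℝ) / 3) := sum_le_sum hclass
    _ = C5 * (((M : ℝ) * C1) ^ (ε / 2) * C4 ^ ((2 : ℝ) / 3)) * ((X : ℝ) ^ (ε / 2) *
          Z ^ ((2 : ℝ) / 3)) * ((∑ g ∈ Icc 1 N, (g : ℝ) ^ (-(4 : ℝ) / 3)) * J) := by
        rw [← mul_sum, sum_product]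
        congr 1
        simp only
        rw [sum_mul]
        refine sum_congr rfl fun g _ => ?_
        rw [sum_const, card_range, nsmul_eq_mul, mul_comm]
    _ ≤ C5 * (((M : ℝ) * C1) ^ (ε / 2) * C4 ^ ((2 : ℝ) / 3)) * ((X : ℝ) ^ (ε / 2) *
          Z ^ ((2 : ℝ) / 3)) * (C6 * (C7 * (X : ℝ) ^ (ε / 2))) := by
        gcongr
        · exact hsum N
        · exact hlog X hX
    _ = C5 * (((M : ℝ) * C1) ^ (ε / 2) * C4 ^ ((2 : ℝ) / 3)) * C6 * C7 *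
          ((X : ℝ) ^ (ε / 2) * (X : ℝ) ^ (ε / 2)) * Z ^ ((2 : ℝ) / 3) := by ring
    _ = _ := by
        rw [← Real.rpow_add hX0]
        congr 3
        ring

end Pool.Agent.H460.CF
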